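import Pool.Agent.Rn4.Loc
import Pool.Agent.Rnt.Cnt

/-!
# Rn4 CNT: counting, and the parametrisation of the family
-/

set_option autoImplicit false

namespace Rn4

open Finset Filter Topology Rnt

open scoped Classical

-- BEGIN mem_Reg4
/-- C1. With `Z = Y²`: `Rnt.mem_Reg` gives `|r| ≤ Z`, `|A| ≤ Z²`; `c² = A + 3r² ≤ 4Z²`, `a² = 3r + 2c ≤ 7Z ≤ 9Y²`. -/
theorem mem_Reg4 (Y : ℝ) (hY : 0 ≤ Y) (a c : ℤ) : (a, c) ∈ Reg4 Y ↔
    Gd a c ∧ 4 * |((Af a c : ℤ) : ℝ)| ^ 3 ≤ Y ^ 12 ∧ 27 * ((Bf a c : ℤ) : ℝ) ^ 2 ≤ Y ^ 12 := by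
  unfold Reg4
  rw [Finset.mem_filter]
  constructor
  · intro h
    exact h.2
  · intro h
    refine ⟨?_, h⟩
    obtain ⟨hG, h1, h2⟩ := h
    have e : (Y ^ 2) ^ 6 = Y ^ 12 := by ring
    have hR : (Af a c, rr a c) ∈ Reg (Y ^ 2) := by
      rw [mem_Reg (Y ^ 2) (by positivity), e, ← Bf_eq]
      exact ⟨h1, h2⟩
    unfold Reg at hR
    rw [Finset.mem_filter, Finset.mem_product, Finset.mem_Icc, Finset.mem_Icc] at hR
    obtain ⟨⟨⟨_, hA⟩, ⟨hr1, hr2⟩⟩, _⟩ := hR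
    have hA' : ((Af a c : ℤ) : ℝ) ≤ (Y ^ 2) ^ 2 := by
      have h3 : ((Af a c : ℤ) : ℝ) ≤ (⌊(Y ^ 2) ^ 2⌋ : ℤ) := by exact_mod_cast hA
      exact h3.trans (Int.floor_le _)
    have hr2' : ((rr a c : ℤ) : ℝ) ≤ Y ^ 2 := by
      have h3 : ((rr a c : ℤ) : ℝ) ≤ (⌊Y ^ 2⌋ : ℤ) := by exact_mod_cast hr2
      exact h3.trans (Int.floor_le _)
    have hr1' : -(Y ^ 2) ≤ ((rr a c : ℤ) : ℝ) := by
      have h3 : ((-⌊Y ^ 2⌋ : ℤ) : ℝ) ≤ ((rr a c : ℤ) : ℝ) := by exact_mod_cast hr1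
      push_cast at h3
      have := Int.floor_le (Y ^ 2)
      linarith
    have hrsq : ((rr a c : ℤ) : ℝ) ^ 2 ≤ (Y ^ 2) ^ 2 := sq_le_sq' hr1' hr2'
    have hAf : ((Af a c : ℤ) : ℝ) = (c : ℝ) ^ 2 - 3 * ((rr a c : ℤ) : ℝ) ^ 2 := by
      unfold Af
      push_cast
      ring
    have hc2 : (c : ℝ) ^ 2 ≤ (2 * Y ^ 2) ^ 2 := by
      have : (c : ℝ) ^ 2 = ((Af a c : ℤ) : ℝ) + 3 * ((rr a c : ℤ) : ℝ) ^ 2 := by rw [hAf]; ring
      rw [this]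
      nlinarith
    have hc : |(c : ℝ)| ≤ 2 * Y ^ 2 := abs_le_of_sq_le_sq hc2 (by positivity)
    have h3r : 3 * ((rr a c : ℤ) : ℝ) = (a : ℝ) ^ 2 - 2 * c := by
      have := three_rr a c hG
      exact_mod_cast this
    have ha2 : (a : ℝ) ^ 2 ≤ (3 * Y) ^ 2 := by
      have h4 : (a : ℝ) ^ 2 = 3 * ((rr a c : ℤ) : ℝ) + 2 * c := by rw [h3r]; ring
      have h5 := (abs_le.1 hc).2
      rw [h4]
      nlinarith [sq_nonneg Y]
    have ha : |(a : ℝ)| ≤ 3 * Y := abs_le_of_sq_le_sq ha2 (by positivity)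
    rw [abs_le] at ha hc
    unfold Box4
    rw [Finset.mem_product, Finset.mem_Icc, Finset.mem_Icc]
    refine ⟨⟨?_, ?_⟩, ⟨?_, ?_⟩⟩
    · show -⌊3 * Y⌋ ≤ a
      rw [neg_le]
      apply Int.le_floor.2
      push_cast
      linarith
    · show a ≤ ⌊3 * Y⌋
      apply Int.le_floor.2
      linarith
    · show -⌊2 * Y ^ 2⌋ ≤ c
      rw [neg_le]
      apply Int.le_floor.2
      push_cast
      linarith
    · show c ≤ ⌊2 * Y ^ 2⌋
      apply Int.le_floor.2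
      linarith
-- END mem_Reg4

-- BEGIN exc_a
/-- C2. Union over `n ∈ (T, 3Y]`: at most `(6Y/n)(4Y²/n)` pairs with `n ∣ a`, `n ∣ c`, `a, c ≠ 0` (`mult_card`); `inv_sq`. -/
theorem exc_a (Y : ℝ) (hY : 1 ≤ Y) (T : ℕ) (hT : 1 ≤ T) :
    (((Box4 Y).filter (fun x => x.1 ≠ 0 ∧ x.2 ≠ 0 ∧ ∃ p : ℕ, p.Prime ∧ T < p ∧ (p : ℤ) ∣ x.1 ∧ (p : ℤ) ∣ x.2)).card : ℝ) ≤ 24 * Y ^ 3 / T := by
  have hY0 : 0 < Y := by linarith
  have hsub : (Box4 Y).filter (fun x => x.1 ≠ 0 ∧ x.2 ≠ 0 ∧ ∃ p : ℕ, p.Prime ∧ T < p ∧ (p : ℤ) ∣ x.1 ∧ (p : ℤ) ∣ x.2) ⊆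
      (Ioc T ⌊3 * Y⌋₊).biUnion (fun n : ℕ => ((Icc (-⌊3 * Y⌋) ⌊3 * Y⌋).filter (fun a => a ≠ 0 ∧ (n : ℤ) ∣ a)) ×ˢ
        ((Icc (-⌊2 * Y ^ 2⌋) ⌊2 * Y ^ 2⌋).filter (fun a => a ≠ 0 ∧ (n : ℤ) ∣ a))) := by
    intro x hx
    rw [mem_filter] at hx
    obtain ⟨hB, h0, h0', p, hp, hTp, h1, h2⟩ := hx
    unfold Box4 at hB
    rw [mem_product] at hB
    rw [mem_biUnion]
    refine ⟨p, ?_, ?_⟩
    · rw [mem_Ioc]
      refine ⟨hTp, ?_⟩
      have e1 : (p : ℤ) ≤ |x.1| := Int.le_of_dvd (abs_pos.mpr h0) ((dvd_abs _ _).mpr h1)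
      have e2 : |x.1| ≤ ⌊3 * Y⌋ := abs_le.mpr (mem_Icc.mp hB.1)
      have e3 : ((p : ℤ) : ℝ) ≤ ((⌊3 * Y⌋ : ℤ) : ℝ) := by exact_mod_cast le_trans e1 e2
      apply Nat.le_floor
      have e4 := Int.floor_le (3 * Y)
      push_cast at e3
      linarith
    · rw [mem_product]
      exact ⟨mem_filter.mpr ⟨hB.1, h0, h1⟩, mem_filter.mpr ⟨hB.2, h0', h2⟩⟩
  have hcard := Finset.card_le_card hsub
  have hcard2 := le_trans hcard Finset.card_biUnion_le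
  have hcard3 : (((Box4 Y).filter (fun x => x.1 ≠ 0 ∧ x.2 ≠ 0 ∧ ∃ p : ℕ, p.Prime ∧ T < p ∧ (p : ℤ) ∣ x.1 ∧ (p : ℤ) ∣ x.2)).card : ℝ) ≤
      ∑ n ∈ Ioc T ⌊3 * Y⌋₊, ((((Icc (-⌊3 * Y⌋) ⌊3 * Y⌋).filter (fun a => a ≠ 0 ∧ (n : ℤ) ∣ a)) ×ˢ
        ((Icc (-⌊2 * Y ^ 2⌋) ⌊2 * Y ^ 2⌋).filter (fun a => a ≠ 0 ∧ (n : ℤ) ∣ a))).card : ℝ) := by
    exact_mod_cast hcard2
  refine le_trans hcard3 ?_
  have hterm : ∀ n ∈ Ioc T ⌊3 * Y⌋₊, ((((Icc (-⌊3 * Y⌋) ⌊3 * Y⌋).filter (fun a => a ≠ 0 ∧ (n : ℤ) ∣ a)) ×ˢ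
        ((Icc (-⌊2 * Y ^ 2⌋) ⌊2 * Y ^ 2⌋).filter (fun a => a ≠ 0 ∧ (n : ℤ) ∣ a))).card : ℝ) ≤ 24 * Y ^ 3 * (1 / (n : ℝ) ^ 2) := by
    intro n hn
    rw [mem_Ioc] at hn
    have hn0 : 0 < n := by omega
    have hnR : (0 : ℝ) < n := by exact_mod_cast hn0
    rw [Finset.card_product]
    push_cast
    have a1 := mult_card (2 * Y ^ 2) (by positivity) n hn0
    have a2 := mult_card (3 * Y) (by positivity) n hn0
    calc _ ≤ (2 * (3 * Y) / n) * (2 * (2 * Y ^ 2) / n) := by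
          apply mul_le_mul a2 a1 (by positivity) (by positivity)
      _ = 24 * Y ^ 3 * (1 / (n : ℝ) ^ 2) := by
          field_simp
          ring
  refine le_trans (Finset.sum_le_sum hterm) ?_
  rw [← Finset.mul_sum]
  have h1 := inv_sq T ⌊3 * Y⌋₊ hT
  calc 24 * Y ^ 3 * ∑ n ∈ Ioc T ⌊3 * Y⌋₊, 1 / (n : ℝ) ^ 2 ≤ 24 * Y ^ 3 * (1 / (T : ℝ)) :=
        mul_le_mul_of_nonneg_left h1 (by positivity)
    _ = 24 * Y ^ 3 / T := by ring
-- END exc_a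

-- BEGIN exc_b
private theorem exc_b_cardr (W : ℝ) (hW : 0 ≤ W) : ((Icc (-⌊W⌋) ⌊W⌋).card : ℝ) ≤ 2 * W + 1 := by
  have h0 : (0 : ℤ) ≤ ⌊W⌋ := Int.floor_nonneg.mpr hW
  rw [Int.card_Icc]
  have h1 : ((⌊W⌋ + 1 - -⌊W⌋).toNat : ℝ) = 2 * (⌊W⌋ : ℝ) + 1 := by
    have : ((⌊W⌋ + 1 - -⌊W⌋).toNat : ℤ) = 2 * ⌊W⌋ + 1 := by
      rw [Int.toNat_of_nonneg (by linarith)]; ring
    exact_mod_cast this
  rw [h1]
  have := Int.floor_le W
  linarith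

private theorem exc_b_abs (W : ℝ) (x : ℤ) (hx : x ∈ Icc (-⌊W⌋) ⌊W⌋) : |(x : ℝ)| ≤ W := by
  rw [mem_Icc] at hx
  have h0 := Int.floor_le W
  refine abs_le.2 ⟨?_, ?_⟩
  · have h3 : (-⌊W⌋ : ℝ) ≤ ((x : ℤ) : ℝ) := by exact_mod_cast hx.1
    linarith
  · have h3 : ((x : ℤ) : ℝ) ≤ (⌊W⌋ : ℝ) := by exact_mod_cast hx.2
    linarith

private theorem exc_b_nn (Y : ℝ) (hY : 1 ≤ Y) (a c : ℤ) (ha : |(a : ℝ)| ≤ 3 * Y)
    (hc : |(c : ℝ)| ≤ 2 * Y ^ 2) : |((nn a c : ℤ) : ℝ)| ≤ 17 * Y ^ 2 := by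
  unfold nn
  push_cast
  have h1 : (a : ℝ) ^ 2 ≤ (3 * Y) ^ 2 := by
    rw [← sq_abs (a : ℝ)]
    exact pow_le_pow_left₀ (abs_nonneg _) ha 2
  have h2 := sq_nonneg (a : ℝ)
  obtain ⟨h3, h4⟩ := abs_le.1 hc
  refine abs_le.2 ⟨?_, ?_⟩ <;> nlinarith

/-- all three conditions for one modulus `m` -/
private theorem exc_b_one (Y : ℝ) (hY : 1 ≤ Y) (m : ℕ) (hm : 0 < m) :
    (((Box4 Y).filter (fun x => (x.1 ≠ 0 ∧ (m : ℤ) ∣ x.1) ∨ (x.2 ≠ 0 ∧ (m : ℤ) ∣ x.2) ∨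
      (nn x.1 x.2 ≠ 0 ∧ (m : ℤ) ∣ nn x.1 x.2))).card : ℝ) ≤ 296 * Y ^ 3 / m := by
  have hm' : (0 : ℝ) < m := Nat.cast_pos.2 hm
  have hY2 : 1 ≤ Y ^ 2 := one_le_pow₀ hY
  set IA : Finset ℤ := Icc (-⌊3 * Y⌋) ⌊3 * Y⌋ with hIA
  set IC : Finset ℤ := Icc (-⌊2 * Y ^ 2⌋) ⌊2 * Y ^ 2⌋ with hIC
  have hA : (IA.card : ℝ) ≤ 7 * Y := by
    have := exc_b_cardr (3 * Y) (by linarith)
    linarith
  have hC : (IC.card : ℝ) ≤ 5 * Y ^ 2 := by
    have := exc_b_cardr (2 * Y ^ 2) (by linarith)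
    linarith
  have e1 : ((IA.filter (fun a => a ≠ 0 ∧ (m : ℤ) ∣ a)).card : ℝ) ≤ 2 * (3 * Y) / m :=
    mult_card (3 * Y) (by linarith) m hm
  have e2 : ((IC.filter (fun c => c ≠ 0 ∧ (m : ℤ) ∣ c)).card : ℝ) ≤ 2 * (2 * Y ^ 2) / m :=
    mult_card (2 * Y ^ 2) (by linarith) m hm
  have e3 : ∀ a ∈ IA, ((IC.filter (fun c => nn a c ≠ 0 ∧ (m : ℤ) ∣ nn a c)).card : ℝ) ≤
      2 * (17 * Y ^ 2) / m := by
    intro a ha
    have h1 : (IC.filter (fun c => nn a c ≠ 0 ∧ (m : ℤ) ∣ nn a c)).card ≤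
        ((Icc (-⌊17 * Y ^ 2⌋) ⌊17 * Y ^ 2⌋).filter (fun n => n ≠ 0 ∧ (m : ℤ) ∣ n)).card := by
      refine card_le_card_of_injOn (fun c => nn a c) ?_ ?_
      · intro c hc
        have hc' := mem_filter.1 (mem_coe.1 hc)
        rw [mem_coe, mem_filter, mem_Icc]
        have h2 := abs_le.1 (exc_b_nn Y hY a c (exc_b_abs _ _ ha) (exc_b_abs _ _ hc'.1))
        refine ⟨⟨?_, Int.le_floor.2 h2.2⟩, hc'.2⟩
        have h4 : -nn a c ≤ ⌊17 * Y ^ 2⌋ := Int.le_floor.2 (by push_cast; linarith [h2.1])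
        linarith
      · intro c _ c' _ h
        simp only [nn] at h
        linarith
    exact le_trans (by exact_mod_cast h1) (mult_card (17 * Y ^ 2) (by linarith) m hm)
  have hsub : (Box4 Y).filter (fun x => (x.1 ≠ 0 ∧ (m : ℤ) ∣ x.1) ∨ (x.2 ≠ 0 ∧ (m : ℤ) ∣ x.2) ∨
      (nn x.1 x.2 ≠ 0 ∧ (m : ℤ) ∣ nn x.1 x.2)) ⊆
      ((IA.filter (fun a => a ≠ 0 ∧ (m : ℤ) ∣ a)) ×ˢ IC) ∪
        ((IA ×ˢ (IC.filter (fun c => c ≠ 0 ∧ (m : ℤ) ∣ c))) ∪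
          IA.biUnion (fun a => (IC.filter (fun c => nn a c ≠ 0 ∧ (m : ℤ) ∣ nn a c)).image
            (fun c => (a, c)))) := by
    intro x hx
    rw [mem_filter] at hx
    obtain ⟨hxB, hd⟩ := hx
    unfold Box4 at hxB
    rw [mem_product] at hxB
    rw [mem_union, mem_union]
    rcases hd with h | h | h
    · left
      rw [mem_product, mem_filter]
      exact ⟨⟨hxB.1, h⟩, hxB.2⟩
    · right; left
      rw [mem_product, mem_filter]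
      exact ⟨hxB.1, hxB.2, h⟩
    · right; right
      rw [mem_biUnion]
      refine ⟨x.1, hxB.1, ?_⟩
      rw [mem_image]
      refine ⟨x.2, ?_, rfl⟩
      rw [mem_filter]
      exact ⟨hxB.2, h⟩
  have h1 : (((Box4 Y).filter (fun x => (x.1 ≠ 0 ∧ (m : ℤ) ∣ x.1) ∨ (x.2 ≠ 0 ∧ (m : ℤ) ∣ x.2) ∨
      (nn x.1 x.2 ≠ 0 ∧ (m : ℤ) ∣ nn x.1 x.2))).card : ℝ) ≤
      ((IA.filter (fun a => a ≠ 0 ∧ (m : ℤ) ∣ a)).card : ℝ) * IC.card +
      ((IA.card : ℝ) * ((IC.filter (fun c => c ≠ 0 ∧ (m : ℤ) ∣ c)).card : ℝ) +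
      ∑ a ∈ IA, ((IC.filter (fun c => nn a c ≠ 0 ∧ (m : ℤ) ∣ nn a c)).card : ℝ)) := by
    have h2 := (card_le_card hsub).trans ((card_union_le _ _).trans
      (Nat.add_le_add_left (card_union_le _ _) _))
    rw [card_product, card_product] at h2
    have h3 : (IA.biUnion (fun a => (IC.filter (fun c => nn a c ≠ 0 ∧ (m : ℤ) ∣ nn a c)).image
        (fun c => (a, c)))).card ≤
        ∑ a ∈ IA, (IC.filter (fun c => nn a c ≠ 0 ∧ (m : ℤ) ∣ nn a c)).card :=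
      card_biUnion_le.trans (sum_le_sum fun a _ => card_image_le)
    have h4 := h2.trans (Nat.add_le_add_left (Nat.add_le_add_left h3 _) _)
    exact_mod_cast h4
  refine h1.trans ?_
  have h5 : ∑ a ∈ IA, ((IC.filter (fun c => nn a c ≠ 0 ∧ (m : ℤ) ∣ nn a c)).card : ℝ) ≤
      (7 * Y) * (2 * (17 * Y ^ 2) / m) := by
    calc ∑ a ∈ IA, ((IC.filter (fun c => nn a c ≠ 0 ∧ (m : ℤ) ∣ nn a c)).card : ℝ)
        ≤ ∑ _a ∈ IA, (2 * (17 * Y ^ 2) / (m : ℝ)) := sum_le_sum e3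
      _ = (IA.card : ℝ) * (2 * (17 * Y ^ 2) / m) := by rw [sum_const, nsmul_eq_mul]
      _ ≤ (7 * Y) * (2 * (17 * Y ^ 2) / m) := mul_le_mul_of_nonneg_right hA (by positivity)
  have h6 : ((IA.filter (fun a => a ≠ 0 ∧ (m : ℤ) ∣ a)).card : ℝ) * IC.card ≤
      (2 * (3 * Y) / m) * (5 * Y ^ 2) :=
    mul_le_mul e1 hC (Nat.cast_nonneg _) (by positivity)
  have h7 : (IA.card : ℝ) * ((IC.filter (fun c => c ≠ 0 ∧ (m : ℤ) ∣ c)).card : ℝ) ≤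
      (7 * Y) * (2 * (2 * Y ^ 2) / m) :=
    mul_le_mul hA e2 (Nat.cast_nonneg _) (by linarith)
  have h8 : 296 * Y ^ 3 / (m : ℝ) = (2 * (3 * Y) / m) * (5 * Y ^ 2) +
      ((7 * Y) * (2 * (2 * Y ^ 2) / m) + (7 * Y) * (2 * (17 * Y ^ 2) / m)) := by
    ring
  rw [h8]
  exact add_le_add h6 (add_le_add h7 h5)

/-- C3. `p² ∣ a ≠ 0`: `6Y/n²` values of `a`, at most `5Y²` of `c`. `p² ∣ c ≠ 0`: at most `7Y` values of `a`, `4Y²/n²` of `c`. `p² ∣ n ≠ 0`: at most `7Y` values of `a`, `c ↦ n` injective, `|n| ≤ 17Y²`: `34Y²/n²`. Total `(30 + 28 + 238) Y³/n²`. -/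
theorem exc_b (Y : ℝ) (hY : 1 ≤ Y) (T : ℕ) (hT : 1 ≤ T) :
    (((Box4 Y).filter (fun x => ∃ p : ℕ, p.Prime ∧ T < p ∧ ((x.1 ≠ 0 ∧ (p : ℤ) ^ 2 ∣ x.1) ∨
      (x.2 ≠ 0 ∧ (p : ℤ) ^ 2 ∣ x.2) ∨ (nn x.1 x.2 ≠ 0 ∧ (p : ℤ) ^ 2 ∣ nn x.1 x.2)))).card : ℝ) ≤ 296 * Y ^ 3 / T := by
  set N : ℕ := ⌊5 * Y⌋₊ with hN
  set W : ℕ → Finset (ℤ × ℤ) := fun m => (Box4 Y).filter (fun x => (x.1 ≠ 0 ∧ (m : ℤ) ∣ x.1) ∨
    (x.2 ≠ 0 ∧ (m : ℤ) ∣ x.2) ∨ (nn x.1 x.2 ≠ 0 ∧ (m : ℤ) ∣ nn x.1 x.2)) with hW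
  have hsub : (Box4 Y).filter (fun x => ∃ p : ℕ, p.Prime ∧ T < p ∧ ((x.1 ≠ 0 ∧ (p : ℤ) ^ 2 ∣ x.1) ∨
      (x.2 ≠ 0 ∧ (p : ℤ) ^ 2 ∣ x.2) ∨ (nn x.1 x.2 ≠ 0 ∧ (p : ℤ) ^ 2 ∣ nn x.1 x.2))) ⊆
      (Ioc T N).biUnion (fun n => W (n ^ 2)) := by
    intro x hx
    rw [mem_filter] at hx
    obtain ⟨hxB, p, hp, hTp, hdvd⟩ := hx
    have hxB' := hxB
    unfold Box4 at hxB'
    rw [mem_product] at hxB'
    have ha := exc_b_abs _ _ hxB'.1
    have hc := exc_b_abs _ _ hxB'.2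
    have hn := exc_b_nn Y hY _ _ ha hc
    have key : ∀ z : ℤ, z ≠ 0 → (p : ℤ) ^ 2 ∣ z → |(z : ℝ)| ≤ 17 * Y ^ 2 → p ≤ N := by
      intro z hz hd h5
      rw [hN]
      apply Nat.le_floor
      have h3 : ((p : ℤ) ^ 2) ≤ |z| := Int.le_of_dvd (abs_pos.mpr hz) ((dvd_abs _ _).mpr hd)
      have h4 : (p : ℝ) ^ 2 ≤ |(z : ℝ)| := by
        have : (((p : ℤ) ^ 2 : ℤ) : ℝ) ≤ ((|z| : ℤ) : ℝ) := by exact_mod_cast h3
        rw [Int.cast_abs] at this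
        push_cast at this ⊢
        exact this
      have h6 : (p : ℝ) ^ 2 ≤ (5 * Y) ^ 2 := by nlinarith [sq_nonneg Y]
      exact (sq_le_sq₀ (by positivity) (by linarith)).1 h6
    have hpN : p ≤ N := by
      rcases hdvd with ⟨h1, h2⟩ | ⟨h1, h2⟩ | ⟨h1, h2⟩
      · exact key _ h1 h2 (ha.trans (by nlinarith))
      · exact key _ h1 h2 (hc.trans (by nlinarith))
      · exact key _ h1 h2 hn
    rw [mem_biUnion]
    refine ⟨p, mem_Ioc.2 ⟨hTp, hpN⟩, ?_⟩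
    rw [hW, mem_filter]
    refine ⟨hxB, ?_⟩
    push_cast
    exact hdvd
  calc (((Box4 Y).filter (fun x => ∃ p : ℕ, p.Prime ∧ T < p ∧ ((x.1 ≠ 0 ∧ (p : ℤ) ^ 2 ∣ x.1) ∨
      (x.2 ≠ 0 ∧ (p : ℤ) ^ 2 ∣ x.2) ∨ (nn x.1 x.2 ≠ 0 ∧ (p : ℤ) ^ 2 ∣ nn x.1 x.2)))).card : ℝ)
      ≤ (((Ioc T N).biUnion (fun n => W (n ^ 2))).card : ℝ) := by exact_mod_cast card_le_card hsub
    _ ≤ ((∑ n ∈ Ioc T N, (W (n ^ 2)).card : ℕ) : ℝ) := by exact_mod_cast card_biUnion_le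
    _ = ∑ n ∈ Ioc T N, ((W (n ^ 2)).card : ℝ) := by push_cast; rfl
    _ ≤ ∑ n ∈ Ioc T N, (296 * Y ^ 3 * (1 / (n : ℝ) ^ 2)) := by
        apply sum_le_sum
        intro n hn
        rw [mem_Ioc] at hn
        have hn0 : 0 < n := by omega
        refine (exc_b_one Y hY (n ^ 2) (by positivity)).trans (le_of_eq ?_)
        push_cast
        ring
    _ = 296 * Y ^ 3 * ∑ n ∈ Ioc T N, 1 / (n : ℝ) ^ 2 := by rw [mul_sum]
    _ ≤ 296 * Y ^ 3 * (1 / T) := mul_le_mul_of_nonneg_left (inv_sq T N hT) (by positivity)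
    _ = 296 * Y ^ 3 / T := by ring
-- END exc_b

-- BEGIN exc_p
private theorem exc_p_cardr (W : ℝ) (hW : 0 ≤ W) : ((Icc (-⌊W⌋) ⌊W⌋).card : ℝ) ≤ 2 * W + 1 := by
  have h0 : (0 : ℤ) ≤ ⌊W⌋ := Int.floor_nonneg.mpr hW
  rw [Int.card_Icc]
  have h1 : ((⌊W⌋ + 1 - -⌊W⌋).toNat : ℝ) = 2 * (⌊W⌋ : ℝ) + 1 := by
    have : ((⌊W⌋ + 1 - -⌊W⌋).toNat : ℤ) = 2 * ⌊W⌋ + 1 := by
      rw [Int.toNat_of_nonneg (by linarith)]; ring
    exact_mod_cast this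
  rw [h1]
  have := Int.floor_le W
  linarith

private theorem exc_p_abs (W : ℝ) (x : ℤ) (hx : x ∈ Icc (-⌊W⌋) ⌊W⌋) : |(x : ℝ)| ≤ W := by
  rw [mem_Icc] at hx
  have h0 := Int.floor_le W
  refine abs_le.2 ⟨?_, ?_⟩
  · have h3 : (-⌊W⌋ : ℝ) ≤ ((x : ℤ) : ℝ) := by exact_mod_cast hx.1
    linarith
  · have h3 : ((x : ℤ) : ℝ) ≤ (⌊W⌋ : ℝ) := by exact_mod_cast hx.2
    linarith

private theorem exc_p_nn (Y : ℝ) (hY : 1 ≤ Y) (a c : ℤ) (ha : |(a : ℝ)| ≤ 3 * Y)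
    (hc : |(c : ℝ)| ≤ 2 * Y ^ 2) : |((nn a c : ℤ) : ℝ)| ≤ 17 * Y ^ 2 := by
  unfold nn
  push_cast
  have h1 : (a : ℝ) ^ 2 ≤ (3 * Y) ^ 2 := by
    rw [← sq_abs (a : ℝ)]
    exact pow_le_pow_left₀ (abs_nonneg _) ha 2
  have h2 := sq_nonneg (a : ℝ)
  obtain ⟨h3, h4⟩ := abs_le.1 hc
  refine abs_le.2 ⟨?_, ?_⟩ <;> nlinarith

private theorem exc_p_one (Y : ℝ) (hY : 1 ≤ Y) (m : ℕ) (hm : 0 < m) :
    (((Box4 Y).filter (fun x => (x.1 ≠ 0 ∧ (m : ℤ) ∣ x.1) ∨ (x.2 ≠ 0 ∧ (m : ℤ) ∣ x.2) ∨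
      (nn x.1 x.2 ≠ 0 ∧ (m : ℤ) ∣ nn x.1 x.2))).card : ℝ) ≤ 296 * Y ^ 3 / m := by
  have hm' : (0 : ℝ) < m := Nat.cast_pos.2 hm
  have hY2 : 1 ≤ Y ^ 2 := one_le_pow₀ hY
  set IA : Finset ℤ := Icc (-⌊3 * Y⌋) ⌊3 * Y⌋ with hIA
  set IC : Finset ℤ := Icc (-⌊2 * Y ^ 2⌋) ⌊2 * Y ^ 2⌋ with hIC
  have hA : (IA.card : ℝ) ≤ 7 * Y := by
    have := exc_p_cardr (3 * Y) (by linarith)
    linarith
  have hC : (IC.card : ℝ) ≤ 5 * Y ^ 2 := by
    have := exc_p_cardr (2 * Y ^ 2) (by linarith)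
    linarith
  have e1 : ((IA.filter (fun a => a ≠ 0 ∧ (m : ℤ) ∣ a)).card : ℝ) ≤ 2 * (3 * Y) / m :=
    mult_card (3 * Y) (by linarith) m hm
  have e2 : ((IC.filter (fun c => c ≠ 0 ∧ (m : ℤ) ∣ c)).card : ℝ) ≤ 2 * (2 * Y ^ 2) / m :=
    mult_card (2 * Y ^ 2) (by linarith) m hm
  have e3 : ∀ a ∈ IA, ((IC.filter (fun c => nn a c ≠ 0 ∧ (m : ℤ) ∣ nn a c)).card : ℝ) ≤
      2 * (17 * Y ^ 2) / m := by
    intro a ha
    have h1 : (IC.filter (fun c => nn a c ≠ 0 ∧ (m : ℤ) ∣ nn a c)).card ≤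
        ((Icc (-⌊17 * Y ^ 2⌋) ⌊17 * Y ^ 2⌋).filter (fun n => n ≠ 0 ∧ (m : ℤ) ∣ n)).card := by
      refine card_le_card_of_injOn (fun c => nn a c) ?_ ?_
      · intro c hc
        have hc' := mem_filter.1 (mem_coe.1 hc)
        rw [mem_coe, mem_filter, mem_Icc]
        have h2 := abs_le.1 (exc_p_nn Y hY a c (exc_p_abs _ _ ha) (exc_p_abs _ _ hc'.1))
        refine ⟨⟨?_, Int.le_floor.2 h2.2⟩, hc'.2⟩
        have h4 : -nn a c ≤ ⌊17 * Y ^ 2⌋ := Int.le_floor.2 (by push_cast; linarith [h2.1])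
        linarith
      · intro c _ c' _ h
        simp only [nn] at h
        linarith
    exact le_trans (by exact_mod_cast h1) (mult_card (17 * Y ^ 2) (by linarith) m hm)
  have hsub : (Box4 Y).filter (fun x => (x.1 ≠ 0 ∧ (m : ℤ) ∣ x.1) ∨ (x.2 ≠ 0 ∧ (m : ℤ) ∣ x.2) ∨
      (nn x.1 x.2 ≠ 0 ∧ (m : ℤ) ∣ nn x.1 x.2)) ⊆
      ((IA.filter (fun a => a ≠ 0 ∧ (m : ℤ) ∣ a)) ×ˢ IC) ∪
        ((IA ×ˢ (IC.filter (fun c => c ≠ 0 ∧ (m : ℤ) ∣ c))) ∪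
          IA.biUnion (fun a => (IC.filter (fun c => nn a c ≠ 0 ∧ (m : ℤ) ∣ nn a c)).image
            (fun c => (a, c)))) := by
    intro x hx
    rw [mem_filter] at hx
    obtain ⟨hxB, hd⟩ := hx
    unfold Box4 at hxB
    rw [mem_product] at hxB
    rw [mem_union, mem_union]
    rcases hd with h | h | h
    · left
      rw [mem_product, mem_filter]
      exact ⟨⟨hxB.1, h⟩, hxB.2⟩
    · right; left
      rw [mem_product, mem_filter]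
      exact ⟨hxB.1, hxB.2, h⟩
    · right; right
      rw [mem_biUnion]
      refine ⟨x.1, hxB.1, ?_⟩
      rw [mem_image]
      refine ⟨x.2, ?_, rfl⟩
      rw [mem_filter]
      exact ⟨hxB.2, h⟩
  have h1 : (((Box4 Y).filter (fun x => (x.1 ≠ 0 ∧ (m : ℤ) ∣ x.1) ∨ (x.2 ≠ 0 ∧ (m : ℤ) ∣ x.2) ∨
      (nn x.1 x.2 ≠ 0 ∧ (m : ℤ) ∣ nn x.1 x.2))).card : ℝ) ≤
      ((IA.filter (fun a => a ≠ 0 ∧ (m : ℤ) ∣ a)).card : ℝ) * IC.card +
      ((IA.card : ℝ) * ((IC.filter (fun c => c ≠ 0 ∧ (m : ℤ) ∣ c)).card : ℝ) +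
      ∑ a ∈ IA, ((IC.filter (fun c => nn a c ≠ 0 ∧ (m : ℤ) ∣ nn a c)).card : ℝ)) := by
    have h2 := (card_le_card hsub).trans ((card_union_le _ _).trans
      (Nat.add_le_add_left (card_union_le _ _) _))
    rw [card_product, card_product] at h2
    have h3 : (IA.biUnion (fun a => (IC.filter (fun c => nn a c ≠ 0 ∧ (m : ℤ) ∣ nn a c)).image
        (fun c => (a, c)))).card ≤
        ∑ a ∈ IA, (IC.filter (fun c => nn a c ≠ 0 ∧ (m : ℤ) ∣ nn a c)).card :=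
      card_biUnion_le.trans (sum_le_sum fun a _ => card_image_le)
    have h4 := h2.trans (Nat.add_le_add_left (Nat.add_le_add_left h3 _) _)
    exact_mod_cast h4
  refine h1.trans ?_
  have h5 : ∑ a ∈ IA, ((IC.filter (fun c => nn a c ≠ 0 ∧ (m : ℤ) ∣ nn a c)).card : ℝ) ≤
      (7 * Y) * (2 * (17 * Y ^ 2) / m) := by
    calc ∑ a ∈ IA, ((IC.filter (fun c => nn a c ≠ 0 ∧ (m : ℤ) ∣ nn a c)).card : ℝ)
        ≤ ∑ _a ∈ IA, (2 * (17 * Y ^ 2) / (m : ℝ)) := sum_le_sum e3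
      _ = (IA.card : ℝ) * (2 * (17 * Y ^ 2) / m) := by rw [sum_const, nsmul_eq_mul]
      _ ≤ (7 * Y) * (2 * (17 * Y ^ 2) / m) := mul_le_mul_of_nonneg_right hA (by positivity)
  have h6 : ((IA.filter (fun a => a ≠ 0 ∧ (m : ℤ) ∣ a)).card : ℝ) * IC.card ≤
      (2 * (3 * Y) / m) * (5 * Y ^ 2) :=
    mul_le_mul e1 hC (Nat.cast_nonneg _) (by positivity)
  have h7 : (IA.card : ℝ) * ((IC.filter (fun c => c ≠ 0 ∧ (m : ℤ) ∣ c)).card : ℝ) ≤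
      (7 * Y) * (2 * (2 * Y ^ 2) / m) :=
    mul_le_mul hA e2 (Nat.cast_nonneg _) (by linarith)
  have h8 : 296 * Y ^ 3 / (m : ℝ) = (2 * (3 * Y) / m) * (5 * Y ^ 2) +
      ((7 * Y) * (2 * (2 * Y ^ 2) / m) + (7 * Y) * (2 * (17 * Y ^ 2) / m)) := by
    ring
  rw [h8]
  exact add_le_add h6 (add_le_add h7 h5)

/-- C4. The same for one prime power `p^j ≥ 2^j`. -/
theorem exc_p (Y : ℝ) (hY : 1 ≤ Y) (p j : ℕ) (hp : p.Prime) :
    (((Box4 Y).filter (fun x => (x.1 ≠ 0 ∧ (p : ℤ) ^ j ∣ x.1) ∨ (x.2 ≠ 0 ∧ (p : ℤ) ^ j ∣ x.2) ∨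
      (nn x.1 x.2 ≠ 0 ∧ (p : ℤ) ^ j ∣ nn x.1 x.2))).card : ℝ) ≤ 296 * Y ^ 3 / 2 ^ j := by
  have h := exc_p_one Y hY (p ^ j) (pow_pos hp.pos j)
  push_cast at h
  refine h.trans ?_
  refine div_le_div_of_nonneg_left (by positivity) (by positivity) ?_
  exact pow_le_pow_left₀ (by norm_num) (by exact_mod_cast hp.two_le) j
-- END exc_p

-- BEGIN exc_total
private theorem exc_total_rows (Y : ℝ) (hY : 0 ≤ Y) :
    ((Icc (-⌊Y⌋) ⌊Y⌋).card : ℝ) ≤ 2 * Y + 1 := by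
  have h1 : 0 ≤ ⌊Y⌋ := Int.floor_nonneg.2 hY
  have h2 : (⌊Y⌋ : ℝ) ≤ Y := Int.floor_le Y
  rw [Int.card_Icc]
  have h3 : (((⌊Y⌋ + 1 - (-⌊Y⌋)).toNat : ℕ) : ℝ) = 2 * (⌊Y⌋ : ℝ) + 1 := by
    have h4 : (((⌊Y⌋ + 1 - (-⌊Y⌋)).toNat : ℕ) : ℤ) = ⌊Y⌋ + 1 - (-⌊Y⌋) := Int.toNat_of_nonneg (by omega)
    have h5 : (((⌊Y⌋ + 1 - (-⌊Y⌋)).toNat : ℕ) : ℝ) = ((((⌊Y⌋ + 1 - (-⌊Y⌋)).toNat : ℕ) : ℤ) : ℝ) := by
      push_cast
      rfl
    rw [h5, h4]
    push_cast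
    ring
  rw [h3]
  linarith

private theorem exc_total_zero (Y : ℝ) (hY : 1 ≤ Y) (g : ℤ → ℤ → ℤ)
    (hg : ∀ a c c' : ℤ, g a c = 0 → g a c' = 0 → c = c') :
    (((Box4 Y).filter (fun x => g x.1 x.2 = 0)).card : ℝ) ≤ 7 * Y := by
  have h0 := exc_total_rows (3 * Y) (by linarith)
  have h1 : ((Box4 Y).filter (fun x => g x.1 x.2 = 0)).card ≤ (Icc (-⌊3 * Y⌋) ⌊3 * Y⌋).card := by
    refine Finset.card_le_card_of_injOn (fun x => x.1) ?_ ?_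
    · intro x hx
      have hx' := (Finset.mem_filter.1 (Finset.mem_coe.1 hx)).1
      unfold Box4 at hx'
      exact Finset.mem_coe.2 (Finset.mem_product.1 hx').1
    · intro x hx x' hx' h
      have h2 := (Finset.mem_filter.1 (Finset.mem_coe.1 hx)).2
      have h3 := (Finset.mem_filter.1 (Finset.mem_coe.1 hx')).2
      have h4 : x.1 = x'.1 := h
      rw [← h4] at h3
      exact Prod.ext h4 (hg x.1 x.2 x'.2 h2 h3)
  have h2 : (((Box4 Y).filter (fun x => g x.1 x.2 = 0)).card : ℝ) ≤ ((Icc (-⌊3 * Y⌋) ⌊3 * Y⌋).card : ℝ) := by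
    exact_mod_cast h1
  linarith

private theorem exc_total_a (Y : ℝ) (hY : 1 ≤ Y) :
    (((Box4 Y).filter (fun x => x.1 = 0)).card : ℝ) ≤ 5 * Y ^ 2 := by
  have hY2 : (1 : ℝ) ≤ Y ^ 2 := by nlinarith
  have h0 := exc_total_rows (2 * Y ^ 2) (by linarith)
  have h1 : ((Box4 Y).filter (fun x => x.1 = 0)).card ≤ (Icc (-⌊2 * Y ^ 2⌋) ⌊2 * Y ^ 2⌋).card := by
    refine Finset.card_le_card_of_injOn (fun x => x.2) ?_ ?_
    · intro x hx
      have hx' := (Finset.mem_filter.1 (Finset.mem_coe.1 hx)).1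
      unfold Box4 at hx'
      exact Finset.mem_coe.2 (Finset.mem_product.1 hx').2
    · intro x hx x' hx' h
      have h2 := (Finset.mem_filter.1 (Finset.mem_coe.1 hx)).2
      have h3 := (Finset.mem_filter.1 (Finset.mem_coe.1 hx')).2
      exact Prod.ext (by rw [h2, h3]) h
  have h2 : (((Box4 Y).filter (fun x => x.1 = 0)).card : ℝ) ≤ ((Icc (-⌊2 * Y ^ 2⌋) ⌊2 * Y ^ 2⌋).card : ℝ) := by
    exact_mod_cast h1
  linarith

/-- C5. `a = 0`: at most `5Y²`, `c = 0`, `n = 0`: at most `7Y` each; `exc_a`, `exc_b`, `exc_p` for the at most `T` primes `p ≤ T`. Copy of `Rnt.exc_total`. -/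
theorem exc_total (Y : ℝ) (hY : 1 ≤ Y) (T j : ℕ) (hT : 1 ≤ T) :
    (((Box4 Y).filter (fun x => Exc4 T j x.1 x.2)).card : ℝ) ≤ (320 / T + 296 * T / 2 ^ j) * Y ^ 3 + 20 * Y ^ 2 := by
  set S1 := (Box4 Y).filter (fun x => x.1 = 0) with hS1
  set S2 := (Box4 Y).filter (fun x => (fun _ c : ℤ => c) x.1 x.2 = 0) with hS2
  set S3 := (Box4 Y).filter (fun x => nn x.1 x.2 = 0) with hS3
  set Sa := (Box4 Y).filter (fun x => x.1 ≠ 0 ∧ x.2 ≠ 0 ∧ ∃ p : ℕ, p.Prime ∧ T < p ∧ (p : ℤ) ∣ x.1 ∧ (p : ℤ) ∣ x.2)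
    with hSa
  set Sb := (Box4 Y).filter (fun x => ∃ p : ℕ, p.Prime ∧ T < p ∧ ((x.1 ≠ 0 ∧ (p : ℤ) ^ 2 ∣ x.1) ∨
      (x.2 ≠ 0 ∧ (p : ℤ) ^ 2 ∣ x.2) ∨ (nn x.1 x.2 ≠ 0 ∧ (p : ℤ) ^ 2 ∣ nn x.1 x.2)))
    with hSb
  set Sd : ℕ → Finset (ℤ × ℤ) := fun p => (Box4 Y).filter (fun x => (x.1 ≠ 0 ∧ (p : ℤ) ^ j ∣ x.1) ∨
      (x.2 ≠ 0 ∧ (p : ℤ) ^ j ∣ x.2) ∨ (nn x.1 x.2 ≠ 0 ∧ (p : ℤ) ^ j ∣ nn x.1 x.2)) with hSd
  set Q := (range (T + 1)).filter Nat.Prime with hQ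
  have hsub : (Box4 Y).filter (fun x => Exc4 T j x.1 x.2) ⊆
      S1 ∪ (S2 ∪ (S3 ∪ (Sa ∪ (Sb ∪ Q.biUnion Sd)))) := by
    intro x hx
    obtain ⟨hxB, hxE⟩ := Finset.mem_filter.1 hx
    simp only [Finset.mem_union, Finset.mem_biUnion]
    by_cases h0 : x.1 = 0
    · exact Or.inl (Finset.mem_filter.2 ⟨hxB, h0⟩)
    right
    by_cases hb0 : x.2 = 0
    · exact Or.inl (Finset.mem_filter.2 ⟨hxB, hb0⟩)
    right
    by_cases hc0 : nn x.1 x.2 = 0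
    · exact Or.inl (Finset.mem_filter.2 ⟨hxB, hc0⟩)
    right
    unfold Exc4 at hxE
    rcases hxE with h | h | h | ⟨p, hp, hpT, h | h | h | h⟩ | ⟨p, hp, hpT, h⟩
    · exact absurd h h0
    · exact absurd h hb0
    · exact absurd h hc0
    · exact Or.inl (Finset.mem_filter.2 ⟨hxB, h0, hb0, p, hp, hpT, h.1, h.2⟩)
    · exact Or.inr (Or.inl (Finset.mem_filter.2 ⟨hxB, p, hp, hpT, Or.inl ⟨h0, h⟩⟩))
    · exact Or.inr (Or.inl (Finset.mem_filter.2 ⟨hxB, p, hp, hpT, Or.inr (Or.inl ⟨hb0, h⟩)⟩))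
    · exact Or.inr (Or.inl (Finset.mem_filter.2 ⟨hxB, p, hp, hpT, Or.inr (Or.inr ⟨hc0, h⟩)⟩))
    · refine Or.inr (Or.inr ⟨p, Finset.mem_filter.2 ⟨Finset.mem_range.2 (by omega), hp⟩, ?_⟩)
      refine Finset.mem_filter.2 ⟨hxB, ?_⟩
      rcases h with h | h | h
      · exact Or.inl ⟨h0, h⟩
      · exact Or.inr (Or.inl ⟨hb0, h⟩)
      · exact Or.inr (Or.inr ⟨hc0, h⟩)
  have h1 : (S1.card : ℝ) ≤ 5 * Y ^ 2 := exc_total_a Y hY
  have h2 : (S2.card : ℝ) ≤ 7 * Y := exc_total_zero Y hY (fun _ c : ℤ => c) (by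
    intro a c c' hc hc'
    exact hc.trans hc'.symm)
  have h3 : (S3.card : ℝ) ≤ 7 * Y := exc_total_zero Y hY nn (by
    intro a c c' hc hc'
    unfold nn at hc hc'
    omega)
  have ha : (Sa.card : ℝ) ≤ 24 * Y ^ 3 / T := exc_a Y hY T hT
  have hb : (Sb.card : ℝ) ≤ 296 * Y ^ 3 / T := exc_b Y hY T hT
  have hQc : (Q.card : ℝ) ≤ T := by
    have h4 : Q ⊆ Finset.Icc 1 T := by
      intro p hp
      obtain ⟨h5, h6⟩ := Finset.mem_filter.1 hp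
      rw [Finset.mem_range] at h5
      exact Finset.mem_Icc.2 ⟨h6.one_lt.le, by omega⟩
    have h5 := Finset.card_le_card h4
    rw [Nat.card_Icc, Nat.add_sub_cancel] at h5
    exact_mod_cast h5
  have hd : ((Q.biUnion Sd).card : ℝ) ≤ T * (296 * Y ^ 3 / 2 ^ j) := by
    have h4 : ((Q.biUnion Sd).card : ℝ) ≤ ∑ p ∈ Q, ((Sd p).card : ℝ) := by
      exact_mod_cast Finset.card_biUnion_le
    have h5 : ∑ p ∈ Q, ((Sd p).card : ℝ) ≤ ∑ p ∈ Q, (296 * Y ^ 3 / 2 ^ j) :=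
      Finset.sum_le_sum (fun p hp => exc_p Y hY p j (Finset.mem_filter.1 hp).2)
    rw [Finset.sum_const, nsmul_eq_mul] at h5
    have h6 : (0 : ℝ) ≤ 296 * Y ^ 3 / 2 ^ j := by positivity
    have h7 := mul_le_mul_of_nonneg_right hQc h6
    linarith
  have hu : (((Box4 Y).filter (fun x => Exc4 T j x.1 x.2)).card : ℝ) ≤
      S1.card + (S2.card + (S3.card + (Sa.card + (Sb.card + (Q.biUnion Sd).card)))) := by
    have h4 := Finset.card_le_card hsub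
    have h5 := Finset.card_union_le S1 (S2 ∪ (S3 ∪ (Sa ∪ (Sb ∪ Q.biUnion Sd))))
    have h6 := Finset.card_union_le S2 (S3 ∪ (Sa ∪ (Sb ∪ Q.biUnion Sd)))
    have h7 := Finset.card_union_le S3 (Sa ∪ (Sb ∪ Q.biUnion Sd))
    have h8 := Finset.card_union_le Sa (Sb ∪ Q.biUnion Sd)
    have h9 := Finset.card_union_le Sb (Q.biUnion Sd)
    have h11 : ((Box4 Y).filter (fun x => Exc4 T j x.1 x.2)).card ≤
        S1.card + (S2.card + (S3.card + (Sa.card + (Sb.card + (Q.biUnion Sd).card)))) := by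
      omega
    exact_mod_cast h11
  have hYY : Y ≤ Y ^ 2 := by nlinarith
  have hT0 : (0 : ℝ) < T := by
    have : 0 < T := by omega
    exact_mod_cast this
  have e1 : (320 / (T : ℝ) + 296 * T / 2 ^ j) * Y ^ 3 + 20 * Y ^ 2 =
      24 * Y ^ 3 / T + 296 * Y ^ 3 / T + T * (296 * Y ^ 3 / 2 ^ j) + 20 * Y ^ 2 := by
    field_simp
    ring
  rw [e1]
  have hY2 : (1 : ℝ) ≤ Y ^ 2 := by nlinarith
  linarith
-- END exc_total

-- BEGIN low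
/-- C6. `1 ≤ a ≤ Y/2`, `a = 1` mod `3`, `1 ≤ c ≤ Y²/8`, `c = 5` mod `6` are admissible (`a² = 1`, `2c = 1` mod `3`) and in `Reg4 Y` (`|r| ≤ Y²/12`, `|A| ≤ 0.021 Y⁴`, `|B| ≤ 0.003 Y⁶`): about `Y³/288` pairs. `n = 0`: at most `Y/2`. Not minimal (`min_iff`): `p² ∣ c`, `p ∣ a` (`a² = 3r + 2c`), `p ≥ 5` (`2, 3 ∤ c`): at
most `∑_{n≥5} (Y/(2n)) (Y²/(8n²)) ≤ Y³/320` (`1/n³ ≤ 1/(5n²)`, `inv_sq` with `T = 4`). `1/288 - 1/320 = 1/2880`. -/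
theorem low : ∃ Y₀ : ℝ, ∀ Y : ℝ, Y₀ ≤ Y → Y ^ 3 / 4000 ≤ ((PR4 Y).card : ℝ) := by
  refine ⟨1000, fun Y hY => ?_⟩
  have hY0 : (0 : ℝ) ≤ Y := by linarith
  set I : ℕ := ⌊Y / 6⌋₊ with hI
  set J : ℕ := ⌊Y ^ 2 / 48⌋₊ with hJ
  set A1 : ℕ := ⌊Y / 2⌋₊ with hA1
  set C1 : ℕ := ⌊Y ^ 2 / 8⌋₊ with hC1
  have hI1 : (I : ℝ) ≤ Y / 6 := Nat.floor_le (by positivity)
  have hI2 : Y / 6 < I + 1 := Nat.lt_floor_add_one _
  have hJ1 : (J : ℝ) ≤ Y ^ 2 / 48 := Nat.floor_le (by positivity)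
  have hJ2 : Y ^ 2 / 48 < J + 1 := Nat.lt_floor_add_one _
  have hA1' : (A1 : ℝ) ≤ Y / 2 := Nat.floor_le (by positivity)
  have hC1' : (C1 : ℝ) ≤ Y ^ 2 / 8 := Nat.floor_le (by positivity)
  set S : Finset (ℕ × ℕ) := (range I ×ˢ range J).image (fun x => (3 * x.1 + 1, 6 * x.2 + 5)) with hS
  have hScard : S.card = I * J := by
    rw [hS, Finset.card_image_of_injective, card_product, card_range, card_range]
    intro x y hxy
    simp only [Prod.mk.injEq] at hxy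
    exact Prod.ext (by omega) (by omega)
  have hSmem : ∀ a c : ℕ, (a, c) ∈ S → (a % 3 = 1 ∧ c % 6 = 5) ∧ (a : ℝ) ≤ Y / 2 ∧ (c : ℝ) ≤ Y ^ 2 / 8 := by
    intro a c h
    obtain ⟨⟨i, j⟩, h1, h2⟩ := mem_image.1 h
    obtain ⟨h3, h4⟩ := mem_product.1 h1
    simp only [mem_range, Prod.mk.injEq] at h2 h3 h4
    obtain ⟨rfl, rfl⟩ := h2
    have h5 : (i : ℝ) + 1 ≤ I := by exact_mod_cast h3
    have h6 : (j : ℝ) + 1 ≤ J := by exact_mod_cast h4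
    refine ⟨⟨by omega, by omega⟩, ?_, ?_⟩
    · push_cast; linarith
    · push_cast; linarith
  set Bd : Finset (ℕ × ℕ) := S.filter (fun x => ∃ n : ℕ, 4 < n ∧ n ∣ x.1 ∧ n ^ 2 ∣ x.2) with hBd
  have hbad : (Bd.card : ℝ) ≤ Y ^ 3 / 320 := by
    have hsub : Bd ⊆ (Ioc 4 A1).biUnion (fun n => ((Ioc 0 A1).filter (fun a => n ∣ a)) ×ˢ ((Ioc 0 C1).filter (fun c => n ^ 2 ∣ c))) := by
      rintro ⟨a, c⟩ hx
      obtain ⟨h1, n, h2, h3, h4⟩ := mem_filter.1 hx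
      simp only at h3 h4
      obtain ⟨⟨h5, h6⟩, h7, h8⟩ := hSmem a c h1
      have ha : a ≤ A1 := Nat.le_floor h7
      have hc : c ≤ C1 := Nat.le_floor h8
      have h9 : n ≤ a := Nat.le_of_dvd (by omega) h3
      refine mem_biUnion.2 ⟨n, mem_Ioc.2 ⟨h2, by omega⟩, mem_product.2 ⟨mem_filter.2 ⟨mem_Ioc.2 ⟨?_, ha⟩, h3⟩, mem_filter.2 ⟨mem_Ioc.2 ⟨?_, hc⟩, h4⟩⟩⟩
      · show 0 < a
        omega
      · show 0 < c
        omega
    have h1 : Bd.card ≤ ∑ n ∈ Ioc 4 A1, (A1 / n) * (C1 / n ^ 2) := by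
      refine (card_le_card hsub).trans (card_biUnion_le.trans (sum_le_sum fun n _ => ?_))
      rw [card_product, Nat.Ioc_filter_dvd_card_eq_div, Nat.Ioc_filter_dvd_card_eq_div]
    have h2 : ((∑ n ∈ Ioc 4 A1, (A1 / n) * (C1 / n ^ 2) : ℕ) : ℝ) ≤ ((A1 : ℝ) * C1 / 5) * (1 / ((4 : ℕ) : ℝ)) := by
      rw [Nat.cast_sum]
      refine le_trans ?_ (mul_le_mul_of_nonneg_left (inv_sq 4 A1 (by norm_num)) (by positivity))
      rw [mul_sum]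
      refine sum_le_sum (fun n hn => ?_)
      have hn5 : 4 < n := (mem_Ioc.1 hn).1
      have hnR : (5 : ℝ) ≤ n := by exact_mod_cast hn5
      rw [Nat.cast_mul]
      have e1 : ((A1 / n : ℕ) : ℝ) ≤ A1 / n := Nat.cast_div_le
      have e2 : ((C1 / n ^ 2 : ℕ) : ℝ) ≤ C1 / (n : ℝ) ^ 2 := by
        have := Nat.cast_div_le (α := ℝ) (m := C1) (n := n ^ 2)
        rwa [Nat.cast_pow] at this
      refine (mul_le_mul e1 e2 (Nat.cast_nonneg _) (by positivity)).trans ?_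
      have e3 : (A1 : ℝ) / n ≤ A1 / 5 := div_le_div_of_nonneg_left (by positivity) (by norm_num) hnR
      calc (A1 : ℝ) / n * (C1 / (n : ℝ) ^ 2) ≤ A1 / 5 * (C1 / (n : ℝ) ^ 2) :=
            mul_le_mul_of_nonneg_right e3 (by positivity)
        _ = (A1 : ℝ) * C1 / 5 * (1 / (n : ℝ) ^ 2) := by ring
    have h3 : (Bd.card : ℝ) ≤ ((∑ n ∈ Ioc 4 A1, (A1 / n) * (C1 / n ^ 2) : ℕ) : ℝ) := by exact_mod_cast h1
    have h4 : (A1 : ℝ) * C1 ≤ (Y / 2) * (Y ^ 2 / 8) := mul_le_mul hA1' hC1' (by positivity) (by positivity)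
    refine (h3.trans h2).trans ?_
    have h5 : (A1 : ℝ) * C1 / 5 * (1 / ((4 : ℕ) : ℝ)) = (A1 : ℝ) * C1 / 20 := by
      push_cast; ring
    rw [h5]
    have h6 : (Y / 2) * (Y ^ 2 / 8) = Y ^ 3 / 16 := by ring
    linarith
  have hinj : Function.Injective (fun x : ℕ × ℕ => ((x.1 : ℤ), (x.2 : ℤ))) := by
    intro x y hxy
    have h1 := congrArg Prod.fst hxy
    have h2 := congrArg Prod.snd hxy
    simp only [Nat.cast_inj] at h1 h2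
    exact Prod.ext h1 h2
  have hsub : (S \ Bd).image (fun x : ℕ × ℕ => ((x.1 : ℤ), (x.2 : ℤ))) ⊆ PR4 Y := by
    intro y hy
    obtain ⟨⟨a, c⟩, hx, rfl⟩ := Finset.mem_image.1 hy
    obtain ⟨hx1, hx2⟩ := mem_sdiff.1 hx
    obtain ⟨⟨h5, h6⟩, h7, h8⟩ := hSmem a c hx1
    simp only
    have ha3 : (a : ℤ) % 3 = 1 := by omega
    have hc6 : (c : ℤ) % 6 = 5 := by omega
    obtain ⟨u, hu⟩ : ∃ u : ℤ, (a : ℤ) = 3 * u + 1 := ⟨(a : ℤ) / 3, by omega⟩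
    obtain ⟨v, hv⟩ : ∃ v : ℤ, (c : ℤ) = 6 * v + 5 := ⟨(c : ℤ) / 6, by omega⟩
    have hG : Gd (a : ℤ) (c : ℤ) := by
      unfold Gd
      rw [hu, hv]
      exact ⟨3 * u ^ 2 + 2 * u - 4 * v - 3, by ring⟩
    have h3r := three_rr _ _ hG
    have ha0 : (0 : ℝ) ≤ a := Nat.cast_nonneg a
    have hc0 : (0 : ℝ) ≤ c := Nat.cast_nonneg c
    have haa : (a : ℝ) ^ 2 ≤ (Y / 2) ^ 2 := pow_le_pow_left₀ ha0 h7 2
    have hcc : (c : ℝ) ^ 2 ≤ (Y ^ 2 / 8) ^ 2 := pow_le_pow_left₀ hc0 h8 2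
    have h3R : 3 * ((rr (a : ℤ) (c : ℤ) : ℤ) : ℝ) = (a : ℝ) ^ 2 - 2 * c := by exact_mod_cast h3r
    set r : ℤ := rr (a : ℤ) (c : ℤ) with hr
    have hrabs : |(r : ℝ)| ≤ Y ^ 2 / 12 := by
      rw [abs_le]
      constructor
      · nlinarith [sq_nonneg (a : ℝ)]
      · nlinarith
    have hr2 : (r : ℝ) ^ 2 ≤ (Y ^ 2 / 12) ^ 2 := by
      rw [← sq_abs]
      exact pow_le_pow_left₀ (abs_nonneg _) hrabs 2
    have hY4 : (0 : ℝ) ≤ Y ^ 4 := by positivity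
    have hY6 : (0 : ℝ) ≤ Y ^ 6 := by positivity
    have hY12 : (0 : ℝ) ≤ Y ^ 12 := by positivity
    have e1 : (Y ^ 2 / 12) ^ 2 = Y ^ 4 / 144 := by ring
    have e2 : (Y ^ 2 / 8) ^ 2 = Y ^ 4 / 64 := by ring
    rw [e1] at hr2
    rw [e2] at hcc
    rw [PR4, Finset.mem_filter]
    refine ⟨(mem_Reg4 Y hY0 _ _).2 ⟨hG, ?_, ?_⟩, ?_, ?_⟩
    · have h1 : ((Af (a : ℤ) (c : ℤ) : ℤ) : ℝ) = (c : ℝ) ^ 2 - 3 * (r : ℝ) ^ 2 := by
        unfold Af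
        push_cast
        rfl
      have h2 : |((Af (a : ℤ) (c : ℤ) : ℤ) : ℝ)| ≤ Y ^ 4 / 2 := by
        rw [h1, abs_le]
        have h3 : (0 : ℝ) ≤ (r : ℝ) ^ 2 := by positivity
        have h4 : (0 : ℝ) ≤ (c : ℝ) ^ 2 := by positivity
        constructor
        · linarith
        · linarith
      have h3 : |((Af (a : ℤ) (c : ℤ) : ℤ) : ℝ)| ^ 3 ≤ (Y ^ 4 / 2) ^ 3 :=
        pow_le_pow_left₀ (abs_nonneg _) h2 3
      calc 4 * |((Af (a : ℤ) (c : ℤ) : ℤ) : ℝ)| ^ 3 ≤ 4 * (Y ^ 4 / 2) ^ 3 := by linarith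
        _ = Y ^ 12 / 2 := by ring
        _ ≤ Y ^ 12 := by linarith
    · have h1 : ((Bf (a : ℤ) (c : ℤ) : ℤ) : ℝ) = (r : ℝ) * (2 * (r : ℝ) ^ 2 - (c : ℝ) ^ 2) := by
        unfold Bf
        push_cast
        rw [← hr]
        ring
      have h2 : |((Bf (a : ℤ) (c : ℤ) : ℤ) : ℝ)| ≤ Y ^ 6 / 12 := by
        rw [h1, abs_mul]
        have h3 : (0 : ℝ) ≤ (r : ℝ) ^ 2 := by positivity
        have h4 : (0 : ℝ) ≤ (c : ℝ) ^ 2 := by positivity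
        have h5 : |2 * (r : ℝ) ^ 2 - (c : ℝ) ^ 2| ≤ Y ^ 4 := by
          rw [abs_le]
          constructor
          · linarith
          · linarith
        calc |(r : ℝ)| * |2 * (r : ℝ) ^ 2 - (c : ℝ) ^ 2| ≤ (Y ^ 2 / 12) * Y ^ 4 :=
              mul_le_mul hrabs h5 (abs_nonneg _) (by positivity)
          _ = Y ^ 6 / 12 := by ring
      have h3 : ((Bf (a : ℤ) (c : ℤ) : ℤ) : ℝ) ^ 2 ≤ (Y ^ 6 / 12) ^ 2 := by
        rw [← sq_abs]
        exact pow_le_pow_left₀ (abs_nonneg _) h2 2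
      calc 27 * ((Bf (a : ℤ) (c : ℤ) : ℤ) : ℝ) ^ 2 ≤ 27 * (Y ^ 6 / 12) ^ 2 := by linarith
        _ = 3 / 16 * Y ^ 12 := by ring
        _ ≤ Y ^ 12 := by linarith
    · rw [min_iff]
      intro p hp h1
      apply hx2
      have h2 : ((p ^ 2 : ℕ) : ℤ) ∣ (c : ℤ) := by
        rw [Nat.cast_pow]
        exact h1.1
      have h3 : p ^ 2 ∣ c := Int.natCast_dvd_natCast.1 h2
      have h4 : (p : ℤ) ^ 2 ∣ (a : ℤ) ^ 2 := by
        have h41 : (a : ℤ) ^ 2 = 3 * r + 2 * c := by linarith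
        rw [h41]
        exact dvd_add (Dvd.dvd.mul_left h1.2 3) (Dvd.dvd.mul_left h1.1 2)
      have h5' : (p : ℤ) ∣ (a : ℤ) := (Int.pow_dvd_pow_iff (by norm_num)).1 h4
      have h6' : p ∣ a := Int.natCast_dvd_natCast.1 h5'
      have h7' : p ∣ c := (dvd_pow_self p (by norm_num)).trans h3
      refine mem_filter.2 ⟨hx1, p, ?_, h6', h3⟩
      by_contra hlt
      have hp2 := hp.two_le
      have hcases : p = 2 ∨ p = 3 ∨ p = 4 := by omega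
      rcases hcases with rfl | rfl | rfl
      · obtain ⟨k, hk⟩ := h7'
        omega
      · obtain ⟨k, hk⟩ := h7'
        omega
      · exact absurd hp (by norm_num)
    · rw [disc_eq _ _ hG]
      have h1 : (a : ℤ) ≠ 0 := by
        intro h
        rw [h] at ha3
        norm_num at ha3
      have h1' : (c : ℤ) ≠ 0 := by
        intro h
        rw [h] at hc6
        norm_num at hc6
      have h2 : nn (a : ℤ) (c : ℤ) ≠ 0 := by
        intro h3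
        unfold nn at h3
        rw [hu, hv] at h3
        have h4 : 3 * (3 * u ^ 2 + 2 * u - 8 * v - 7) = -2 + 0 * u := by linarith [h3]
        omega
      exact neg_ne_zero.2 (mul_ne_zero (mul_ne_zero (pow_ne_zero 4 h1') (pow_ne_zero 2 h1)) h2)
  have hcard := Finset.card_le_card hsub
  rw [Finset.card_image_of_injective _ hinj] at hcard
  have h1 : S.card ≤ (S \ Bd).card + Bd.card := by
    have := card_sdiff_add_card (s := S) (t := Bd)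
    have h2 : S.card ≤ (S ∪ Bd).card := card_le_card subset_union_left
    omega
  have h2 : (S.card : ℝ) ≤ ((PR4 Y).card : ℝ) + Bd.card := by
    have : S.card ≤ (PR4 Y).card + Bd.card := by omega
    exact_mod_cast this
  rw [hScard] at h2
  push_cast at h2
  have h3 : (Y / 6 - 1) * (Y ^ 2 / 48 - 1) ≤ (I : ℝ) * J := by
    refine mul_le_mul (by linarith) (by linarith) ?_ (Nat.cast_nonneg _)
    nlinarith
  have h4 : (Y / 6 - 1) * (Y ^ 2 / 48 - 1) = Y ^ 3 / 288 - Y ^ 2 / 48 - Y / 6 + 1 := by ring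
  have h5 : 0 ≤ (Y - 1000) * Y ^ 2 := mul_nonneg (by linarith) (by positivity)
  have h6 : (Y - 1000) * Y ^ 2 = Y ^ 3 - 1000 * Y ^ 2 := by ring
  have h7 : 1000 * Y ≤ Y ^ 2 := by nlinarith
  rw [h4] at h3
  rw [h6] at h5
  linarith
-- END low

-- BEGIN tang
/-- C7. Rational numbers only. `x ≠ r` (`y ≠ 0`); `m = (3x² + A)/(2y) = y/(x - r)`. `(X - r)(X² + rX + r² + A) - m²(X - r)² = (X - x)²(X - r)`: compare coefficients: `m² = r + 2x`, `A + 3r² = (x - r)²`. With `c = x - r`, `a = m`: `a² = 3r + 2c`, `A = c² - 3r²`, `B = -r³ - Ar`. -/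
theorem tang (A B x y r : ℚ) (h1 : y ^ 2 = x ^ 3 + A * x + B) (h2 : y ≠ 0) (h3 : r ^ 3 + A * r + B = 0)
    (h4 : 2 * y ^ 2 = (3 * x ^ 2 + A) * (x - r)) :
    ∃ a c : ℚ, c = x - r ∧ y = a * c ∧ a ^ 2 = 3 * r + 2 * c ∧ A + 3 * r ^ 2 = c ^ 2 := by
  have h5 : y ^ 2 = (x - r) * (x ^ 2 + x * r + r ^ 2 + A) := by
    have : B = -(r ^ 3 + A * r) := by linarith
    rw [h1, this]; ring
  have h6 : x - r ≠ 0 := by
    intro h
    rw [h, zero_mul] at h5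
    exact h2 (pow_eq_zero_iff (by norm_num) |>.1 h5)
  have h7 : 2 * (x ^ 2 + x * r + r ^ 2 + A) = 3 * x ^ 2 + A := by
    have : (x - r) * (2 * (x ^ 2 + x * r + r ^ 2 + A)) = (x - r) * (3 * x ^ 2 + A) := by
      linear_combination h4 - 2 * h5
    exact mul_left_cancel₀ h6 this
  have h8 : A + 3 * r ^ 2 = (x - r) ^ 2 := by linear_combination h7
  refine ⟨y / (x - r), x - r, rfl, by field_simp, ?_, h8⟩
  rw [div_pow, div_eq_iff (pow_ne_zero 2 h6)]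
  have hA : A = (x - r) ^ 2 - 3 * r ^ 2 := by linarith
  rw [h5, hA]
  ring
-- END tang

-- BEGIN exist
private theorem exist_int (q : ℚ) (k : ℤ) (h : q ^ 2 = k) : ∃ n : ℤ, (n : ℚ) = q := by
  have h1 : IsIntegral ℤ (q ^ 2) := by
    rw [h]
    exact isIntegral_algebraMap (R := ℤ) (A := ℚ) (x := k)
  have h2 : IsIntegral ℤ q := IsIntegral.of_pow (by norm_num) h1
  obtain ⟨n, hn⟩ := IsIntegrallyClosed.isIntegral_iff.1 h2
  exact ⟨n, hn⟩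

/-- C8. `Rnt.root_int`: `r` is an integer; `c² = A + 3r²` and `a² = 3r + 2c` are integers, so `c` and `a` are; `a² - 2c = 3r`. -/
theorem exist (A B : ℤ) (x y r : ℚ) (h1 : y ^ 2 = x ^ 3 + A * x + B) (h2 : y ≠ 0) (h3 : r ^ 3 + A * r + B = 0)
    (h4 : 2 * y ^ 2 = (3 * x ^ 2 + A) * (x - r)) : ∃ a c : ℤ, Gd a c ∧ A = Af a c ∧ B = Bf a c := by
  obtain ⟨a, c, hc, hy, ha2, hc2⟩ := tang A B x y r h1 h2 h3 h4
  obtain ⟨r', hr', -⟩ := root_int A B r h3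
  subst hr'
  obtain ⟨c', hc'⟩ := exist_int c (A + 3 * r' ^ 2) (by rw [← hc2]; push_cast; ring)
  obtain ⟨a', ha'⟩ := exist_int a (3 * r' + 2 * c') (by rw [ha2, ← hc']; push_cast; ring)
  have e1 : a' ^ 2 = 3 * r' + 2 * c' := by
    have : (a' : ℚ) ^ 2 = 3 * r' + 2 * c' := by rw [ha', ha2, hc']
    exact_mod_cast this
  have e2 : A + 3 * r' ^ 2 = c' ^ 2 := by
    have : (A : ℚ) + 3 * r' ^ 2 = c' ^ 2 := by rw [hc2, hc']
    exact_mod_cast this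
  have e3 : r' ^ 3 + A * r' + B = 0 := by exact_mod_cast h3
  have e4 : a' ^ 2 - 2 * c' = 3 * r' := by rw [e1]; ring
  have hr : rr a' c' = r' := by
    unfold rr
    rw [e4]
    exact Int.mul_ediv_cancel_left _ (by norm_num)
  refine ⟨a', c', ⟨r', e4⟩, ?_, ?_⟩
  · unfold Af
    rw [hr]
    linarith
  · unfold Bf
    rw [hr]
    have e5 : B = -r' ^ 3 - A * r' := by linarith
    have e6 : A = c' ^ 2 - 3 * r' ^ 2 := by linarith
    rw [e5, e6]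
    ring
-- END exist

-- BEGIN conv
/-- C9. Conversely the point is `(r + c, ac)`: `x³ + Ax + B = X(X² + 3rX + c²)` with `X = x - r`; `y = ac ≠ 0` as `disc ≠ 0`. -/
theorem conv (a c : ℤ) (hG : Gd a c) (hd : disc (Af a c) (Bf a c) ≠ 0) :
    ∃ x y r : ℚ, y ^ 2 = x ^ 3 + (Af a c : ℤ) * x + (Bf a c : ℤ) ∧ y ≠ 0 ∧ r ^ 3 + (Af a c : ℤ) * r + (Bf a c : ℤ) = 0 ∧
      2 * y ^ 2 = (3 * x ^ 2 + (Af a c : ℤ)) * (x - r) := by
  have h3 := three_rr a c hG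
  have h3' : 3 * (rr a c : ℚ) = (a : ℚ) ^ 2 - 2 * c := by exact_mod_cast h3
  rw [disc_eq a c hG] at hd
  have ha : a ≠ 0 := by rintro rfl; simp at hd
  have hc : c ≠ 0 := by rintro rfl; simp at hd
  refine ⟨(rr a c : ℚ) + c, (a : ℚ) * c, (rr a c : ℚ), ?_, ?_, ?_, ?_⟩
  · unfold Af Bf
    push_cast
    linear_combination (-(c : ℚ) ^ 2) * h3'
  · exact mul_ne_zero (by exact_mod_cast ha) (by exact_mod_cast hc)
  · unfold Af Bf
    push_cast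
    ring
  · unfold Af
    push_cast
    linear_combination (-2 * (c : ℚ) ^ 2) * h3'
-- END conv

-- BEGIN alt
/-- C10. If `rr a' c' = rr a c` then `c'² = c²`; `c' = c` gives `a'² = a²`; `c' = -c` gives `a'² = 3r - 2c = n`. If `r' ≠ r` then `x³ + Ax + B` has the roots `r`, `r'` and `-r-r'`, so `X² + 3rX + c²` has rational roots and `9r² - 4c² = n a²` is a square, `a ≠ 0`: `n` is a square. -/
theorem alt (a c a' c' : ℤ) (hG : Gd a c) (hG' : Gd a' c') (hd : disc (Af a c) (Bf a c) ≠ 0) (h1 : Af a' c' = Af a c) (h2 : Bf a' c' = Bf a c) :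
    (a' = a ∧ c' = c) ∨ (a' = -a ∧ c' = c) ∨ ∃ e : ℤ, nn a c = e ^ 2 := by
  have ha : a ≠ 0 := by
    intro h
    apply hd
    rw [disc_eq a c hG, h]
    ring
  have e1 := three_rr a c hG
  have e2 := three_rr a' c' hG'
  unfold Af at h1
  unfold Bf at h2
  set r := rr a c with hr
  set r' := rr a' c' with hr'
  by_cases hrr : r' = r
  · rw [hrr] at h1 e2
    have h3 : c' ^ 2 = c ^ 2 := by linarith
    rcases sq_eq_sq_iff_eq_or_eq_neg.1 h3 with h | h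
    · subst h
      have h4 : a' ^ 2 = a ^ 2 := by linarith
      rcases sq_eq_sq_iff_eq_or_eq_neg.1 h4 with h | h
      · exact Or.inl ⟨h, rfl⟩
      · exact Or.inr (Or.inl ⟨h, rfl⟩)
    · right
      right
      refine ⟨a', ?_⟩
      unfold nn
      rw [h] at e2
      linarith
  · right
    right
    have h3 : (r' - r) * (r' ^ 2 + r * r' + r ^ 2 + (c ^ 2 - 3 * r ^ 2)) = 0 := by
      linear_combination (-1) * h2 + (-r') * h1
    have h4 : r' ^ 2 + r * r' + r ^ 2 + (c ^ 2 - 3 * r ^ 2) = 0 := by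
      rcases mul_eq_zero.1 h3 with h | h
      · exact absurd (sub_eq_zero.1 h) hrr
      · exact h
    have h5 : (2 * r' + r) ^ 2 = nn a c * a ^ 2 := by
      have h6 : nn a c * a ^ 2 = (3 * r - 2 * c) * (3 * r + 2 * c) := by
        rw [e1]
        unfold nn
        ring
      rw [h6]
      linear_combination 4 * h4
    have h6 : a ∣ 2 * r' + r := by
      have h7 : a ^ 2 ∣ (2 * r' + r) ^ 2 := by
        rw [h5]
        exact Dvd.intro_left _ rfl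
      exact (Int.pow_dvd_pow_iff (by norm_num)).1 h7
    obtain ⟨e, he⟩ := h6
    refine ⟨e, ?_⟩
    rw [he] at h5
    have h7 : a ^ 2 * (nn a c - e ^ 2) = 0 := by linear_combination (-1) * h5
    rcases mul_eq_zero.1 h7 with h | h
    · exact absurd h (pow_ne_zero 2 ha)
    · linarith
-- END alt

-- BEGIN sq_count
/-- C11. `(a, e)` determines `c`; at most `7Y` values of `a`; `e² ≤ 17Y²`, at most `10Y` values of `e`. -/
theorem sq_count (Y : ℝ) (hY : 1 ≤ Y) :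
    (((Box4 Y).filter (fun x => ∃ e : ℤ, nn x.1 x.2 = e ^ 2)).card : ℝ) ≤ 80 * Y ^ 2 := by
  classical
  have hY0 : 0 ≤ Y := by linarith
  set S := (Box4 Y).filter (fun x => ∃ e : ℤ, nn x.1 x.2 = e ^ 2) with hS
  set R : Finset (ℤ × ℤ) := (Icc (-⌊3 * Y⌋) ⌊3 * Y⌋) ×ˢ (Icc 0 ⌊5 * Y⌋) with hR
  have h1 : S.card ≤ R.card := by
    refine Finset.card_le_card_of_injOn (fun x => (x.1, Int.sqrt (nn x.1 x.2))) ?_ ?_
    · intro x hx
      rw [Finset.mem_coe, hS, Finset.mem_filter] at hx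
      obtain ⟨hb, e, he⟩ := hx
      unfold Box4 at hb
      rw [Finset.mem_product, Finset.mem_Icc, Finset.mem_Icc] at hb
      obtain ⟨⟨h2, h3⟩, h4, h5⟩ := hb
      have hs : Int.sqrt (nn x.1 x.2) = |e| := by
        rw [he, sq, Int.sqrt_eq, Int.natCast_natAbs]
      rw [Finset.mem_coe, hR, Finset.mem_product, Finset.mem_Icc, Finset.mem_Icc]
      refine ⟨⟨h2, h3⟩, ?_, ?_⟩
      · change 0 ≤ Int.sqrt (nn x.1 x.2)
        rw [hs]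
        exact abs_nonneg e
      · change Int.sqrt (nn x.1 x.2) ≤ ⌊5 * Y⌋
        rw [hs, Int.le_floor]
        have h6 : |(x.1 : ℝ)| ≤ 3 * Y := by
          rw [abs_le]
          constructor
          · have h7 : (-(⌊3 * Y⌋ : ℤ) : ℝ) ≤ x.1 := by exact_mod_cast h2
            linarith [Int.floor_le (3 * Y)]
          · have h7 : (x.1 : ℝ) ≤ (⌊3 * Y⌋ : ℤ) := by exact_mod_cast h3
            exact h7.trans (Int.floor_le _)
        have h8 : -(2 * Y ^ 2) ≤ (x.2 : ℝ) := by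
          have h7 : (-(⌊2 * Y ^ 2⌋ : ℤ) : ℝ) ≤ x.2 := by exact_mod_cast h4
          linarith [Int.floor_le (2 * Y ^ 2)]
        have h9 : (x.1 : ℝ) ^ 2 - 4 * x.2 = (e : ℝ) ^ 2 := by
          have h10 := he
          unfold nn at h10
          exact_mod_cast h10
        have h11 : (x.1 : ℝ) ^ 2 ≤ (3 * Y) ^ 2 := by
          rw [← sq_abs]
          exact pow_le_pow_left₀ (abs_nonneg _) h6 2
        have h12 : |(e : ℝ)| ^ 2 ≤ (5 * Y) ^ 2 := by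
          rw [sq_abs, ← h9]
          nlinarith
        have h13 := abs_le_of_sq_le_sq h12 (by positivity)
        rw [abs_abs] at h13
        exact_mod_cast h13
    · intro x hx y hy hxy
      rw [Finset.mem_coe, hS, Finset.mem_filter] at hx hy
      obtain ⟨-, e, he⟩ := hx
      obtain ⟨-, e', he'⟩ := hy
      have hxy1 : x.1 = y.1 := (Prod.mk.inj hxy).1
      have hxy2 : Int.sqrt (nn x.1 x.2) = Int.sqrt (nn y.1 y.2) := (Prod.mk.inj hxy).2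
      rw [he, he', sq, sq, Int.sqrt_eq, Int.sqrt_eq, Int.natCast_natAbs, Int.natCast_natAbs] at hxy2
      have h2 : nn x.1 x.2 = nn y.1 y.2 := by
        rw [he, he', ← sq_abs e, ← sq_abs e', hxy2]
      unfold nn at h2
      rw [hxy1] at h2
      exact Prod.ext hxy1 (by linarith)
  have h2 : (R.card : ℝ) ≤ (7 * Y) * (6 * Y) := by
    rw [hR, Finset.card_product, Int.card_Icc, Int.card_Icc]
    push_cast
    have f1 : (0 : ℤ) ≤ ⌊3 * Y⌋ := Int.floor_nonneg.2 (by positivity)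
    have f2 : (0 : ℤ) ≤ ⌊5 * Y⌋ := Int.floor_nonneg.2 (by positivity)
    have g1 : (((⌊3 * Y⌋ + 1 - -⌊3 * Y⌋).toNat : ℕ) : ℝ) ≤ 7 * Y := by
      have e1 : (((⌊3 * Y⌋ + 1 - -⌊3 * Y⌋).toNat : ℕ) : ℤ) = ⌊3 * Y⌋ + 1 - -⌊3 * Y⌋ :=
        Int.toNat_of_nonneg (by linarith)
      have e2 : (((⌊3 * Y⌋ + 1 - -⌊3 * Y⌋).toNat : ℕ) : ℝ) = (⌊3 * Y⌋ : ℝ) + 1 - -(⌊3 * Y⌋ : ℝ) := by
        exact_mod_cast e1
      rw [e2]
      linarith [Int.floor_le (3 * Y)]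
    have g2 : (((⌊5 * Y⌋ + 1 - 0).toNat : ℕ) : ℝ) ≤ 6 * Y := by
      have e1 : (((⌊5 * Y⌋ + 1 - 0).toNat : ℕ) : ℤ) = ⌊5 * Y⌋ + 1 - 0 :=
        Int.toNat_of_nonneg (by linarith)
      have e2 : (((⌊5 * Y⌋ + 1 - 0).toNat : ℕ) : ℝ) = (⌊5 * Y⌋ : ℝ) + 1 - 0 := by
        exact_mod_cast e1
      rw [e2]
      linarith [Int.floor_le (5 * Y)]
    exact mul_le_mul g1 g2 (Nat.cast_nonneg _) (by positivity)
  have h3 : (S.card : ℝ) ≤ (R.card : ℝ) := by exact_mod_cast h1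
  nlinarith
-- END sq_count

-- BEGIN fam_sum
private theorem fam_sum_neg (a c : ℤ) : rr (-a) c = rr a c ∧ Af (-a) c = Af a c ∧ Bf (-a) c = Bf a c ∧
    nn (-a) c = nn a c := by
  have h : rr (-a) c = rr a c := by
    unfold rr
    congr 1
    ring
  refine ⟨h, ?_, ?_, ?_⟩
  · unfold Af
    rw [h]
  · unfold Bf
    rw [h]
  · unfold nn
    ring

private theorem fam_sum_gd (a c : ℤ) : Gd (-a) c ↔ Gd a c := by
  unfold Gd
  rw [neg_sq]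

private theorem fam_sum_mem (Y : ℝ) (hY : 0 ≤ Y) (x : ℤ × ℤ) : x ∈ PR4 Y ↔
    (Gd x.1 x.2 ∧ 4 * |((Af x.1 x.2 : ℤ) : ℝ)| ^ 3 ≤ Y ^ 12 ∧ 27 * ((Bf x.1 x.2 : ℤ) : ℝ) ^ 2 ≤ Y ^ 12) ∧
      Minimal (Af x.1 x.2) (Bf x.1 x.2) ∧ disc (Af x.1 x.2) (Bf x.1 x.2) ≠ 0 := by
  obtain ⟨a, c⟩ := x
  unfold PR4
  rw [Finset.mem_filter, mem_Reg4 Y hY]

/-- C12. As `Rnt.fam_sum`. `F` is the image of `PR4 Y` under `(a, c) ↦ (Af a c, Bf a c)` (`mem_Reg4`, `exist`, `conv`). A fibre contains `(a, c)` and `(-a, c)` (`a ≠ 0`), and nothing else unless `n` is a square (`alt`): `f E` minus half of the sum over the fibre is `0`, or at most half the size of the fibre (size `≥ 3`), and then all its elements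
have `n` a square; `sq_count`. -/
theorem fam_sum (Y : ℝ) (hY : 1 ≤ Y) : ∃ F : Finset (ℤ × ℤ), (F : Set (ℤ × ℤ)) = Fam4 (Y ^ 12) ∧
    ∀ f : ℤ × ℤ → ℝ, (∀ E, |f E| ≤ 1) → |∑ E ∈ F, f E - (∑ x ∈ PR4 Y, f (Af x.1 x.2, Bf x.1 x.2)) / 2| ≤ 80 * Y ^ 2 := by
  have hY0 : 0 ≤ Y := by linarith
  set g : ℤ × ℤ → ℤ × ℤ := fun x => (Af x.1 x.2, Bf x.1 x.2) with hg
  refine ⟨(PR4 Y).image g, ?_, ?_⟩
  · ext E
    obtain ⟨A, B⟩ := E
    rw [Finset.coe_image, Set.mem_image]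
    constructor
    · rintro ⟨⟨a, c⟩, hx, hE⟩
      rw [Finset.mem_coe, fam_sum_mem Y hY0] at hx
      obtain ⟨⟨h0, h1, h2⟩, h3, h4⟩ := hx
      have e1 : Af a c = A := congrArg Prod.fst hE
      have e2 : Bf a c = B := congrArg Prod.snd hE
      obtain ⟨x, y, r, hc⟩ := conv a c h0 h4
      subst e1
      subst e2
      exact ⟨h3, h4, ⟨x, y, r, hc⟩, h1, h2⟩
    · rintro ⟨h1, h2, ⟨x, y, r, hxy, hy, hr, ht⟩, h3, h4⟩
      obtain ⟨a, c, hG, hA, hB⟩ := exist A B x y r hxy hy hr ht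
      refine ⟨(a, c), ?_, ?_⟩
      · rw [Finset.mem_coe, fam_sum_mem Y hY0]
        show (Gd a c ∧ 4 * |((Af a c : ℤ) : ℝ)| ^ 3 ≤ Y ^ 12 ∧ 27 * ((Bf a c : ℤ) : ℝ) ^ 2 ≤ Y ^ 12) ∧
          Minimal (Af a c) (Bf a c) ∧ disc (Af a c) (Bf a c) ≠ 0
        rw [← hA, ← hB]
        exact ⟨⟨hG, h3, h4⟩, h1, h2⟩
      · show (Af a c, Bf a c) = (A, B)
        rw [← hA, ← hB]
  · intro f hf
    set S := PR4 Y with hS
    set D : Finset (ℤ × ℤ) := S.filter (fun x => ∃ e : ℤ, nn x.1 x.2 = e ^ 2) with hD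
    have h0 : ∑ x ∈ S, f (g x) = ∑ b ∈ S.image g, (S.filter (fun a => g a = b)).card • f b :=
      Finset.sum_comp f g
    have h1 : ∀ E ∈ S.image g, |f E - ((S.filter (fun a => g a = E)).card • f E) / 2| ≤
        ((D.filter (fun a => g a = E)).card : ℝ) := by
      intro E hE
      obtain ⟨x, hx, hxE⟩ := Finset.mem_image.1 hE
      obtain ⟨a, c⟩ := x
      have hx' := (fam_sum_mem Y hY0 (a, c)).1 hx
      have hd : disc (Af a c) (Bf a c) ≠ 0 := hx'.2.2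
      have hG : Gd a c := hx'.1.1
      have ha : a ≠ 0 := by
        intro h
        apply hd
        rw [disc_eq a c hG, h]
        ring
      obtain ⟨n1, n2, n3, n4⟩ := fam_sum_neg a c
      have hxn : (-a, c) ∈ S := by
        rw [hS, fam_sum_mem Y hY0]
        show (Gd (-a) c ∧ 4 * |((Af (-a) c : ℤ) : ℝ)| ^ 3 ≤ Y ^ 12 ∧ 27 * ((Bf (-a) c : ℤ) : ℝ) ^ 2 ≤ Y ^ 12) ∧
          Minimal (Af (-a) c) (Bf (-a) c) ∧ disc (Af (-a) c) (Bf (-a) c) ≠ 0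
        rw [n2, n3, fam_sum_gd]
        exact hx'
      by_cases hsq : ∃ e : ℤ, nn a c = e ^ 2
      · have hsub : S.filter (fun a => g a = E) ⊆ D.filter (fun a => g a = E) := by
          intro z hz
          obtain ⟨a', c'⟩ := z
          rw [Finset.mem_filter] at hz
          have hz' := (fam_sum_mem Y hY0 (a', c')).1 hz.1
          have hzE : g (a', c') = g (a, c) := by rw [hz.2, hxE]
          have e1 : Af a' c' = Af a c := congrArg Prod.fst hzE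
          have e2 : Bf a' c' = Bf a c := congrArg Prod.snd hzE
          refine Finset.mem_filter.2 ⟨Finset.mem_filter.2 ⟨hz.1, ?_⟩, hz.2⟩
          show ∃ e : ℤ, nn a' c' = e ^ 2
          rcases alt a' c' a c hz'.1.1 hG hz'.2.2 e1.symm e2.symm with h | h | h
          · rw [← h.1, ← h.2]
            exact hsq
          · obtain ⟨e, he⟩ := hsq
            refine ⟨e, ?_⟩
            rw [← he, h.1, h.2]
            exact (fam_sum_neg a' c').2.2.2.symm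
          · exact h
        have hcard := Finset.card_le_card hsub
        have hpos : 0 < (S.filter (fun a => g a = E)).card :=
          Finset.card_pos.2 ⟨(a, c), Finset.mem_filter.2 ⟨hx, hxE⟩⟩
        have h2 : (1 : ℝ) ≤ ((S.filter (fun a => g a = E)).card : ℝ) := by exact_mod_cast hpos
        have h3 : ((S.filter (fun a => g a = E)).card : ℝ) ≤ ((D.filter (fun a => g a = E)).card : ℝ) := by
          exact_mod_cast hcard
        have e1 : f E - ((S.filter (fun a => g a = E)).card • f E) / 2 =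
            (1 - ((S.filter (fun a => g a = E)).card : ℝ) / 2) * f E := by
          rw [nsmul_eq_mul]
          ring
        rw [e1, abs_mul]
        have h4 := hf E
        have h5 := abs_nonneg (f E)
        have h6 : |1 - ((S.filter (fun a => g a = E)).card : ℝ) / 2| ≤ ((S.filter (fun a => g a = E)).card : ℝ) := by
          rw [abs_le]
          constructor
          · linarith
          · linarith
        have h7 := abs_nonneg (1 - ((S.filter (fun a => g a = E)).card : ℝ) / 2)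
        nlinarith
      · have hfib : S.filter (fun a => g a = E) = {(a, c), (-a, c)} := by
          ext z
          obtain ⟨a', c'⟩ := z
          rw [Finset.mem_filter, Finset.mem_insert, Finset.mem_singleton]
          constructor
          · rintro ⟨hz1, hz2⟩
            have hz' := (fam_sum_mem Y hY0 (a', c')).1 hz1
            have hzE : g (a', c') = g (a, c) := by rw [hz2, hxE]
            have e1 : Af a' c' = Af a c := congrArg Prod.fst hzE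
            have e2 : Bf a' c' = Bf a c := congrArg Prod.snd hzE
            rcases alt a c a' c' hG hz'.1.1 hd e1 e2 with h | h | h
            · left
              exact Prod.ext h.1 h.2
            · right
              exact Prod.ext h.1 h.2
            · exact absurd h hsq
          · rintro (h | h)
            · rw [h]
              exact ⟨hx, hxE⟩
            · rw [h]
              refine ⟨hxn, ?_⟩
              rw [← hxE]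
              show (Af (-a) c, Bf (-a) c) = (Af a c, Bf a c)
              rw [n2, n3]
        have hne : ((a, c) : ℤ × ℤ) ≠ (-a, c) := by
          intro h
          have : a = -a := congrArg Prod.fst h
          omega
        rw [hfib, Finset.card_pair hne]
        have e1 : f E - (2 • f E) / 2 = 0 := by
          rw [nsmul_eq_mul]
          push_cast
          ring
        rw [e1, abs_zero]
        positivity
    have h2 : ∑ E ∈ S.image g, ((D.filter (fun a => g a = E)).card : ℝ) = (D.card : ℝ) := by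
      have h3 := Finset.card_eq_sum_card_fiberwise (f := g) (s := D) (t := S.image g)
        (fun x hx => Finset.mem_coe.2 (Finset.mem_image_of_mem g ((Finset.filter_subset _ _) hx)))
      rw [h3]
      push_cast
      rfl
    have h3 : (D.card : ℝ) ≤ 80 * Y ^ 2 := by
      refine le_trans ?_ (sq_count Y hY)
      have hsub : D ⊆ (Box4 Y).filter (fun x => ∃ e : ℤ, nn x.1 x.2 = e ^ 2) := by
        intro x hx
        rw [hD, Finset.mem_filter] at hx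
        refine Finset.mem_filter.2 ⟨?_, hx.2⟩
        have h2 := hx.1
        rw [hS] at h2
        unfold PR4 at h2
        have h3 := (Finset.mem_filter.1 h2).1
        unfold Reg4 at h3
        exact (Finset.mem_filter.1 h3).1
      exact_mod_cast Finset.card_le_card hsub
    have h4 : ∑ E ∈ S.image g, f E - (∑ x ∈ S, f (Af x.1 x.2, Bf x.1 x.2)) / 2 =
        ∑ E ∈ S.image g, (f E - ((S.filter (fun a => g a = E)).card • f E) / 2) := by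
      rw [Finset.sum_sub_distrib, ← Finset.sum_div, ← h0]
    rw [h4]
    calc |∑ E ∈ S.image g, (f E - ((S.filter (fun a => g a = E)).card • f E) / 2)|
        ≤ ∑ E ∈ S.image g, |f E - ((S.filter (fun a => g a = E)).card • f E) / 2| :=
          Finset.abs_sum_le_sum_abs _ _
      _ ≤ ∑ E ∈ S.image g, ((D.filter (fun a => g a = E)).card : ℝ) := Finset.sum_le_sum h1
      _ = (D.card : ℝ) := h2
      _ ≤ 80 * Y ^ 2 := h3
-- END fam_sum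

end Rn4
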