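import Pool.Agent.Rnc.Core4
import Pool.Agent.Rn4.Cnt

/-!
# Rn4 ASM: assembly
-/

set_option autoImplicit false

namespace Rn4

open Finset Filter Topology Rnt Rnc

open scoped Classical

/-- `3A` and `27B` as polynomial functions of `a` and `c` -/
def A3 (a c : ℝ) : ℝ := -c ^ 2 + 4 * a ^ 2 * c - a ^ 4

/-- `27 B` -/
def B27 (a c : ℝ) : ℝ := 2 * (a ^ 2 - 2 * c) ^ 3 - 9 * (a ^ 2 - 2 * c) * c ^ 2

-- BEGIN AB_eq
/-- T0. `3r = a² - 2c`. -/
theorem AB_eq (a c : ℤ) (h : Gd a c) : 3 * ((Af a c : ℤ) : ℝ) = A3 a c ∧ 27 * ((Bf a c : ℤ) : ℝ) = B27 a c := by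
  have h3 : 3 * ((rr a c : ℤ) : ℝ) = (a : ℝ) ^ 2 - 2 * (c : ℝ) := by exact_mod_cast three_rr a c h
  have h4 : ((rr a c : ℤ) : ℝ) = ((a : ℝ) ^ 2 - 2 * (c : ℝ)) / 3 := by linarith
  constructor
  · unfold Af A3
    push_cast
    rw [h4]; ring
  · unfold Bf B27
    push_cast
    rw [h4]; ring
-- END AB_eq

/-- the height and sign conditions for `a` and `c = σU m` -/
def PP4 (Y : ℝ) (τ : Bool × Bool × Bool) (σU : ℤ) (a : ℤ) (m : ℕ) : Prop :=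
  4 * |A3 a (σU * m) / 3| ^ 3 ≤ Y ^ 12 ∧ 27 * (B27 a (σU * m) / 27) ^ 2 ≤ Y ^ 12 ∧ sgb τ.1 a ∧ sgb τ.2.1 (σU * m) ∧ sgb τ.2.2 (a ^ 2 - 4 * (σU * m))

-- BEGIN chg4
private noncomputable def chg4_set (n : ℕ) (R : ℕ → Prop) : Finset ℕ :=
  (range n).filter (fun m => ¬ (R m ↔ R (m + 1)))

private theorem chg4_mem (n : ℕ) (R : ℕ → Prop) (m : ℕ) :
    m ∈ chg4_set n R ↔ m < n ∧ ¬ (R m ↔ R (m + 1)) := by
  unfold chg4_set
  rw [Finset.mem_filter, Finset.mem_range]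

private noncomputable def chg4_ch (n : ℕ) (R : ℕ → Prop) : ℕ := (chg4_set n R).card

private theorem chg4_and (n : ℕ) (R S : ℕ → Prop) :
    chg4_ch n (fun m => R m ∧ S m) ≤ chg4_ch n R + chg4_ch n S := by
  unfold chg4_ch
  refine le_trans (Finset.card_le_card ?_) (Finset.card_union_le _ _)
  intro m hm
  rw [chg4_mem] at hm
  rw [Finset.mem_union, chg4_mem, chg4_mem]
  by_cases h : R m ↔ R (m + 1)
  · right
    refine ⟨hm.1, fun h' => hm.2 ?_⟩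
    show (R m ∧ S m) ↔ (R (m + 1) ∧ S (m + 1))
    rw [h, h']
  · left
    exact ⟨hm.1, h⟩

private theorem chg4_congr (n : ℕ) (R S : ℕ → Prop) (h : ∀ m, R m ↔ S m) : chg4_ch n R = chg4_ch n S := by
  have : R = S := by
    funext m
    exact propext (h m)
  rw [this]

private theorem chg4_not (n : ℕ) (R : ℕ → Prop) : chg4_ch n (fun m => ¬ R m) = chg4_ch n R := by
  unfold chg4_ch
  congr 1
  apply Finset.ext
  intro m
  rw [chg4_mem, chg4_mem]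
  show (m < n ∧ ¬ (¬ R m ↔ ¬ R (m + 1))) ↔ (m < n ∧ ¬ (R m ↔ R (m + 1)))
  rw [not_iff_not]

private theorem chg4_const (n : ℕ) (q : Prop) : chg4_ch n (fun _ => q) = 0 := by
  unfold chg4_ch
  rw [Finset.card_eq_zero]
  apply Finset.eq_empty_of_forall_notMem
  intro m hm
  rw [chg4_mem] at hm
  exact hm.2 Iff.rfl

private theorem chg4_poly (n d : ℕ) (f : ℝ → ℝ) (p : Polynomial ℝ) (hp : p ≠ 0) (hd : p.natDegree ≤ d)
    (hf : ∀ x : ℝ, p.eval x = f x) : chg4_ch n (fun m => f (m : ℝ) ≤ 0) ≤ 2 * d := by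
  have h := chg p hp n
  refine le_trans ?_ (h.trans (Nat.mul_le_mul_left 2 hd))
  unfold chg4_ch
  refine Finset.card_le_card_of_injOn (fun m : ℕ => (m : ℝ)) ?_ ?_
  · intro m hm
    rw [Finset.mem_coe, chg4_mem] at hm
    rw [Finset.mem_coe, Finset.mem_filter]
    refine ⟨?_, ?_⟩
    · simp
      exact hm.1
    · have h2 := hm.2
      rw [hf, hf]
      intro h3
      apply h2
      show f (m : ℝ) ≤ 0 ↔ f ((m + 1 : ℕ) : ℝ) ≤ 0
      push_cast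
      exact h3
  · intro m _ m' _ he
    exact Nat.cast_injective he

private theorem chg4_cube (n : ℕ) (c0 c1 c2 c3 : ℝ) (h3 : c3 ≠ 0) :
    chg4_ch n (fun m => c3 * (m : ℝ) ^ 3 + c2 * (m : ℝ) ^ 2 + c1 * (m : ℝ) + c0 ≤ 0) ≤ 6 := by
  refine chg4_poly n 3 (fun x => c3 * x ^ 3 + c2 * x ^ 2 + c1 * x + c0)
    (Polynomial.C c3 * Polynomial.X ^ 3 + Polynomial.C c2 * Polynomial.X ^ 2 + Polynomial.C c1 * Polynomial.X +
      Polynomial.C c0) ?_ Polynomial.natDegree_cubic_le ?_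
  · intro h
    have h4 := congrArg (fun p => Polynomial.coeff p 3) h
    simp at h4
    exact h3 h4
  · intro x
    simp

private theorem chg4_quad (n : ℕ) (c0 c1 c2 : ℝ) (h2 : c2 ≠ 0) :
    chg4_ch n (fun m => c2 * (m : ℝ) ^ 2 + c1 * (m : ℝ) + c0 ≤ 0) ≤ 4 := by
  refine chg4_poly n 2 (fun x => c2 * x ^ 2 + c1 * x + c0)
    (Polynomial.C c2 * Polynomial.X ^ 2 + Polynomial.C c1 * Polynomial.X + Polynomial.C c0) ?_
    Polynomial.natDegree_quadratic_le ?_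
  · intro h
    have h4 := congrArg (fun p => Polynomial.coeff p 2) h
    simp at h4
    exact h2 h4
  · intro x
    simp

private theorem chg4_lin (n : ℕ) (c0 c1 : ℝ) (h1 : c1 ≠ 0) :
    chg4_ch n (fun m => c1 * (m : ℝ) + c0 ≤ 0) ≤ 2 := by
  refine chg4_poly n 1 (fun x => c1 * x + c0) (Polynomial.C c1 * Polynomial.X + Polynomial.C c0) ?_
    Polynomial.natDegree_linear_le ?_
  · intro h
    have h4 := congrArg (fun p => Polynomial.coeff p 1) h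
    simp at h4
    exact h1 h4
  · intro x
    simp

private theorem chg4_sgb (n : ℕ) (s : Bool) (c0 c1 : ℤ) (h1 : c1 ≠ 0) :
    chg4_ch n (fun m => sgb s (c1 * m + c0)) ≤ 2 := by
  have h1R : (c1 : ℝ) ≠ 0 := by exact_mod_cast h1
  rcases s with _ | _
  · have e : ∀ m : ℕ, sgb false (c1 * m + c0) ↔ ¬ ((-(c1 : ℝ)) * (m : ℝ) + (-(c0 : ℝ)) ≤ 0) := by
      intro m
      unfold sgb
      simp only [Bool.false_eq_true, if_false]
      rw [not_le]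
      constructor
      · intro h
        have h' : ((c1 * m + c0 : ℤ) : ℝ) < 0 := by exact_mod_cast h
        push_cast at h'
        linarith
      · intro h
        have h' : ((c1 * m + c0 : ℤ) : ℝ) < 0 := by
          push_cast
          linarith
        exact_mod_cast h'
    rw [chg4_congr n _ _ e, chg4_not]
    exact chg4_lin n _ _ (neg_ne_zero.2 h1R)
  · have e : ∀ m : ℕ, sgb true (c1 * m + c0) ↔ ¬ ((c1 : ℝ) * (m : ℝ) + (c0 : ℝ) ≤ 0) := by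
      intro m
      unfold sgb
      simp only [if_true]
      rw [not_le]
      constructor
      · intro h
        have h' : (0 : ℝ) < ((c1 * m + c0 : ℤ) : ℝ) := by exact_mod_cast h
        push_cast at h'
        linarith
      · intro h
        have h' : (0 : ℝ) < ((c1 * m + c0 : ℤ) : ℝ) := by
          push_cast
          linarith
        exact_mod_cast h'
    rw [chg4_congr n _ _ e, chg4_not]
    exact chg4_lin n _ _ h1R

/-- T1. `4|A|³ ≤ Y¹²` iff `A3 ≤ κ₁` and `-A3 ≤ κ₁`; `27B² ≤ Y¹²` iff `B27 ≤ κ₂` and `-B27 ≤ κ₂`: for fixed `a` four polynomials in `m` of degree `2, 2, 3, 3` (leading coefficients `-(σU)²`, `2(σU)³`), `Rnc.chg`: at most `20` changes; the sign conditions change at most `2 + 2` times (`< 0` is `not (-x ≤ 0)`...; for `c = σUm` only between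
`m = 0` and `1`, for `n` a polynomial of degree `1`). A change of a conjunction is a change of one of the conditions. -/
theorem chg4 (Y : ℝ) (hY : 0 ≤ Y) (τ : Bool × Bool × Bool) (σU : ℤ) (h : σU ≠ 0) (n : ℕ) : Chg 30 n (PP4 Y τ σU) := by
  intro a
  show chg4_ch n (PP4 Y τ σU a) ≤ 30
  have hs : (σU : ℝ) ≠ 0 := by exact_mod_cast h
  have hY12 : 0 ≤ Y ^ 12 := by positivity
  obtain ⟨κ₁, hκ₁0, hκ₁⟩ : ∃ κ : ℝ, 0 ≤ κ ∧ κ ^ 3 = 27 * Y ^ 12 / 4 := by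
    refine ⟨(27 * Y ^ 12 / 4) ^ ((1 : ℝ) / 3), Real.rpow_nonneg (by positivity) _, ?_⟩
    rw [← Real.rpow_natCast, ← Real.rpow_mul (by positivity)]
    norm_num
  set κ₂ : ℝ := Real.sqrt (27 * Y ^ 12) with hκ₂
  have hκ₂0 : 0 ≤ κ₂ := Real.sqrt_nonneg _
  have hκ₂2 : κ₂ ^ 2 = 27 * Y ^ 12 := Real.sq_sqrt (by positivity)
  have hA : ∀ t : ℝ, 4 * |t / 3| ^ 3 ≤ Y ^ 12 ↔ t - κ₁ ≤ 0 ∧ -t - κ₁ ≤ 0 := by
    intro t
    have h1 : 4 * |t / 3| ^ 3 ≤ Y ^ 12 ↔ |t| ^ 3 ≤ κ₁ ^ 3 := by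
      rw [abs_div, div_pow, hκ₁, abs_of_pos (by norm_num : (0 : ℝ) < 3)]
      constructor
      · intro h
        linarith
      · intro h
        linarith
    rw [h1, pow_le_pow_iff_left₀ (abs_nonneg _) hκ₁0 (by norm_num), abs_le]
    constructor
    · rintro ⟨h2, h3⟩
      exact ⟨by linarith, by linarith⟩
    · rintro ⟨h2, h3⟩
      exact ⟨by linarith, by linarith⟩
  have hB : ∀ t : ℝ, 27 * (t / 27) ^ 2 ≤ Y ^ 12 ↔ t - κ₂ ≤ 0 ∧ -t - κ₂ ≤ 0 := by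
    intro t
    have h1 : 27 * (t / 27) ^ 2 ≤ Y ^ 12 ↔ t ^ 2 ≤ κ₂ ^ 2 := by
      rw [hκ₂2]
      constructor
      · intro h
        have : 27 * (t / 27) ^ 2 = t ^ 2 / 27 := by ring
        linarith
      · intro h
        have : 27 * (t / 27) ^ 2 = t ^ 2 / 27 := by ring
        linarith
    rw [h1, sq_le_sq, abs_of_nonneg hκ₂0, abs_le]
    constructor
    · rintro ⟨h2, h3⟩
      exact ⟨by linarith, by linarith⟩
    · rintro ⟨h2, h3⟩
      exact ⟨by linarith, by linarith⟩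
  set s : ℝ := (σU : ℝ) with hsd
  set x : ℝ := (a : ℝ) with hx
  have key : ∀ m : ℕ, PP4 Y τ σU a m ↔
      (((-s ^ 2) * (m : ℝ) ^ 2 + (4 * x ^ 2 * s) * (m : ℝ) + (-x ^ 4 - κ₁) ≤ 0 ∧
        s ^ 2 * (m : ℝ) ^ 2 + (-(4 * x ^ 2 * s)) * (m : ℝ) + (x ^ 4 - κ₁) ≤ 0) ∧
      ((2 * s ^ 3) * (m : ℝ) ^ 3 + (15 * x ^ 2 * s ^ 2) * (m : ℝ) ^ 2 + (-(12 * x ^ 4 * s)) * (m : ℝ) + (2 * x ^ 6 - κ₂) ≤ 0 ∧
        (-(2 * s ^ 3)) * (m : ℝ) ^ 3 + (-(15 * x ^ 2 * s ^ 2)) * (m : ℝ) ^ 2 + (12 * x ^ 4 * s) * (m : ℝ) + (-(2 * x ^ 6) - κ₂) ≤ 0)) ∧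
      (sgb τ.1 a ∧ (sgb τ.2.1 (σU * m + 0) ∧ sgb τ.2.2 (-4 * σU * m + a ^ 2))) := by
    intro m
    unfold PP4
    rw [hA, hB]
    unfold A3 B27
    have e1 : -(s * (m : ℝ)) ^ 2 + 4 * x ^ 2 * (s * m) - x ^ 4 - κ₁ =
        (-s ^ 2) * (m : ℝ) ^ 2 + (4 * x ^ 2 * s) * (m : ℝ) + (-x ^ 4 - κ₁) := by ring
    have e2 : -(-(s * (m : ℝ)) ^ 2 + 4 * x ^ 2 * (s * m) - x ^ 4) - κ₁ =
        s ^ 2 * (m : ℝ) ^ 2 + (-(4 * x ^ 2 * s)) * (m : ℝ) + (x ^ 4 - κ₁) := by ring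
    have e3 : 2 * (x ^ 2 - 2 * (s * (m : ℝ))) ^ 3 - 9 * (x ^ 2 - 2 * (s * m)) * (s * m) ^ 2 - κ₂ =
        (2 * s ^ 3) * (m : ℝ) ^ 3 + (15 * x ^ 2 * s ^ 2) * (m : ℝ) ^ 2 + (-(12 * x ^ 4 * s)) * (m : ℝ) + (2 * x ^ 6 - κ₂) := by
      ring
    have e4 : -(2 * (x ^ 2 - 2 * (s * (m : ℝ))) ^ 3 - 9 * (x ^ 2 - 2 * (s * m)) * (s * m) ^ 2) - κ₂ =
        (-(2 * s ^ 3)) * (m : ℝ) ^ 3 + (-(15 * x ^ 2 * s ^ 2)) * (m : ℝ) ^ 2 + (12 * x ^ 4 * s) * (m : ℝ) + (-(2 * x ^ 6) - κ₂) := by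
      ring
    have e5 : σU * (m : ℤ) + 0 = σU * m := by ring
    have e6 : -4 * σU * (m : ℤ) + a ^ 2 = a ^ 2 - 4 * (σU * m) := by ring
    rw [e1, e2, e3, e4, e5, e6]
    tauto
  rw [chg4_congr n _ _ key]
  refine (chg4_and n _ _).trans ?_
  have p1 := chg4_quad n (-x ^ 4 - κ₁) (4 * x ^ 2 * s) (-s ^ 2) (neg_ne_zero.2 (pow_ne_zero 2 hs))
  have p2 := chg4_quad n (x ^ 4 - κ₁) (-(4 * x ^ 2 * s)) (s ^ 2) (pow_ne_zero 2 hs)
  have p3 := chg4_cube n (2 * x ^ 6 - κ₂) (-(12 * x ^ 4 * s)) (15 * x ^ 2 * s ^ 2) (2 * s ^ 3)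
    (mul_ne_zero two_ne_zero (pow_ne_zero 3 hs))
  have p4 := chg4_cube n (-(2 * x ^ 6) - κ₂) (12 * x ^ 4 * s) (-(15 * x ^ 2 * s ^ 2)) (-(2 * s ^ 3))
    (neg_ne_zero.2 (mul_ne_zero two_ne_zero (pow_ne_zero 3 hs)))
  have p5 := chg4_const n (sgb τ.1 a)
  have p6 := chg4_sgb n τ.2.1 0 σU h
  have p7 := chg4_sgb n τ.2.2 (a ^ 2) (-4 * σU) (mul_ne_zero (by norm_num) h)
  have q1 := chg4_and n (fun m => ((-s ^ 2) * (m : ℝ) ^ 2 + (4 * x ^ 2 * s) * (m : ℝ) + (-x ^ 4 - κ₁) ≤ 0 ∧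
        s ^ 2 * (m : ℝ) ^ 2 + (-(4 * x ^ 2 * s)) * (m : ℝ) + (x ^ 4 - κ₁) ≤ 0))
      (fun m => ((2 * s ^ 3) * (m : ℝ) ^ 3 + (15 * x ^ 2 * s ^ 2) * (m : ℝ) ^ 2 + (-(12 * x ^ 4 * s)) * (m : ℝ) + (2 * x ^ 6 - κ₂) ≤ 0 ∧
        (-(2 * s ^ 3)) * (m : ℝ) ^ 3 + (-(15 * x ^ 2 * s ^ 2)) * (m : ℝ) ^ 2 + (12 * x ^ 4 * s) * (m : ℝ) + (-(2 * x ^ 6) - κ₂) ≤ 0))
  have q2 := chg4_and n (fun m => (-s ^ 2) * (m : ℝ) ^ 2 + (4 * x ^ 2 * s) * (m : ℝ) + (-x ^ 4 - κ₁) ≤ 0)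
    (fun m => s ^ 2 * (m : ℝ) ^ 2 + (-(4 * x ^ 2 * s)) * (m : ℝ) + (x ^ 4 - κ₁) ≤ 0)
  have q3 := chg4_and n (fun m => (2 * s ^ 3) * (m : ℝ) ^ 3 + (15 * x ^ 2 * s ^ 2) * (m : ℝ) ^ 2 + (-(12 * x ^ 4 * s)) * (m : ℝ) + (2 * x ^ 6 - κ₂) ≤ 0)
    (fun m => (-(2 * s ^ 3)) * (m : ℝ) ^ 3 + (-(15 * x ^ 2 * s ^ 2)) * (m : ℝ) ^ 2 + (12 * x ^ 4 * s) * (m : ℝ) + (-(2 * x ^ 6) - κ₂) ≤ 0)
  have q4 := chg4_and n (fun _ => sgb τ.1 a) (fun m => sgb τ.2.1 (σU * m + 0) ∧ sgb τ.2.2 (-4 * σU * m + a ^ 2))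
  have q5 := chg4_and n (fun m => sgb τ.2.1 (σU * m + 0)) (fun m => sgb τ.2.2 (-4 * σU * m + a ^ 2))
  omega
-- END chg4

-- BEGIN cell_sum
/-- the congruences in `cell_sum` -/
def cell_sum_C (M : ℕ) (a₀ c₀ : ℤ) (σU a : ℤ) (m : ℕ) : Prop :=
  (M : ℤ) ∣ σU * m - c₀ ∧ (M : ℤ) ∣ a - a₀

private theorem cell_sum_Gd (M : ℕ) (h3 : 3 ∣ M) (a c a₀ c₀ : ℤ) (ha : (M : ℤ) ∣ a - a₀) (hc : (M : ℤ) ∣ c - c₀) :
    Gd a c ↔ Gd a₀ c₀ := by
  have h3' : (3 : ℤ) ∣ M := by exact_mod_cast h3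
  unfold Gd
  have e : a ^ 2 - 2 * c = (a₀ ^ 2 - 2 * c₀) + ((a - a₀) * (a + a₀) - (c - c₀) * 2) := by ring
  rw [e, dvd_add_left (dvd_sub (Dvd.dvd.mul_right (h3'.trans ha) _) (Dvd.dvd.mul_right (h3'.trans hc) _))]

private theorem cell_sum_reg (Y : ℝ) (hY : 0 ≤ Y) (a c σU : ℤ) (m : ℕ) (hc : σU * m = c) : (a, c) ∈ Reg4 Y ↔
    Gd a c ∧ 4 * |A3 a (σU * m) / 3| ^ 3 ≤ Y ^ 12 ∧ 27 * (B27 a (σU * m) / 27) ^ 2 ≤ Y ^ 12 := by
  rw [mem_Reg4 Y hY]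
  have hc' : (σU : ℝ) * (m : ℝ) = (c : ℝ) := by rw [← hc]; push_cast; ring
  rw [hc']
  constructor
  · rintro ⟨hG, h1, h2⟩
    obtain ⟨e1, e2⟩ := AB_eq a c hG
    refine ⟨hG, ?_, ?_⟩
    · rw [← e1, mul_div_cancel_left₀ _ (by norm_num : (3 : ℝ) ≠ 0)]; exact h1
    · rw [← e2, mul_div_cancel_left₀ _ (by norm_num : (27 : ℝ) ≠ 0)]; exact h2
  · rintro ⟨hG, h1, h2⟩
    obtain ⟨e1, e2⟩ := AB_eq a c hG
    refine ⟨hG, ?_, ?_⟩
    · rw [← e1, mul_div_cancel_left₀ _ (by norm_num : (3 : ℝ) ≠ 0)] at h1; exact h1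
    · rw [← e2, mul_div_cancel_left₀ _ (by norm_num : (27 : ℝ) ≠ 0)] at h2; exact h2

private theorem cell_sum_u (u : ℤ) (U : ℕ) (hU : 0 < U) (hd : (U : ℤ) ∣ u) (s : Bool) (h : sgb s u) :
    (if s then (1 : ℤ) else -1) * U * ((u / U).natAbs : ℕ) = u ∧ 1 ≤ (u / U).natAbs := by
  obtain ⟨k, rfl⟩ := hd
  have hU' : (0 : ℤ) < U := by exact_mod_cast hU
  rw [Int.mul_ediv_cancel_left _ hU'.ne']
  cases s with
  | true =>
    simp only [sgb, if_true] at h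
    have hk : 0 < k := (mul_pos_iff_of_pos_left hU').1 h
    refine ⟨?_, by omega⟩
    have : ((k.natAbs : ℕ) : ℤ) = k := Int.natAbs_of_nonneg hk.le
    simp only [if_true]
    rw [this]; ring
  | false =>
    simp only [sgb, Bool.false_eq_true, if_false] at h
    have hk : k < 0 := by
      by_contra hc
      push Not at hc
      have : 0 ≤ (U : ℤ) * k := mul_nonneg hU'.le hc
      omega
    refine ⟨?_, by omega⟩
    have : ((k.natAbs : ℕ) : ℤ) = -k := by omega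
    simp only [Bool.false_eq_true, if_false]
    rw [this]; ring

/-- T2. As `Rn2.cell_sum`. `σ` the sign of `c` in the cell, `L = ⌈5Y⌉₊`, `core4` with `κ = -4σU`, `P = PP4 Y τ (σU)`, `K₀ = 30`, `Q = M`, `ρ a m = 1` if `M ∣ σUm - c₀` and `M ∣ a - a₀`, else `0`; `ψ a = |a/V|` if `V ∣ a`, else `1`; `s₀ = nn a₀ c₀`. If `Gd a₀ c₀` fails the cell is empty (`3 ∣ M`); otherwise
`(a, c) ↦ (a, |c/U|)` is a bijection of the cell onto the pairs `(a, m)`, `|a| ≤ L`, `1 ≤ m ≤ L²`, with `P a m`, `ρ a m = 1` (`AB_eq`, `mem_Reg4`), and there the terms agree up to the factor `mob (a / V)` of absolute value `≤ 1`. -/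
theorem cell_sum (M U V S : ℕ) (hM : 0 < M) (h3 : 3 ∣ M) (hU : 0 < U) (hV : 0 < V) (hS : 0 < S) (hUM : U ∣ M) (hVM : V ∣ M) (hSM : S ∣ M) (a₀ c₀ : ℤ)
    (hv : (V : ℤ) ∣ a₀) (hu : (U : ℤ) ∣ c₀) (hs : (S : ℤ) ∣ nn a₀ c₀) (ε : ℝ) (hε : 0 < ε) (τ : Bool × Bool × Bool) :
    ∃ Y₀ : ℝ, ∀ Y : ℝ, Y₀ ≤ Y →
      |∑ x ∈ Cell4 M a₀ c₀ τ Y, mob (x.1 / V) * mob (x.2 / U) * mob (nn x.1 x.2 / S) *
        ((jacobiSym (((x.2 / U).natAbs : ℕ) : ℤ) (x.1 / V).natAbs : ℤ) : ℝ)| ≤ ε * Y ^ 3 := by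
  have hUM' : (U : ℤ) ∣ M := by exact_mod_cast hUM
  have hVM' : (V : ℤ) ∣ M := by exact_mod_cast hVM
  have hSM' : (S : ℤ) ∣ M := by exact_mod_cast hSM
  by_cases hG0 : Gd a₀ c₀
  swap
  · refine ⟨0, fun Y hY => ?_⟩
    have he : Cell4 M a₀ c₀ τ Y = ∅ := by
      rw [Finset.eq_empty_iff_forall_notMem]
      intro x hx
      unfold Cell4 Reg4 at hx
      rw [Finset.mem_filter, Finset.mem_filter] at hx
      exact hG0 ((cell_sum_Gd M h3 x.1 x.2 a₀ c₀ hx.2.2.1 hx.2.2.2).1 hx.1.2.1)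
    rw [he, Finset.sum_empty, abs_zero]
    positivity
  obtain ⟨σ, hσdef⟩ : ∃ σ : ℤ, σ = if τ.2.1 then (1 : ℤ) else -1 := ⟨_, rfl⟩
  have hσ : σ = 1 ∨ σ = -1 := by
    rw [hσdef]; split_ifs
    · exact Or.inl rfl
    · exact Or.inr rfl
  have hσU : σ * U ≠ 0 := by
    rcases hσ with h | h <;> rw [h] <;> simp [hU.ne']
  obtain ⟨L₀, hL₀⟩ := Rnc.core4 M S hM hS (nn a₀ c₀) (-4 * (σ * U)) (mul_ne_zero (by norm_num) hσU) M hM 30 (ε / 216) (by positivity)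
  refine ⟨max L₀ 1, fun Y hY => ?_⟩
  have hYL : (L₀ : ℝ) ≤ Y := le_trans (le_max_left _ _) hY
  have hY1 : 1 ≤ Y := le_trans (le_max_right _ _) hY
  have hY0 : 0 ≤ Y := by linarith
  obtain ⟨L, hL⟩ : ∃ L : ℕ, L = ⌈5 * Y⌉₊ := ⟨_, rfl⟩
  have hL5 : 5 * Y ≤ L := by rw [hL]; exact Nat.le_ceil _
  have hL6 : (L : ℝ) ≤ 6 * Y := by
    rw [hL]
    have := Nat.ceil_lt_add_one (show 0 ≤ 5 * Y by linarith)
    linarith
  have hL0 : L₀ ≤ L := by
    have : (L₀ : ℝ) ≤ L := by linarith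
    exact_mod_cast this
  have hfa : ⌊3 * Y⌋ ≤ (L : ℤ) := by
    have h1 := Int.floor_le (3 * Y)
    have : ((⌊3 * Y⌋ : ℤ) : ℝ) ≤ L := by linarith
    exact_mod_cast this
  have hfc : ⌊2 * Y ^ 2⌋ ≤ ((L ^ 2 : ℕ) : ℤ) := by
    have h1 := Int.floor_le (2 * Y ^ 2)
    have h2 : (5 * Y) ^ 2 ≤ (L : ℝ) ^ 2 := pow_le_pow_left₀ (by positivity) hL5 2
    have : ((⌊2 * Y ^ 2⌋ : ℤ) : ℝ) ≤ (((L ^ 2 : ℕ) : ℤ) : ℝ) := by
      push_cast
      nlinarith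
    exact_mod_cast this
  have key := hL₀ L hL0 (fun a m => PP4 Y τ (σ * U) a m) (chg4 Y hY0 τ (σ * U) hσU (L ^ 2))
    (fun a m => if cell_sum_C M a₀ c₀ (σ * U) a m then (1 : ℝ) else 0)
    (by
      intro a m
      split_ifs <;> simp)
    (by
      intro a m m' hm
      have h1 : ((M : ℕ) : ℤ) ∣ (m' : ℤ) - m := Nat.modEq_iff_dvd.1 hm
      have h2 : cell_sum_C M a₀ c₀ (σ * U) a m ↔ cell_sum_C M a₀ c₀ (σ * U) a m' := by
        unfold cell_sum_C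
        have e1 : σ * U * m - c₀ = (σ * U * m' - c₀) - (m' - m) * (σ * U) := by ring
        rw [e1, dvd_sub_left (Dvd.dvd.mul_right h1 _)]
      simp only [h2])
    (fun a => if (V : ℤ) ∣ a then (a / V).natAbs else 1)
    (by
      intro a _
      split_ifs with h
      · exact Int.natAbs_dvd_natAbs.2 (Int.ediv_dvd_of_dvd h)
      · exact one_dvd _)
  have e : ∑ x ∈ Cell4 M a₀ c₀ τ Y, mob (x.1 / V) * mob (x.2 / U) * mob (nn x.1 x.2 / S) *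
        ((jacobiSym (((x.2 / U).natAbs : ℕ) : ℤ) (x.1 / V).natAbs : ℤ) : ℝ) =
      ∑ a ∈ Icc (-(L : ℤ)) L, mob (a / V) * ∑ m ∈ (Icc 1 (L ^ 2)).filter (fun m => PP4 Y τ (σ * U) a m),
        mob m * ((if cell_sum_C M a₀ c₀ (σ * U) a m then (1 : ℝ) else 0) *
          ((jacobiSym (m : ℤ) (if (V : ℤ) ∣ a then (a / V).natAbs else 1) : ℤ) : ℝ) *
          gg M S (nn a₀ c₀) (-4 * (σ * U) * m + a ^ 2)) := by
    simp_rw [Finset.mul_sum]
    rw [Finset.sum_sigma']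
    rw [← Finset.sum_filter_add_sum_filter_not
      ((Icc (-(L : ℤ)) L).sigma fun a => (Icc 1 (L ^ 2)).filter (fun m => PP4 Y τ (σ * U) a m))
      (fun p => cell_sum_C M a₀ c₀ (σ * U) p.1 p.2)]
    have z : ∑ p ∈ ((Icc (-(L : ℤ)) L).sigma fun a => (Icc 1 (L ^ 2)).filter (fun m => PP4 Y τ (σ * U) a m)).filter
        (fun p => ¬ cell_sum_C M a₀ c₀ (σ * U) p.1 p.2),
        mob (p.1 / V) * (mob p.2 * ((if cell_sum_C M a₀ c₀ (σ * U) p.1 p.2 then (1 : ℝ) else 0) *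
          ((jacobiSym (p.2 : ℤ) (if (V : ℤ) ∣ p.1 then (p.1 / V).natAbs else 1) : ℤ) : ℝ) *
          gg M S (nn a₀ c₀) (-4 * (σ * U) * p.2 + p.1 ^ 2))) = 0 := by
      apply Finset.sum_eq_zero
      intro p hp
      rw [if_neg (Finset.mem_filter.1 hp).2]
      ring
    rw [z, add_zero]
    -- facts for a point of the cell
    have facts : ∀ x ∈ Cell4 M a₀ c₀ τ Y, x ∈ Reg4 Y ∧ sgb τ.1 x.1 ∧ sgb τ.2.1 x.2 ∧
        sgb τ.2.2 (nn x.1 x.2) ∧ (M : ℤ) ∣ x.1 - a₀ ∧ (M : ℤ) ∣ x.2 - c₀ ∧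
        σ * U * ((x.2 / U).natAbs : ℕ) = x.2 ∧ 1 ≤ (x.2 / U).natAbs ∧ (V : ℤ) ∣ x.1 ∧
        (S : ℤ) ∣ nn x.1 x.2 ∧ (M : ℤ) ∣ nn x.1 x.2 - nn a₀ c₀ := by
      intro x hx
      unfold Cell4 at hx
      rw [Finset.mem_filter] at hx
      obtain ⟨h1, ⟨h2, h3', h4⟩, h5, h6⟩ := hx
      have ds : (M : ℤ) ∣ nn x.1 x.2 - nn a₀ c₀ := by
        have : nn x.1 x.2 - nn a₀ c₀ = (x.1 - a₀) * (x.1 + a₀) - (x.2 - c₀) * 4 := by unfold nn; ring
        rw [this]; exact dvd_sub (Dvd.dvd.mul_right h5 _) (Dvd.dvd.mul_right h6 _)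
      have hu' : (U : ℤ) ∣ x.2 := by
        have := dvd_add (hUM'.trans h6) hu
        rwa [sub_add_cancel] at this
      have hv' : (V : ℤ) ∣ x.1 := by
        have := dvd_add (hVM'.trans h5) hv
        rwa [sub_add_cancel] at this
      have hs' : (S : ℤ) ∣ nn x.1 x.2 := by
        have := dvd_add (hSM'.trans ds) hs
        rwa [sub_add_cancel] at this
      obtain ⟨h7, h8⟩ := cell_sum_u _ U hU hu' τ.2.1 h3'
      rw [← hσdef] at h7
      exact ⟨h1, h2, h3', h4, h5, h6, h7, h8, hv', hs', ds⟩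
    refine Finset.sum_bij' (fun x _ => (⟨x.1, (x.2 / U).natAbs⟩ : Σ _ : ℤ, ℕ))
      (fun p _ => (p.1, σ * U * p.2)) ?_ ?_ ?_ ?_ ?_
    · intro x hx
      obtain ⟨h1, h2, h3', h4, h5, h6, h7, h8, -, -, -⟩ := facts x hx
      have hreg := h1
      unfold Reg4 Box4 at h1
      simp only [Finset.mem_filter, Finset.mem_product, Finset.mem_Icc] at h1
      obtain ⟨⟨⟨a1, a2⟩, b1, b2⟩, -⟩ := h1
      have hR := (cell_sum_reg Y hY0 x.1 x.2 (σ * U) (x.2 / U).natAbs h7).1 hreg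
      rw [Finset.mem_filter, Finset.mem_sigma, Finset.mem_filter, Finset.mem_Icc, Finset.mem_Icc]
      dsimp only
      refine ⟨⟨⟨?_, ?_⟩, ⟨h8, ?_⟩, hR.2.1, hR.2.2, h2, ?_, ?_⟩, ?_, h5⟩
      · linarith
      · linarith
      · have q1 : (x.2 / U).natAbs ≤ x.2.natAbs := Int.natAbs_ediv_le_natAbs _ _
        have q2 : (x.2.natAbs : ℤ) ≤ ((L ^ 2 : ℕ) : ℤ) := by
          rw [Int.natCast_natAbs, abs_le]
          constructor <;> linarith
        have q3 : x.2.natAbs ≤ L ^ 2 := by exact_mod_cast q2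
        exact q1.trans q3
      · rw [h7]; exact h3'
      · rw [h7]; exact h4
      · rw [h7]; exact h6
    · intro p hp
      rw [Finset.mem_filter, Finset.mem_sigma, Finset.mem_filter] at hp
      obtain ⟨⟨-, -, hP1, hP2, hP3, hP4, hP5⟩, hC1, hC2⟩ := hp
      unfold Cell4
      rw [Finset.mem_filter]
      dsimp only
      refine ⟨?_, ⟨hP3, hP4, hP5⟩, hC2, hC1⟩
      rw [cell_sum_reg Y hY0 p.1 (σ * U * p.2) (σ * U) p.2 rfl]
      exact ⟨(cell_sum_Gd M h3 p.1 (σ * U * p.2) a₀ c₀ hC2 hC1).2 hG0, hP1, hP2⟩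
    · intro x hx
      obtain ⟨-, -, -, -, -, -, h7, -, -, -, -⟩ := facts x hx
      dsimp only
      rw [h7]
    · intro p hp
      dsimp only
      have hU' : (U : ℤ) ≠ 0 := by exact_mod_cast hU.ne'
      have e1 : σ * U * (p.2 : ℤ) = U * (σ * p.2) := by ring
      rw [e1, Int.mul_ediv_cancel_left _ hU']
      have hn : (σ * (p.2 : ℤ)).natAbs = p.2 := by
        rcases hσ with h | h <;> rw [h] <;> simp
      rw [hn]
    · intro x hx
      obtain ⟨-, -, -, -, h5, h6, h7, -, hv', hs', ds⟩ := facts x hx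
      dsimp only
      have hC : cell_sum_C M a₀ c₀ (σ * U) x.1 (x.2 / U).natAbs := by
        unfold cell_sum_C
        rw [h7]
        exact ⟨h6, h5⟩
      have hmob : mob (((x.2 / U).natAbs : ℕ) : ℤ) = mob (x.2 / U) := by
        unfold mob; rw [Int.natAbs_natCast]
      have hnn : -4 * (σ * U) * (((x.2 / U).natAbs : ℕ) : ℤ) + x.1 ^ 2 = nn x.1 x.2 := by
        have : -4 * (σ * U) * (((x.2 / U).natAbs : ℕ) : ℤ) + x.1 ^ 2 = -4 * (σ * U * (((x.2 / U).natAbs : ℕ) : ℤ)) + x.1 ^ 2 := by ring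
        rw [this, h7]
        unfold nn; ring
      have hgg : gg M S (nn a₀ c₀) (nn x.1 x.2) = mob (nn x.1 x.2 / S) := by
        unfold gg; rw [if_pos ⟨hs', ds⟩]
      rw [if_pos hC, if_pos hv', hnn, hgg, hmob]
      ring
  rw [e]
  have hmob1 : ∀ n : ℤ, |mob n| ≤ 1 := by
    intro n
    unfold mob
    have h1 : |ArithmeticFunction.moebius n.natAbs| ≤ 1 := ArithmeticFunction.abs_moebius_le_one
    exact_mod_cast h1
  calc _ ≤ ∑ a ∈ Icc (-(L : ℤ)) L, |mob (a / V) * ∑ m ∈ (Icc 1 (L ^ 2)).filter (fun m => PP4 Y τ (σ * U) a m),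
        mob m * ((if cell_sum_C M a₀ c₀ (σ * U) a m then (1 : ℝ) else 0) *
          ((jacobiSym (m : ℤ) (if (V : ℤ) ∣ a then (a / V).natAbs else 1) : ℤ) : ℝ) *
          gg M S (nn a₀ c₀) (-4 * (σ * U) * m + a ^ 2))| := Finset.abs_sum_le_sum_abs _ _
    _ ≤ ∑ a ∈ Icc (-(L : ℤ)) L, |∑ m ∈ (Icc 1 (L ^ 2)).filter (fun m => PP4 Y τ (σ * U) a m),
        mob m * ((if cell_sum_C M a₀ c₀ (σ * U) a m then (1 : ℝ) else 0) *
          ((jacobiSym (m : ℤ) (if (V : ℤ) ∣ a then (a / V).natAbs else 1) : ℤ) : ℝ) *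
          gg M S (nn a₀ c₀) (-4 * (σ * U) * m + a ^ 2))| := by
        refine Finset.sum_le_sum fun a _ => ?_
        rw [abs_mul]
        exact mul_le_of_le_one_left (abs_nonneg _) (hmob1 _)
    _ ≤ ε / 216 * (L : ℝ) ^ 3 := key
    _ ≤ ε / 216 * (6 * Y) ^ 3 := by
        apply mul_le_mul_of_nonneg_left _ (by positivity)
        exact pow_le_pow_left₀ (Nat.cast_nonneg L) hL6 3
    _ = ε * Y ^ 3 := by ring
-- END cell_sum

variable (w2 : ℤ_[2] × ℤ_[2] → ℤ) (w3 : ℤ_[3] × ℤ_[3] → ℤ)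

/-- the root number of minimal non singular pairs, else `0` -/
noncomputable def wm (x : ℤ × ℤ) : ℝ :=
  if Minimal (Af x.1 x.2) (Bf x.1 x.2) ∧ disc (Af x.1 x.2) (Bf x.1 x.2) ≠ 0 then (rootNumber w2 w3 (Af x.1 x.2) (Bf x.1 x.2) : ℝ) else 0

-- BEGIN cell_bound
private theorem cell_bound_wm (w2 : ℤ_[2] × ℤ_[2] → ℤ) (w3 : ℤ_[3] × ℤ_[3] → ℤ) (h2 : LocalSign 2 w2) (h3 : LocalSign 3 w3)
    (x : ℤ × ℤ) : |wm w2 w3 x| ≤ 1 := by
  unfold wm
  split_ifs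
  · rcases rn_pm w2 w3 h2 h3 (Af x.1 x.2) (Bf x.1 x.2) with h | h <;> rw [h] <;> norm_num
  · simp

private theorem cell_bound_mob (n : ℤ) : |mob n| ≤ 1 := by
  unfold mob
  have h := ArithmeticFunction.abs_moebius_le_one (n := n.natAbs)
  exact_mod_cast h

private theorem cell_bound_jac (a : ℤ) (n : ℕ) : |((jacobiSym a n : ℤ) : ℝ)| ≤ 1 := by
  rcases jacobiSym.trichotomy a n with h | h | h <;> rw [h] <;> norm_num

private theorem cell_bound_sg (σ : Bool) (n n' : ℤ) (h : sgb σ n) (h' : sgb σ n') : n.sign = n'.sign := by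
  cases σ with
  | true =>
    simp only [sgb, if_true] at h h'
    rw [Int.sign_eq_one_of_pos h, Int.sign_eq_one_of_pos h']
  | false =>
    simp only [sgb, Bool.false_eq_true, if_false] at h h'
    rw [Int.sign_eq_neg_one_of_neg h, Int.sign_eq_neg_one_of_neg h']

private theorem cell_bound_ro (T : ℕ) (n : ℤ) : mob ((ro T n : ℕ) : ℤ) = mob (n / sm T n) := by
  unfold mob ro
  rw [Int.natAbs_natCast]

private theorem cell_bound_abs (a b c d : ℝ) (ha : |a| ≤ 1) (hb : |b| ≤ 1) (hc : |c| ≤ 1) (hd : |d| ≤ 1) :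
    |a * b * c * d| ≤ 1 := by
  rw [abs_mul, abs_mul, abs_mul]
  have h1 : |a| * |b| ≤ 1 := mul_le_one₀ ha (abs_nonneg _) hb
  have h2 : |a| * |b| * |c| ≤ 1 := mul_le_one₀ h1 (abs_nonneg _) hc
  exact mul_le_one₀ h2 (abs_nonneg _) hd

/-- T3. Copy of `Rn2.cell_bound`. -/
theorem cell_bound (h2 : LocalSign 2 w2) (h3 : LocalSign 3 w3) (T j : ℕ) (hT : 5 ≤ T) (hj : 1 ≤ j) :
    ∃ M : ℕ, 0 < M ∧ ∀ (a₀ c₀ : ℤ), ∀ ε : ℝ, 0 < ε → ∀ τ : Bool × Bool × Bool,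
      ∃ Y₀ : ℝ, ∀ Y : ℝ, Y₀ ≤ Y →
        |∑ x ∈ Cell4 M a₀ c₀ τ Y, wm w2 w3 x| ≤
          ε * Y ^ 3 + 2 * (((Cell4 M a₀ c₀ τ Y).filter (fun x => Exc4 T j x.1 x.2)).card : ℝ) := by
  obtain ⟨M, hM, hPM3, hid⟩ := ident w2 w3 h2 h3 T j hT hj
  have hPM : PP T (7 * j + 4) ∣ M := (Dvd.intro_left 3 rfl).trans hPM3
  have hM3 : 3 ∣ M := (Dvd.intro _ rfl).trans hPM3
  refine ⟨M, hM, ?_⟩
  intro a₀ c₀ ε hε τ
  have hwm := cell_bound_wm w2 w3 h2 h3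
  by_cases hx : ∃ a c : ℤ, Gd a c ∧ ¬ Exc4 T j a c ∧ (M : ℤ) ∣ a - a₀ ∧ (M : ℤ) ∣ c - c₀ ∧
      (sgb τ.1 a ∧ sgb τ.2.1 c ∧ sgb τ.2.2 (nn a c))
  · obtain ⟨a, c, hG, hE, ha, hc, hs1, hs2, hs3⟩ := hx
    -- the primes at most `T`
    have hpow : ∀ p : ℕ, p.Prime → p ≤ T → p ^ j ∣ M := by
      intro p hp hpT
      refine dvd_trans ?_ hPM
      unfold PP
      refine dvd_trans (pow_dvd_pow p (show j ≤ 7 * j + 4 by omega)) ?_
      exact Finset.dvd_prod_of_mem (fun p => p ^ (7 * j + 4))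
        (Finset.mem_filter.2 ⟨Finset.mem_range.2 (by omega), hp⟩)
    have hPP : PP T j ∣ M := by
      refine dvd_trans ?_ hPM
      unfold PP
      exact Finset.prod_dvd_prod_of_dvd _ _ (fun p _ => pow_dvd_pow p (by omega))
    have hE0 : ∀ a c : ℤ, ¬ Exc4 T j a c → a ≠ 0 ∧ c ≠ 0 ∧ nn a c ≠ 0 := by
      intro a c hE
      exact ⟨fun h => hE (Or.inl h), fun h => hE (Or.inr (Or.inl h)),
        fun h => hE (Or.inr (Or.inr (Or.inl h)))⟩
    obtain ⟨ha0, hc0, hn0⟩ := hE0 a c hE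
    have hEa : ∀ a c : ℤ, ¬ Exc4 T j a c → ∀ p : ℕ, p.Prime → p ≤ T → ¬ (p : ℤ) ^ j ∣ a := by
      intro a c hE p hp hpT h
      exact hE (Or.inr (Or.inr (Or.inr (Or.inr ⟨p, hp, hpT, Or.inl h⟩))))
    have hEc : ∀ a c : ℤ, ¬ Exc4 T j a c → ∀ p : ℕ, p.Prime → p ≤ T → ¬ (p : ℤ) ^ j ∣ c := by
      intro a c hE p hp hpT h
      exact hE (Or.inr (Or.inr (Or.inr (Or.inr ⟨p, hp, hpT, Or.inr (Or.inl h)⟩))))
    have hEn : ∀ a c : ℤ, ¬ Exc4 T j a c → ∀ p : ℕ, p.Prime → p ≤ T → ¬ (p : ℤ) ^ j ∣ nn a c := by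
      intro a c hE p hp hpT h
      exact hE (Or.inr (Or.inr (Or.inr (Or.inr ⟨p, hp, hpT, Or.inr (Or.inr h)⟩))))
    have hcn : ∀ a' c' a c : ℤ, (M : ℤ) ∣ a' - a → (M : ℤ) ∣ c' - c → (M : ℤ) ∣ nn a' c' - nn a c := by
      intro a' c' a c h h'
      have : nn a' c' - nn a c = (a' - a) * (a' + a) - (c' - c) * 4 := by
        unfold nn
        ring
      rw [this]
      exact dvd_sub (Dvd.dvd.mul_right h _) (Dvd.dvd.mul_right h' _)
    have haM : sm T a ∣ M := (sm_div T j a ha0 (hEa a c hE)).trans hPP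
    have hcM : sm T c ∣ M := (sm_div T j c hc0 (hEc a c hE)).trans hPP
    have hnM : sm T (nn a c) ∣ M := (sm_div T j (nn a c) hn0 (hEn a c hE)).trans hPP
    have haM' : ((sm T a : ℕ) : ℤ) ∣ M := by exact_mod_cast haM
    have hcM' : ((sm T c : ℕ) : ℤ) ∣ M := by exact_mod_cast hcM
    have hnM' : ((sm T (nn a c) : ℕ) : ℤ) ∣ M := by exact_mod_cast hnM
    have ha' : (M : ℤ) ∣ a₀ - a := by
      have := (dvd_neg (α := ℤ)).2 ha
      rwa [neg_sub] at this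
    have hc' : (M : ℤ) ∣ c₀ - c := by
      have := (dvd_neg (α := ℤ)).2 hc
      rwa [neg_sub] at this
    have hv1 : ((sm T a : ℕ) : ℤ) ∣ a₀ := by
      have := dvd_add (haM'.trans ha') (sm_basic T a ha0).2.1
      rwa [sub_add_cancel] at this
    have hu1 : ((sm T c : ℕ) : ℤ) ∣ c₀ := by
      have := dvd_add (hcM'.trans hc') (sm_basic T c hc0).2.1
      rwa [sub_add_cancel] at this
    have hs1' : ((sm T (nn a c) : ℕ) : ℤ) ∣ nn a₀ c₀ := by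
      have := dvd_add (hnM'.trans (hcn a₀ c₀ a c ha' hc')) (sm_basic T (nn a c) hn0).2.1
      rwa [sub_add_cancel] at this
    obtain ⟨Y₀, hY₀⟩ := cell_sum M (sm T c) (sm T a) (sm T (nn a c)) hM hM3
      (sm_basic T c hc0).1 (sm_basic T a ha0).1 (sm_basic T (nn a c) hn0).1
      hcM haM hnM a₀ c₀ hv1 hu1 hs1' ε hε τ
    refine ⟨max Y₀ 1, fun Y hY => ?_⟩
    have hY0 : Y₀ ≤ Y := le_trans (le_max_left _ _) hY
    have hsum := hY₀ Y hY0
    set g : ℤ × ℤ → ℝ := fun x => mob (x.1 / sm T a) * mob (x.2 / sm T c) *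
      mob (nn x.1 x.2 / sm T (nn a c)) *
        ((jacobiSym (((x.2 / sm T c).natAbs : ℕ) : ℤ) (x.1 / sm T a).natAbs : ℤ) : ℝ)
      with hg
    have hg1 : ∀ x, |g x| ≤ 1 := by
      intro x
      exact cell_bound_abs _ _ _ _ (cell_bound_mob _) (cell_bound_mob _) (cell_bound_mob _)
        (cell_bound_jac _ _)
    have hG1 : ∀ a c : ℤ, |mob (ro T a) * mob (ro T c) * mob (ro T (nn a c)) * (jj T a c : ℝ)| ≤ 1 :=
      fun a c => cell_bound_abs _ _ _ _ (cell_bound_mob _) (cell_bound_mob _) (cell_bound_mob _)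
        (cell_bound_jac _ _)
    -- the constant
    obtain ⟨Φ, hΦ, hval⟩ : ∃ Φ : ℝ, |Φ| ≤ 1 ∧ ∀ x ∈ Cell4 M a₀ c₀ τ Y, ¬ Exc4 T j x.1 x.2 →
        wm w2 w3 x = Φ * g x := by
      refine ⟨if Minimal (Af a c) (Bf a c) then (rootNumber w2 w3 (Af a c) (Bf a c) : ℝ) *
        (mob (ro T a) * mob (ro T c) * mob (ro T (nn a c)) * (jj T a c : ℝ)) else 0, ?_, ?_⟩
      · split_ifs
        · rw [abs_mul]
          have e1 : |(rootNumber w2 w3 (Af a c) (Bf a c) : ℝ)| = 1 := by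
            rcases rn_pm w2 w3 h2 h3 (Af a c) (Bf a c) with h | h <;> rw [h] <;> norm_num
          rw [e1, one_mul]
          exact hG1 a c
        · simp
      · intro x hxC hxE
        unfold Cell4 at hxC
        rw [Finset.mem_filter] at hxC
        obtain ⟨hxR, ⟨hx1, hx2, hx3⟩, hx4, hx5⟩ := hxC
        have hxG : Gd x.1 x.2 := by
          unfold Reg4 at hxR
          exact (Finset.mem_filter.1 hxR).2.1
        have hxa : (M : ℤ) ∣ x.1 - a := by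
          have := dvd_sub hx4 ha
          rwa [sub_sub_sub_cancel_right] at this
        have hxc : (M : ℤ) ∣ x.2 - c := by
          have := dvd_sub hx5 hc
          rwa [sub_sub_sub_cancel_right] at this
        obtain ⟨k1, k2, k3⟩ := hid x.1 x.2 a c hxG hG hxE hE hxa hxc (cell_bound_sg _ _ _ hx1 hs1)
          (cell_bound_sg _ _ _ hx2 hs2) (cell_bound_sg _ _ _ hx3 hs3)
        have ea : sm T x.1 = sm T a :=
          sm_congr T j M (fun p hp hpT => by exact_mod_cast hpow p hp hpT) _ _ hxa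
            (hEa x.1 x.2 hxE)
        have ec : sm T x.2 = sm T c :=
          sm_congr T j M (fun p hp hpT => by exact_mod_cast hpow p hp hpT) _ _ hxc
            (hEc x.1 x.2 hxE)
        have en : sm T (nn x.1 x.2) = sm T (nn a c) :=
          sm_congr T j M (fun p hp hpT => by exact_mod_cast hpow p hp hpT) _ _ (hcn x.1 x.2 a c hxa hxc)
            (hEn x.1 x.2 hxE)
        have hgx : mob (ro T x.1) * mob (ro T x.2) * mob (ro T (nn x.1 x.2)) *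
            (jj T x.1 x.2 : ℝ) = g x := by
          rw [hg, cell_bound_ro, cell_bound_ro, cell_bound_ro]
          simp only [ea, ec, en, jj, ro]
        rw [hgx] at k2 k3
        obtain ⟨q1, q2, q3⟩ := hE0 x.1 x.2 hxE
        have hd : disc (Af x.1 x.2) (Bf x.1 x.2) ≠ 0 := by
          rw [disc_eq _ _ hxG]
          exact neg_ne_zero.2 (mul_ne_zero (mul_ne_zero (pow_ne_zero 4 q2) (pow_ne_zero 2 q1)) q3)
        unfold wm
        by_cases hmin : Minimal (Af x.1 x.2) (Bf x.1 x.2)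
        · rw [if_pos ⟨hmin, hd⟩, if_pos (k1.1 hmin), ← k2]
          have : (rootNumber w2 w3 (Af x.1 x.2) (Bf x.1 x.2) : ℝ) * g x * g x =
              (rootNumber w2 w3 (Af x.1 x.2) (Bf x.1 x.2) : ℝ) * g x ^ 2 := by ring
          rw [this, k3, mul_one]
        · rw [if_neg (fun h => hmin h.1), if_neg (fun h => hmin (k1.2 h)), zero_mul]
    -- the sum
    have e1 : ∑ x ∈ Cell4 M a₀ c₀ τ Y, wm w2 w3 x =
        Φ * ∑ x ∈ Cell4 M a₀ c₀ τ Y, g x + ∑ x ∈ Cell4 M a₀ c₀ τ Y, (wm w2 w3 x - Φ * g x) := by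
      rw [Finset.mul_sum, ← Finset.sum_add_distrib]
      exact Finset.sum_congr rfl (fun x _ => by ring)
    have e2 : ∑ x ∈ Cell4 M a₀ c₀ τ Y, (wm w2 w3 x - Φ * g x) =
        ∑ x ∈ (Cell4 M a₀ c₀ τ Y).filter (fun x => Exc4 T j x.1 x.2), (wm w2 w3 x - Φ * g x) := by
      rw [Finset.sum_filter_of_ne]
      intro x hx hne
      by_contra hE'
      exact hne (by rw [hval x hx hE', sub_self])
    rw [e1, e2]
    have b1 : |Φ * ∑ x ∈ Cell4 M a₀ c₀ τ Y, g x| ≤ ε * Y ^ 3 := by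
      rw [abs_mul]
      calc |Φ| * |∑ x ∈ Cell4 M a₀ c₀ τ Y, g x| ≤ 1 * |∑ x ∈ Cell4 M a₀ c₀ τ Y, g x| :=
            mul_le_mul_of_nonneg_right hΦ (abs_nonneg _)
        _ ≤ ε * Y ^ 3 := by rw [one_mul]; exact hsum
    have b2 : |∑ x ∈ (Cell4 M a₀ c₀ τ Y).filter (fun x => Exc4 T j x.1 x.2), (wm w2 w3 x - Φ * g x)| ≤
        2 * (((Cell4 M a₀ c₀ τ Y).filter (fun x => Exc4 T j x.1 x.2)).card : ℝ) := by
      refine (Finset.abs_sum_le_sum_abs _ _).trans ?_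
      have : ∀ x ∈ (Cell4 M a₀ c₀ τ Y).filter (fun x => Exc4 T j x.1 x.2), |wm w2 w3 x - Φ * g x| ≤ 2 := by
        intro x _
        have h1 := hwm x
        have h2' : |Φ * g x| ≤ 1 := by
          rw [abs_mul]
          exact mul_le_one₀ hΦ (abs_nonneg _) (hg1 x)
        have h3' := abs_sub (wm w2 w3 x) (Φ * g x)
        linarith
      have h5 := Finset.sum_le_card_nsmul _ _ _ this
      rw [nsmul_eq_mul] at h5
      linarith
    exact (abs_add_le _ _).trans (add_le_add b1 b2)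
  · refine ⟨1, fun Y hY => ?_⟩
    have hall : ∀ x ∈ Cell4 M a₀ c₀ τ Y, Exc4 T j x.1 x.2 := by
      intro x hxC
      by_contra hE
      unfold Cell4 at hxC
      rw [Finset.mem_filter] at hxC
      obtain ⟨hxR, hx3, hx4, hx5⟩ := hxC
      have hxG : Gd x.1 x.2 := by
        unfold Reg4 at hxR
        exact (Finset.mem_filter.1 hxR).2.1
      exact hx ⟨x.1, x.2, hxG, hE, hx4, hx5, hx3⟩
    rw [Finset.filter_true_of_mem hall]
    refine (Finset.abs_sum_le_sum_abs _ _).trans ?_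
    have h5 := Finset.sum_le_card_nsmul (Cell4 M a₀ c₀ τ Y) (fun x => |wm w2 w3 x|) 1 (fun x _ => hwm x)
    rw [nsmul_eq_mul, mul_one] at h5
    have h6 : 0 ≤ ε * Y ^ 3 := by positivity
    have h7 : (0 : ℝ) ≤ ((Cell4 M a₀ c₀ τ Y).card : ℝ) := Nat.cast_nonneg _
    linarith
-- END cell_bound

-- BEGIN split
private theorem split_res (M : ℕ) (hM : 0 < M) (z : ℤ) : ∃ a ∈ range M, (M : ℤ) ∣ z - (a : ℤ) ∧
    ∀ a' ∈ range M, (M : ℤ) ∣ z - (a' : ℤ) → a' = a := by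
  have hM' : (0 : ℤ) < M := by exact_mod_cast hM
  have h0 := Int.emod_nonneg z hM'.ne'
  have h1 := Int.emod_lt_of_pos z hM'
  have h2 : ((z % (M : ℤ)).toNat : ℤ) = z % M := Int.toNat_of_nonneg h0
  refine ⟨(z % (M : ℤ)).toNat, mem_range.2 (by omega), ?_, ?_⟩
  · rw [h2]
    exact ⟨z / M, by have := Int.emod_add_mul_ediv z M; linarith⟩
  · intro a' ha' hd
    have h3 := mem_range.1 ha'
    have h4 : ((a' : ℤ)) % M = z % M := by
      apply Int.ModEq.symm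
      exact (Int.modEq_iff_dvd.2 (by rw [← dvd_neg]; simpa using hd))
    have h5 : ((a' : ℤ)) % M = a' := Int.emod_eq_of_lt (by omega) (by omega)
    omega

private theorem split_one (n : ℤ) (hn : n ≠ 0) : ∃ s : Bool, sgb s n ∧ ∀ s' : Bool, sgb s' n → s' = s := by
  rcases lt_or_gt_of_ne hn with h1 | h1
  · refine ⟨false, ?_, ?_⟩
    · simpa [sgb] using h1
    · intro s' h2
      cases s'
      · rfl
      · have h3 : 0 < n := by simpa [sgb] using h2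
        omega
  · refine ⟨true, ?_, ?_⟩
    · simpa [sgb] using h1
    · intro s' h2
      cases s'
      · have h3 : n < 0 := by simpa [sgb] using h2
        omega
      · rfl

private theorem split_sg (a c : ℤ) (hg : Gd a c) (h : disc (Af a c) (Bf a c) ≠ 0) :
    ∃ τ : Bool × Bool × Bool, (sgb τ.1 a ∧ sgb τ.2.1 c ∧ sgb τ.2.2 (nn a c)) ∧
      ∀ τ' : Bool × Bool × Bool, (sgb τ'.1 a ∧ sgb τ'.2.1 c ∧ sgb τ'.2.2 (nn a c)) → τ' = τ := by
  have hu : a ≠ 0 := by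
    intro h0; apply h; rw [disc_eq a c hg, h0]; ring
  have hv : c ≠ 0 := by
    intro h0; apply h; rw [disc_eq a c hg, h0]; ring
  have hs : nn a c ≠ 0 := by
    intro h0; apply h; rw [disc_eq a c hg, h0]; ring
  obtain ⟨s1, a1, b1⟩ := split_one _ hu
  obtain ⟨s2, a2, b2⟩ := split_one _ hv
  obtain ⟨s3, a3, b3⟩ := split_one _ hs
  refine ⟨(s1, s2, s3), ⟨a1, a2, a3⟩, ?_⟩
  rintro ⟨t1, t2, t3⟩ ⟨c1, c2, c3⟩
  rw [b1 t1 c1, b2 t2 c2, b3 t3 c3]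

/-- T4. Copy of `Rn2.split`. The pairs of `Reg4 Y` with `f ≠ 0` have `a, c, n ≠ 0` (`disc_eq`) and are in exactly one cell with `0 ≤ a₀, c₀ < M`. -/
theorem split (M : ℕ) (hM : 0 < M) (Y : ℝ) (f : ℤ × ℤ → ℝ)
    (hf : ∀ x : ℤ × ℤ, disc (Af x.1 x.2) (Bf x.1 x.2) = 0 → f x = 0) :
    ∑ x ∈ Reg4 Y, f x = ∑ a ∈ range M, ∑ c ∈ range M, ∑ τ : Bool × Bool × Bool, ∑ x ∈ Cell4 M a c τ Y, f x := by
  have key : ∀ x ∈ Reg4 Y, f x = ∑ a ∈ range M, ∑ c ∈ range M, ∑ τ : Bool × Bool × Bool,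
        (if (sgb τ.1 x.1 ∧ sgb τ.2.1 x.2 ∧ sgb τ.2.2 (nn x.1 x.2)) ∧
          (M : ℤ) ∣ x.1 - (a : ℤ) ∧ (M : ℤ) ∣ x.2 - (c : ℤ) then f x else 0) := by
    intro x hx
    have hg : Gd x.1 x.2 := (mem_filter.1 hx).2.1
    by_cases hd : disc (Af x.1 x.2) (Bf x.1 x.2) = 0
    · simp [hf x hd]
    · obtain ⟨s0, hs0, hs1⟩ := split_sg x.1 x.2 hg hd
      obtain ⟨a0, ha0, ha1, ha2⟩ := split_res M hM x.1
      obtain ⟨c0, hc0, hc1, hc2⟩ := split_res M hM x.2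
      rw [Finset.sum_eq_single_of_mem a0 ha0, Finset.sum_eq_single_of_mem c0 hc0,
        Finset.sum_eq_single_of_mem s0 (mem_univ _), if_pos ⟨hs0, ha1, hc1⟩]
      · intro s _ hne
        exact if_neg (fun h => hne (hs1 s h.1))
      · intro c hc hne
        apply Finset.sum_eq_zero; intro s _
        exact if_neg (fun h => hne (hc2 c hc h.2.2))
      · intro a ha hne
        apply Finset.sum_eq_zero; intro c _
        apply Finset.sum_eq_zero; intro s _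
        exact if_neg (fun h => hne (ha2 a ha h.2.1))
  rw [Finset.sum_congr rfl key, Finset.sum_comm]
  apply Finset.sum_congr rfl; intro a _
  rw [Finset.sum_comm]
  apply Finset.sum_congr rfl; intro c _
  rw [Finset.sum_comm]
  apply Finset.sum_congr rfl; intro s _
  rw [Cell4, Finset.sum_filter]
-- END split

-- BEGIN main_sum
private theorem main_sum_res (M : ℕ) (hM : 0 < M) (x : ℤ) (a : ℕ) (ha : a < M) (h : (M : ℤ) ∣ x - a) :
    (x % M).toNat = a := by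
  have h1 : x % M = (a : ℤ) := by
    have h2 : x % M = (a : ℤ) % M := (Int.modEq_iff_dvd.2 h).symm
    rw [h2]
    exact Int.emod_eq_of_lt (by omega) (by omega)
  rw [h1]
  simp

private theorem main_sum_sg (s : Bool) (n : ℤ) (h : sgb s n) : decide (0 < n) = s := by
  unfold sgb at h
  rcases s with _ | _
  · simp only [Bool.false_eq_true, if_false] at h
    simp only [decide_eq_false_iff_not, not_lt]
    exact h.le
  · simp only [if_true] at h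
    simpa using h

private theorem main_sum_exc (M : ℕ) (hM : 0 < M) (Y : ℝ) (T j : ℕ) :
    ∑ a ∈ range M, ∑ c ∈ range M, ∑ τ : Bool × Bool × Bool,
      (((Cell4 M a c τ Y).filter (fun x => Exc4 T j x.1 x.2)).card : ℝ) ≤
        (((Box4 Y).filter (fun x => Exc4 T j x.1 x.2)).card : ℝ) := by
  set S := (Box4 Y).filter (fun x => Exc4 T j x.1 x.2) with hS
  set i : ℤ × ℤ → ℕ × ℕ × (Bool × Bool × Bool) := fun x => ((x.1 % M).toNat, (x.2 % M).toNat, (decide (0 < x.1), decide (0 < x.2), decide (0 < nn x.1 x.2))) with hi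
  set Q : Finset (ℕ × ℕ × (Bool × Bool × Bool)) := range M ×ˢ (range M ×ˢ (Finset.univ : Finset (Bool × Bool × Bool))) with hQ
  have hMZ : (0 : ℤ) < M := by exact_mod_cast hM
  have hlt : ∀ z : ℤ, (z % M).toNat < M := by
    intro z
    have h1 := Int.emod_lt_of_pos z hMZ
    have h2 := Int.emod_nonneg z hMZ.ne'
    omega
  have hmap : Set.MapsTo i (S : Set (ℤ × ℤ)) (Q : Set (ℕ × ℕ × (Bool × Bool × Bool))) := by
    intro x _
    rw [Finset.mem_coe, hQ, Finset.mem_product, Finset.mem_product]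
    exact ⟨Finset.mem_range.2 (hlt _), Finset.mem_range.2 (hlt _), Finset.mem_univ _⟩
  have h1 := Finset.card_eq_sum_card_fiberwise hmap
  have h2 : ∑ a ∈ range M, ∑ c ∈ range M, ∑ τ : Bool × Bool × Bool,
      ((Cell4 M a c τ Y).filter (fun x => Exc4 T j x.1 x.2)).card =
      ∑ b ∈ Q, ((Cell4 M b.1 b.2.1 b.2.2 Y).filter (fun x => Exc4 T j x.1 x.2)).card := by
    rw [hQ, Finset.sum_product]
    refine Finset.sum_congr rfl fun a _ => ?_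
    rw [Finset.sum_product]
  have h3 : ∑ b ∈ Q, ((Cell4 M b.1 b.2.1 b.2.2 Y).filter (fun x => Exc4 T j x.1 x.2)).card ≤ S.card := by
    rw [h1]
    refine Finset.sum_le_sum fun b hb => Finset.card_le_card fun x hx => ?_
    obtain ⟨hx1, hx2⟩ := Finset.mem_filter.1 hx
    rw [hQ, Finset.mem_product, Finset.mem_product, Finset.mem_range, Finset.mem_range] at hb
    unfold Cell4 at hx1
    obtain ⟨hx3, hx4, hx5, hx6⟩ := Finset.mem_filter.1 hx1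
    refine Finset.mem_filter.2 ⟨Finset.mem_filter.2 ⟨?_, hx2⟩, ?_⟩
    · unfold Reg4 at hx3
      exact (Finset.mem_filter.1 hx3).1
    · rw [hi]
      refine Prod.ext (main_sum_res M hM _ _ hb.1 hx5) (Prod.ext (main_sum_res M hM _ _ hb.2.1 hx6) ?_)
      show (decide (0 < x.1), decide (0 < x.2), decide (0 < nn x.1 x.2)) = b.2.2
      rw [main_sum_sg _ _ hx4.1, main_sum_sg _ _ hx4.2.1, main_sum_sg _ _ hx4.2.2]
  rw [← h2] at h3
  exact_mod_cast h3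

private theorem main_sum_abs (h2 : LocalSign 2 w2) (h3 : LocalSign 3 w3) (x : ℤ × ℤ) : |wm w2 w3 x| ≤ 1 := by
  unfold wm
  split_ifs
  · rcases rn_pm w2 w3 h2 h3 (Af x.1 x.2) (Bf x.1 x.2) with h | h
    · rw [h]
      norm_num
    · rw [h]
      norm_num
  · norm_num

/-- T5. Copy of `Rn2.main_sum`: `8 M²` cells. -/
theorem main_sum (h2 : LocalSign 2 w2) (h3 : LocalSign 3 w3) (ε : ℝ) (hε : 0 < ε) :
    ∃ Y₀ : ℝ, ∀ Y : ℝ, Y₀ ≤ Y → |∑ x ∈ PR4 Y, (rootNumber w2 w3 (Af x.1 x.2) (Bf x.1 x.2) : ℝ)| ≤ ε * Y ^ 3 := by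
  obtain ⟨T₀, hT₀⟩ := exists_nat_ge (5120 / ε)
  set T : ℕ := T₀ + 5 with hT
  have hT5 : 5 ≤ T := by omega
  have hTpos : (0 : ℝ) < T := by
    have : 0 < T := by omega
    exact_mod_cast this
  have hTε : 2 * (320 / (T : ℝ)) ≤ ε / 8 := by
    have h4 : 5120 / ε ≤ (T : ℝ) := by
      rw [hT]
      push_cast
      linarith
    rw [div_le_iff₀ hε] at h4
    rw [mul_div_assoc', div_le_iff₀ hTpos]
    linarith
  obtain ⟨j₀, hj₀⟩ := pow_unbounded_of_one_lt (4736 * T / ε) (by norm_num : (1 : ℝ) < 2)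
  set j : ℕ := j₀ + 1 with hj
  have hjε : 2 * (296 * T / (2 : ℝ) ^ j) ≤ ε / 8 := by
    have h4 : (2 : ℝ) ^ j₀ ≤ 2 ^ j := pow_le_pow_right₀ (by norm_num) (by omega)
    have h5 : 4736 * T / ε ≤ (2 : ℝ) ^ j := by linarith
    rw [div_le_iff₀ hε] at h5
    rw [mul_div_assoc', div_le_iff₀ (by positivity)]
    linarith
  obtain ⟨M, hM, hcell⟩ := cell_bound w2 w3 h2 h3 T j hT5 (by omega)
  have hMR : (0 : ℝ) < M := by exact_mod_cast hM
  set e : ℝ := ε / (64 * M ^ 2) with he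
  have he0 : 0 < e := by positivity
  have hev : ∀ᶠ Y : ℝ in atTop, ∀ a ∈ range M, ∀ c ∈ range M, ∀ (τ : Bool × Bool × Bool),
      |∑ x ∈ Cell4 M a c τ Y, wm w2 w3 x| ≤
        e * Y ^ 3 + 2 * (((Cell4 M a c τ Y).filter (fun x => Exc4 T j x.1 x.2)).card : ℝ) := by
    refine (Filter.eventually_all_finset _).2 fun a _ => (Filter.eventually_all_finset _).2 fun c _ =>
      Filter.eventually_all.2 fun τ => ?_
    obtain ⟨Y₀, hY₀⟩ := hcell a c e he0 τ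
    exact Filter.eventually_atTop.2 ⟨Y₀, hY₀⟩
  obtain ⟨Y₁, hY₁⟩ := Filter.eventually_atTop.1 hev
  refine ⟨max Y₁ (max 1 (80 / ε)), fun Y hY => ?_⟩
  have hYY1 : Y₁ ≤ Y := (le_max_left _ _).trans hY
  have hY1 : 1 ≤ Y := ((le_max_left _ _).trans (le_max_right _ _)).trans hY
  have hY2 : 80 / ε ≤ Y := ((le_max_right _ _).trans (le_max_right _ _)).trans hY
  have hY0 : 0 < Y := by linarith
  have hb := hY₁ Y hYY1
  have hsum : ∑ x ∈ PR4 Y, (rootNumber w2 w3 (Af x.1 x.2) (Bf x.1 x.2) : ℝ) = ∑ x ∈ Reg4 Y, wm w2 w3 x := by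
    unfold PR4
    rw [Finset.sum_filter]
    rfl
  have hsp := split M hM Y (wm w2 w3) (by
    intro x hx
    unfold wm
    rw [if_neg]
    rintro ⟨-, h⟩
    exact h hx)
  rw [hsum, hsp]
  have hs2 : |∑ a ∈ range M, ∑ c ∈ range M, ∑ τ : Bool × Bool × Bool, ∑ x ∈ Cell4 M a c τ Y, wm w2 w3 x| ≤
      ∑ a ∈ range M, ∑ c ∈ range M, ∑ τ : Bool × Bool × Bool,
        (e * Y ^ 3 + 2 * (((Cell4 M a c τ Y).filter (fun x => Exc4 T j x.1 x.2)).card : ℝ)) := by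
    refine (Finset.abs_sum_le_sum_abs _ _).trans (Finset.sum_le_sum fun a ha => ?_)
    refine (Finset.abs_sum_le_sum_abs _ _).trans (Finset.sum_le_sum fun c hc => ?_)
    refine (Finset.abs_sum_le_sum_abs _ _).trans (Finset.sum_le_sum fun τ _ => ?_)
    exact hb a ha c hc τ
  have hs3 : ∑ a ∈ range M, ∑ c ∈ range M, ∑ τ : Bool × Bool × Bool,
        (e * Y ^ 3 + 2 * (((Cell4 M a c τ Y).filter (fun x => Exc4 T j x.1 x.2)).card : ℝ)) =
      8 * M ^ 2 * (e * Y ^ 3) + 2 * ∑ a ∈ range M, ∑ c ∈ range M, ∑ τ : Bool × Bool × Bool,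
        (((Cell4 M a c τ Y).filter (fun x => Exc4 T j x.1 x.2)).card : ℝ) := by
    simp only [Finset.sum_add_distrib, ← Finset.mul_sum, Finset.sum_const, Finset.card_univ, Fintype.card_prod, Fintype.card_bool,
      nsmul_eq_mul, Finset.card_range]
    push_cast
    ring
  have hs4 := main_sum_exc M hM Y T j
  have hs5 := exc_total Y hY1 T j (by omega)
  have hs6 : 8 * (M : ℝ) ^ 2 * (e * Y ^ 3) = ε / 8 * Y ^ 3 := by
    rw [he]
    field_simp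
    ring
  have hY4 : 0 < Y ^ 3 := by positivity
  have hY5 : 0 < Y ^ 2 := by positivity
  have hs7 : 40 * Y ^ 2 ≤ ε / 2 * Y ^ 3 := by
    rw [div_le_iff₀ hε] at hY2
    nlinarith
  have hs8 : 2 * ((320 / (T : ℝ) + 296 * T / 2 ^ j) * Y ^ 3) ≤ ε / 4 * Y ^ 3 := by
    nlinarith
  rw [hs3] at hs2
  rw [hs6] at hs2
  have hs9 : 0 ≤ ε / 8 * Y ^ 3 := by positivity
  linarith
-- END main_sum

-- BEGIN final
private theorem final_count (h2 : LocalSign 2 w2) (h3 : LocalSign 3 w3) (F : Finset (ℤ × ℤ)) :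
    ∑ E ∈ F, (rootNumber w2 w3 E.1 E.2 : ℝ) =
      2 * ((F.filter (fun E => rootNumber w2 w3 E.1 E.2 = 1)).card : ℝ) - F.card := by
  have h1 : ∀ E ∈ F, (rootNumber w2 w3 E.1 E.2 : ℝ) =
      2 * (if rootNumber w2 w3 E.1 E.2 = 1 then (1 : ℝ) else 0) - 1 := by
    intro E _
    rcases rn_pm w2 w3 h2 h3 E.1 E.2 with h | h
    · rw [if_pos h, h]
      norm_num
    · rw [if_neg (by rw [h]; norm_num), h]
      norm_num
  rw [Finset.sum_congr rfl h1, Finset.sum_sub_distrib, ← Finset.mul_sum, Finset.sum_boole,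
    Finset.sum_const, nsmul_eq_mul, mul_one]

private theorem final_abs (h2 : LocalSign 2 w2) (h3 : LocalSign 3 w3) (A B : ℤ) :
    |(rootNumber w2 w3 A B : ℝ)| ≤ 1 := by
  rcases rn_pm w2 w3 h2 h3 A B with h | h
  · rw [h]
    norm_num
  · rw [h]
    norm_num

/-- T6. Copy of `Rnt.final`, `Y = X^(1/12)`: `fam_sum` for `f = rootNumber` and `f = 1`; `main_sum`, `low`. -/
theorem final (h2 : LocalSign 2 w2) (h3 : LocalSign 3 w3) :
    Tendsto (fun X : ℝ => ({E ∈ Fam4 X | rootNumber w2 w3 E.1 E.2 = 1}.ncard : ℝ) / (Fam4 X).ncard) atTop (𝓝 (1 / 2)) := by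
  rw [Metric.tendsto_atTop]
  intro ε hε
  set e : ℝ := ε / 16000 with he
  have hepos : 0 < e := by positivity
  obtain ⟨Y₁, hY₁⟩ := main_sum w2 w3 h2 h3 e hepos
  obtain ⟨Y₂, hY₂⟩ := low
  set Z : ℝ := max (max Y₁ Y₂) (max 1280000 (160 / e)) with hZ
  have hZ384 : 1280000 ≤ Z := (le_max_left _ _).trans (le_max_right _ _)
  refine ⟨Z ^ 12, fun X hX => ?_⟩
  have hZpos : (0 : ℝ) < Z := by linarith
  have hX0 : 0 < X := lt_of_lt_of_le (by positivity) hX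
  set Y : ℝ := X ^ ((1 : ℝ) / 12) with hYdef
  have hYpos : 0 < Y := Real.rpow_pos_of_pos hX0 _
  have hY6 : Y ^ 12 = X := by
    rw [hYdef, ← Real.rpow_natCast, ← Real.rpow_mul hX0.le]
    norm_num
  have hZY : Z ≤ Y := by
    rw [← hY6] at hX
    exact le_of_pow_le_pow_left₀ (by norm_num) hYpos.le hX
  have hYZ1 : Y₁ ≤ Y := ((le_max_left _ _).trans (le_max_left _ _)).trans hZY
  have hYZ2 : Y₂ ≤ Y := ((le_max_right _ _).trans (le_max_left _ _)).trans hZY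
  have hY384 : 1280000 ≤ Y := hZ384.trans hZY
  have hYe : 160 / e ≤ Y := ((le_max_right _ _).trans (le_max_right _ _)).trans hZY
  have hY1 : 1 ≤ Y := by linarith
  obtain ⟨F, hF, hsum⟩ := fam_sum Y hY1
  rw [hY6] at hF
  have hc1 : (Fam4 X).ncard = F.card := by
    rw [← hF, Set.ncard_coe_finset]
  have hc2 : {E ∈ Fam4 X | rootNumber w2 w3 E.1 E.2 = 1}.ncard =
      (F.filter (fun E => rootNumber w2 w3 E.1 E.2 = 1)).card := by
    rw [← Set.ncard_coe_finset]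
    congr 1
    ext E
    rw [← hF]
    simp
  have hs1 := hsum (fun E => (rootNumber w2 w3 E.1 E.2 : ℝ)) (fun E => final_abs w2 w3 h2 h3 _ _)
  have hs2 := hsum (fun _ => (1 : ℝ)) (fun E => by simp)
  have hs3 := hY₁ Y hYZ1
  have hs4 := hY₂ Y hYZ2
  rw [Finset.sum_const, Finset.sum_const, nsmul_eq_mul, nsmul_eq_mul, mul_one, mul_one] at hs2
  have hcnt := final_count w2 w3 h2 h3 F
  set P : ℝ := ∑ x ∈ PR4 Y, (rootNumber w2 w3 (Af x.1 x.2) (Bf x.1 x.2) : ℝ) with hP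
  set S : ℝ := ∑ E ∈ F, (rootNumber w2 w3 E.1 E.2 : ℝ) with hS
  have hs1' : |S - P / 2| ≤ 80 * Y ^ 2 := hs1
  have hYY : 0 < Y ^ 2 := by positivity
  have hY2 : 80 * Y ^ 2 ≤ Y ^ 3 / 16000 := by nlinarith
  have hYe2 : 80 * Y ^ 2 ≤ e / 2 * Y ^ 3 := by
    have h5 : 160 ≤ e * Y := by
      rw [div_le_iff₀ hepos] at hYe
      linarith
    nlinarith
  have hFlow : Y ^ 3 / 16000 ≤ (F.card : ℝ) := by
    have h6 := (abs_le.1 hs2).1
    linarith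
  have hSle : |S| ≤ e * Y ^ 3 := by
    have h7 : |S| ≤ |S - P / 2| + |P / 2| := by
      have h8 := abs_add_le (S - P / 2) (P / 2)
      rwa [sub_add_cancel] at h8
    have h9 : |P / 2| = |P| / 2 := by
      rw [abs_div, abs_of_pos (by norm_num : (0 : ℝ) < 2)]
    rw [h9] at h7
    linarith
  have hY3 : 0 < Y ^ 3 := by positivity
  have hFpos : 0 < (F.card : ℝ) := lt_of_lt_of_le (by positivity) hFlow
  rw [hc1, hc2, Real.dist_eq]
  have hq : (((F.filter (fun E => rootNumber w2 w3 E.1 E.2 = 1)).card : ℝ)) / (F.card : ℝ) - 1 / 2 =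
      S / (2 * F.card) := by
    rw [hcnt]
    field_simp
  rw [hq, abs_div, abs_of_pos (by positivity : (0 : ℝ) < 2 * F.card), div_lt_iff₀ (by positivity)]
  have h9 : e * Y ^ 3 < ε * (2 * (Y ^ 3 / 16000)) := by
    rw [he]
    nlinarith [mul_pos hε hY3]
  have h10 : ε * (2 * (Y ^ 3 / 16000)) ≤ ε * (2 * F.card) := by
    apply mul_le_mul_of_nonneg_left _ hε.le
    linarith
  linarith
-- END final

end Rn4
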