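import Pool.Agent.Rnt.Defs

/-!
# Root numbers of elliptic curves over `ℚ` with a rational point of order 4 (MP_b8563d_nt): definitions

`disc`, `wp`, `LocalSign`, `rootNumber`, `Minimal` are those of `Pool.Agent.Rnt.Defs`.
-/

set_option autoImplicit false

namespace Rn4

open Finset Filter Topology Rnt

/-- The elliptic curves over `ℚ` with a rational point of order `4` and of naive height at most `X`, up to isomorphism: the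
pairs `(A, B)` with `Minimal A B`, `4A³ + 27B² ≠ 0`, `max(4|A|³, 27B²) ≤ X` such that `y² = x³ + Ax + B` has rational points
`(x, y)`, `y ≠ 0`, and `(r, 0)` such that the tangent line at `(x, y)` passes through `(r, 0)`, that is `2(x, y) = (r, 0)`. -/
def Fam4 (X : ℝ) : Set (ℤ × ℤ) :=
  {E | Minimal E.1 E.2 ∧ disc E.1 E.2 ≠ 0 ∧
    (∃ x y r : ℚ, y ^ 2 = x ^ 3 + E.1 * x + E.2 ∧ y ≠ 0 ∧ r ^ 3 + E.1 * r + E.2 = 0 ∧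
      2 * y ^ 2 = (3 * x ^ 2 + E.1) * (x - r)) ∧
    4 * |(E.1 : ℝ)| ^ 3 ≤ X ∧ 27 * (E.2 : ℝ) ^ 2 ≤ X}

/-! ## Auxiliary definitions: the point is `(r + c, ac)`, `3r + 2c = a²` -/

/-- admissible pairs: `3 ∣ a² - 2c` -/
def Gd (a c : ℤ) : Prop := (3 : ℤ) ∣ a ^ 2 - 2 * c

/-- `r = (a² - 2c) / 3` -/
def rr (a c : ℤ) : ℤ := (a ^ 2 - 2 * c) / 3

/-- `A = c² - 3r²` -/
def Af (a c : ℤ) : ℤ := c ^ 2 - 3 * rr a c ^ 2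

/-- `B = 2r³ - rc²` -/
def Bf (a c : ℤ) : ℤ := 2 * rr a c ^ 3 - rr a c * c ^ 2

/-- `n = a² - 4c` -/
def nn (a c : ℤ) : ℤ := a ^ 2 - 4 * c

theorem three_rr (a c : ℤ) (h : Gd a c) : 3 * rr a c = a ^ 2 - 2 * c := Int.mul_ediv_cancel' h

theorem Bf_eq (a c : ℤ) : Bf a c = BB (Af a c) (rr a c) := by
  unfold Bf BB Af; ring

theorem disc_eq (a c : ℤ) (h : Gd a c) : disc (Af a c) (Bf a c) = -(c ^ 4 * a ^ 2 * nn a c) := by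
  have h3 := three_rr a c h
  have h4 : disc (Af a c) (Bf a c) = c ^ 4 * (2 * c - 3 * rr a c) * (2 * c + 3 * rr a c) := by
    unfold disc Af Bf; ring
  rw [h4, h3]
  unfold nn; ring

/-- exceptional pairs -/
def Exc4 (T j : ℕ) (a c : ℤ) : Prop :=
  a = 0 ∨ c = 0 ∨ nn a c = 0 ∨
  (∃ p : ℕ, p.Prime ∧ T < p ∧ (((p : ℤ) ∣ a ∧ (p : ℤ) ∣ c) ∨ (p : ℤ) ^ 2 ∣ a ∨ (p : ℤ) ^ 2 ∣ c ∨ (p : ℤ) ^ 2 ∣ nn a c)) ∨
  (∃ p : ℕ, p.Prime ∧ p ≤ T ∧ ((p : ℤ) ^ j ∣ a ∨ (p : ℤ) ^ j ∣ c ∨ (p : ℤ) ^ j ∣ nn a c))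

/-- the box `|a| ≤ 3Y`, `|c| ≤ 2Y²` -/
noncomputable def Box4 (Y : ℝ) : Finset (ℤ × ℤ) := (Icc (-⌊3 * Y⌋) ⌊3 * Y⌋) ×ˢ (Icc (-⌊2 * Y ^ 2⌋) ⌊2 * Y ^ 2⌋)

open Classical in
/-- The admissible pairs `(a, c)` of height at most `Y¹²`. -/
noncomputable def Reg4 (Y : ℝ) : Finset (ℤ × ℤ) :=
  (Box4 Y).filter (fun x => Gd x.1 x.2 ∧ 4 * |((Af x.1 x.2 : ℤ) : ℝ)| ^ 3 ≤ Y ^ 12 ∧ 27 * ((Bf x.1 x.2 : ℤ) : ℝ) ^ 2 ≤ Y ^ 12)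

open Classical in
/-- the pairs `(a, c)` of the curves of the family -/
noncomputable def PR4 (Y : ℝ) : Finset (ℤ × ℤ) :=
  (Reg4 Y).filter (fun x => Minimal (Af x.1 x.2) (Bf x.1 x.2) ∧ disc (Af x.1 x.2) (Bf x.1 x.2) ≠ 0)

/-- sign conditions -/
def sgb (s : Bool) (n : ℤ) : Prop := if s then 0 < n else n < 0

/-- the rough part of `|n|` -/
noncomputable def ro (T : ℕ) (n : ℤ) : ℕ := (n / sm T n).natAbs

/-- the Jacobi symbol `(c'/a')` -/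
noncomputable def jj (T : ℕ) (a c : ℤ) : ℤ := jacobiSym ((ro T c : ℕ) : ℤ) (ro T a)

open Classical in
/-- the cells: signs of `a`, `c`, `n`, residue classes -/
noncomputable def Cell4 (M : ℕ) (a₀ c₀ : ℤ) (τ : Bool × Bool × Bool) (Y : ℝ) : Finset (ℤ × ℤ) :=
  (Reg4 Y).filter (fun x => (sgb τ.1 x.1 ∧ sgb τ.2.1 x.2 ∧ sgb τ.2.2 (nn x.1 x.2)) ∧ (M : ℤ) ∣ x.1 - a₀ ∧ (M : ℤ) ∣ x.2 - c₀)

end Rn4
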