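import Pool.Agent.Rn4.Defs
import Pool.Agent.Rnt.Loc

/-!
# Rn4 LOC: the root number is a periodic function times three Moebius functions and a Jacobi symbol
-/

set_option autoImplicit false

namespace Rn4

open Finset Filter Topology Rnt

-- BEGIN wp_a
/-- L1. `p ∣ a`, `p ∤ c`: `3r = -2c`, `A = -c²/3` (`p ∤ A`), `cc A r = -a² n` is divisible by `p`; `Rnt.wp_c`: `-(-6r/p)`, `-6r = 4c`. -/
theorem wp_a (a c : ℤ) (hG : Gd a c) (p : ℕ) (hp : p.Prime) (h5 : 5 ≤ p) (h : (p : ℤ) ∣ a) (hc : ¬ (p : ℤ) ∣ c) :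
    wp (Af a c) (Bf a c) p = - jacobiSym c p := by
  have hpi : Prime (p : ℤ) := Nat.prime_iff_prime_int.1 hp
  have h3 := three_rr a c hG
  have ha2 : (p : ℤ) ∣ a ^ 2 := h.trans (dvd_pow_self a (by norm_num))
  have hA : ¬ (p : ℤ) ∣ Af a c := by
    intro h0
    have h1 : (p : ℤ) ∣ a ^ 2 * (4 * c - a ^ 2) - 3 * Af a c := (ha2.mul_right _).sub (h0.mul_left 3)
    have h2 : a ^ 2 * (4 * c - a ^ 2) - 3 * Af a c = c ^ 2 := by
      unfold Af
      linear_combination (3 * rr a c + (a ^ 2 - 2 * c)) * h3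
    rw [h2] at h1
    exact hc (hpi.dvd_of_dvd_pow h1)
  have hcc : (p : ℤ) ∣ cc (Af a c) (rr a c) := by
    have h2 : cc (Af a c) (rr a c) = a ^ 2 * (4 * c - a ^ 2) := by
      unfold cc Af
      linear_combination (-(3 * rr a c) - (a ^ 2 - 2 * c)) * h3
    rw [h2]
    exact ha2.mul_right _
  rw [Bf_eq, Rnt.wp_c (Af a c) (rr a c) p hp h5 hcc hA]
  congr 1
  have h6 : (-6 * rr a c) % (p : ℤ) = (2 ^ 2 * c) % (p : ℤ) := by
    apply Int.ModEq.symm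
    rw [Int.modEq_iff_dvd]
    have h2 : -6 * rr a c - 2 ^ 2 * c = a ^ 2 * (-2) := by linear_combination (-2) * h3
    rw [h2]
    exact ha2.mul_right _
  have hg : Int.gcd 2 (p : ℤ) = 1 := by
    rw [Int.gcd_comm, ← Int.isCoprime_iff_gcd_eq_one]
    apply (Prime.coprime_iff_not_dvd hpi).2
    intro h0
    have h1 := Nat.le_of_dvd (by norm_num : 0 < 2) (Int.natCast_dvd_natCast.1 h0)
    omega
  rw [jacobiSym.mod_left (-6 * rr a c), h6, ← jacobiSym.mod_left, jacobiSym.mul_left, jacobiSym.sq_one' hg, one_mul]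
-- END wp_a

-- BEGIN wp_c
/-- L2. `p ∣ c`, `p ∤ a`: `3r = a²`, `A = -3r²`, `bb A r = c²` is divisible by `p`; `Rnt.wp_b`: `-(3r/p) = -(a²/p) = -1`. -/
theorem wp_c (a c : ℤ) (hG : Gd a c) (p : ℕ) (hp : p.Prime) (h5 : 5 ≤ p) (h : (p : ℤ) ∣ c) (ha : ¬ (p : ℤ) ∣ a) :
    wp (Af a c) (Bf a c) p = -1 := by
  have hpp : Prime (p : ℤ) := Nat.prime_iff_prime_int.1 hp
  have h3 := three_rr a c hG
  have hbb : bb (Af a c) (rr a c) = c ^ 2 := by
    unfold bb Af; ring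
  have hb : (p : ℤ) ∣ bb (Af a c) (rr a c) := by
    rw [hbb]
    exact h.trans (dvd_pow_self c two_ne_zero)
  have hA : ¬ (p : ℤ) ∣ Af a c := by
    intro hA
    have h1 : (p : ℤ) ∣ 3 * rr a c ^ 2 := by
      have h2 : 3 * rr a c ^ 2 = c ^ 2 - Af a c := by unfold Af; ring
      rw [h2]
      exact dvd_sub (h.trans (dvd_pow_self c two_ne_zero)) hA
    rcases hpp.dvd_or_dvd h1 with h4 | h4
    · have h6 := Int.le_of_dvd (by norm_num) h4
      omega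
    · have h7 : (p : ℤ) ∣ a ^ 2 := by
        have h8 : a ^ 2 = 3 * rr a c + 2 * c := by rw [h3]; ring
        rw [h8]
        exact dvd_add ((hpp.dvd_of_dvd_pow h4).mul_left 3) (h.mul_left 2)
      exact ha (hpp.dvd_of_dvd_pow h7)
  rw [Bf_eq, wp_b (Af a c) (rr a c) p hp h5 hb hA, h3]
  have h9 : jacobiSym (a ^ 2 - 2 * c) p = jacobiSym (a ^ 2) p := by
    refine jacobiSym.mod_left' ?_
    refine Int.emod_emod_of_dvd _ (dvd_refl _) ▸ ?_
    rw [Int.emod_emod_of_dvd _ (dvd_refl _)]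
    refine Int.ModEq.symm ((Int.modEq_iff_dvd).2 ?_)
    have h10 : a ^ 2 - 2 * c - a ^ 2 = -(2 * c) := by ring
    rw [h10]
    exact (h.mul_left 2).neg_right
  have h11 : a.gcd p = 1 := by
    rw [← Int.isCoprime_iff_gcd_eq_one]
    exact ((Nat.prime_iff_prime_int.1 hp).coprime_iff_not_dvd.2 ha).symm
  rw [h9, jacobiSym.sq_one' h11]
-- END wp_c

-- BEGIN wp_n
/-- L3. `p ∣ n`, `p ∤ a` (so `p ∤ c`): `3r = 2c`, `cc A r = -a² n`; `Rnt.wp_c`: `-(-6r/p)`, `-6r = -4c = -a²`. -/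
theorem wp_n (a c : ℤ) (hG : Gd a c) (p : ℕ) (hp : p.Prime) (h5 : 5 ≤ p) (h : (p : ℤ) ∣ nn a c) (ha : ¬ (p : ℤ) ∣ a) :
    wp (Af a c) (Bf a c) p = - jacobiSym (-1) p := by
  have hpi : Prime (p : ℤ) := Nat.prime_iff_prime_int.1 hp
  have h3 := three_rr a c hG
  have hc : ¬ (p : ℤ) ∣ c := by
    intro h0
    have h1 : (p : ℤ) ∣ nn a c + 4 * c := h.add (h0.mul_left 4)
    have h2 : nn a c + 4 * c = a ^ 2 := by unfold nn; ring
    rw [h2] at h1
    exact ha (hpi.dvd_of_dvd_pow h1)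
  have hA : ¬ (p : ℤ) ∣ Af a c := by
    intro h0
    have h1 : (p : ℤ) ∣ -(nn a c * a ^ 2) - 3 * Af a c := ((h.mul_right _).neg_right).sub (h0.mul_left 3)
    have h2 : -(nn a c * a ^ 2) - 3 * Af a c = c ^ 2 := by
      unfold nn Af
      linear_combination (3 * rr a c + (a ^ 2 - 2 * c)) * h3
    rw [h2] at h1
    exact hc (hpi.dvd_of_dvd_pow h1)
  have hcc : (p : ℤ) ∣ cc (Af a c) (rr a c) := by
    have h2 : cc (Af a c) (rr a c) = -(nn a c * a ^ 2) := by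
      unfold cc Af nn
      linear_combination (-(3 * rr a c) - (a ^ 2 - 2 * c)) * h3
    rw [h2]
    exact (h.mul_right _).neg_right
  rw [Bf_eq, Rnt.wp_c (Af a c) (rr a c) p hp h5 hcc hA]
  congr 1
  have h6 : (-6 * rr a c) % (p : ℤ) = (a ^ 2 * (-1)) % (p : ℤ) := by
    apply Int.ModEq.symm
    rw [Int.modEq_iff_dvd]
    have h2 : -6 * rr a c - a ^ 2 * (-1) = -nn a c := by
      unfold nn
      linear_combination (-2) * h3
    rw [h2]
    exact h.neg_right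
  have hg : Int.gcd a (p : ℤ) = 1 := by
    rw [Int.gcd_comm, ← Int.isCoprime_iff_gcd_eq_one]
    exact (Prime.coprime_iff_not_dvd hpi).2 ha
  rw [jacobiSym.mod_left (-6 * rr a c), h6, ← jacobiSym.mod_left, jacobiSym.mul_left, jacobiSym.sq_one' hg, one_mul]
-- END wp_n

-- BEGIN cop
private theorem cop_dvd (T : ℕ) (n : ℤ) (hn : n ≠ 0) (p : ℕ) (hp : p.Prime) (h : p ∣ ro T n) :
    T < p ∧ (p : ℤ) ∣ n := by
  have h1 : T < p := by
    by_contra h2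
    exact (sm_basic T n hn).2.2 p hp (not_lt.1 h2) (Int.natCast_dvd.2 h)
  exact ⟨h1, (sm_prime T n hn p hp h1).2 h⟩

private theorem cop_odd (T : ℕ) (hT : 5 ≤ T) (n : ℤ) (hn : n ≠ 0) : Odd (ro T n) := by
  rw [← Nat.not_even_iff_odd, even_iff_two_dvd]
  intro h
  have := (cop_dvd T n hn 2 Nat.prime_two h).1
  omega

private theorem cop_sm (T : ℕ) (n : ℤ) (p : ℕ) (hp : p.Prime) (h : p ∣ sm T n) : p ≤ T := by
  rw [sm, Prime.dvd_finsetProd_iff hp.prime] at h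
  obtain ⟨q, hq, hpq⟩ := h
  rw [mem_filter, mem_range] at hq
  have h1 := hp.dvd_of_dvd_pow hpq
  rw [Nat.prime_dvd_prime_iff_eq hp hq.2] at h1
  omega

/-- L4. For non exceptional pairs a prime `p > T` divides at most one of `a`, `c`, `n` (`n = a² - 4c`), so the rough parts are pairwise coprime; odd; `c` is prime to `a'`. -/
theorem cop (T j : ℕ) (hT : 5 ≤ T) (a c : ℤ) (h : ¬ Exc4 T j a c) :
    Nat.Coprime (ro T a) (ro T c) ∧ Nat.Coprime (ro T a) (ro T (nn a c)) ∧ Nat.Coprime (ro T c) (ro T (nn a c)) ∧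
    Int.gcd c (ro T a) = 1 ∧ Odd (ro T a) ∧ Odd (ro T c) ∧ Odd (ro T (nn a c)) ∧ Nat.Coprime (sm T c) (ro T a) := by
  have ha : a ≠ 0 := fun h0 => h (Or.inl h0)
  have hc : c ≠ 0 := fun h0 => h (Or.inr (Or.inl h0))
  have hn : nn a c ≠ 0 := fun h0 => h (Or.inr (Or.inr (Or.inl h0)))
  have hac : ∀ p : ℕ, p.Prime → T < p → (p : ℤ) ∣ a → (p : ℤ) ∣ c → False :=
    fun p hp hpT h1 h2 => h (Or.inr (Or.inr (Or.inr (Or.inl ⟨p, hp, hpT, Or.inl ⟨h1, h2⟩⟩))))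
  refine ⟨?_, ?_, ?_, ?_, cop_odd T hT _ ha, cop_odd T hT _ hc, cop_odd T hT _ hn, ?_⟩
  · by_contra hco
    obtain ⟨p, hp, h1, h2⟩ := Nat.Prime.not_coprime_iff_dvd.1 hco
    have h3 := cop_dvd T _ ha p hp h1
    exact hac p hp h3.1 h3.2 (cop_dvd T _ hc p hp h2).2
  · by_contra hco
    obtain ⟨p, hp, h1, h2⟩ := Nat.Prime.not_coprime_iff_dvd.1 hco
    have h3 := cop_dvd T _ ha p hp h1
    have h4 := (cop_dvd T _ hn p hp h2).2
    have hpi : Prime (p : ℤ) := Nat.prime_iff_prime_int.1 hp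
    have h5 : (p : ℤ) ∣ a ^ 2 - nn a c := (h3.2.trans (dvd_pow_self a (by norm_num))).sub h4
    have h6 : a ^ 2 - nn a c = 4 * c := by unfold nn; ring
    rw [h6] at h5
    rcases hpi.dvd_or_dvd h5 with h7 | h7
    · have h8 : p ∣ 4 := Int.natCast_dvd_natCast.1 (by exact_mod_cast h7)
      have h9 := Nat.le_of_dvd (by norm_num) h8
      omega
    · exact hac p hp h3.1 h3.2 h7
  · by_contra hco
    obtain ⟨p, hp, h1, h2⟩ := Nat.Prime.not_coprime_iff_dvd.1 hco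
    have h3 := cop_dvd T _ hc p hp h1
    have h4 := (cop_dvd T _ hn p hp h2).2
    have hpi : Prime (p : ℤ) := Nat.prime_iff_prime_int.1 hp
    have h5 : (p : ℤ) ∣ nn a c + 4 * c := h4.add (h3.2.mul_left 4)
    have h6 : nn a c + 4 * c = a ^ 2 := by unfold nn; ring
    rw [h6] at h5
    exact hac p hp h3.1 (hpi.dvd_of_dvd_pow h5) h3.2
  · by_contra hco
    have hc' : ¬ Nat.Coprime c.natAbs (ro T a) := by
      intro h1
      apply hco
      rw [Int.gcd, Int.natAbs_natCast]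
      exact h1
    obtain ⟨p, hp, h1, h2⟩ := Nat.Prime.not_coprime_iff_dvd.1 hc'
    have h3 := cop_dvd T _ ha p hp h2
    exact hac p hp h3.1 h3.2 (Int.natCast_dvd.2 h1)
  · by_contra hco
    obtain ⟨p, hp, h1, h2⟩ := Nat.Prime.not_coprime_iff_dvd.1 hco
    have h3 := (cop_dvd T _ ha p hp h2).1
    have h4 := cop_sm T _ p hp h1
    omega
-- END cop

-- BEGIN prod_big
private theorem prod_big_aux (a : ℤ) (n : ℕ) : Squarefree n →
    ∏ p ∈ n.primeFactors, (-jacobiSym a p) = ArithmeticFunction.moebius n * jacobiSym a n := by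
  induction n using induction_on_primes with
  | zero => intro h; exact absurd h not_squarefree_zero
  | one => intro _; simp
  | prime_mul p m hp ih =>
    intro h
    have hco : Nat.Coprime p m := Nat.coprime_of_squarefree_mul h
    have hm : Squarefree m := h.of_mul_right
    have hm0 : m ≠ 0 := hm.ne_zero
    rw [hco.primeFactors_mul, prod_union hco.disjoint_primeFactors, ih hm, hp.primeFactors,
      prod_singleton, ArithmeticFunction.isMultiplicative_moebius.map_mul_of_coprime hco,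
      ArithmeticFunction.moebius_apply_prime hp, jacobiSym.mul_right' a hp.ne_zero hm0]
    ring

private theorem prod_big_mem (T : ℕ) (n : ℤ) (hn : n ≠ 0) (p : ℕ) (hp : p.Prime) :
    p ∣ ro T n ↔ T < p ∧ (p : ℤ) ∣ n := by
  unfold ro
  constructor
  · intro hd
    have hTp : T < p := by
      by_contra hle
      exact (sm_basic T n hn).2.2 p hp (by omega) (Int.natCast_dvd.2 hd)
    exact ⟨hTp, (sm_prime T n hn p hp hTp).2 hd⟩
  · rintro ⟨hTp, hd⟩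
    exact (sm_prime T n hn p hp hTp).1 hd

/-- L5. As `Rn2.prod_big`: a prime `p > T` dividing `disc = -c⁴a²n` divides exactly one of `a`, `c`, `n`; `wp_a`, `wp_c`, `wp_n`. -/
theorem prod_big (T j : ℕ) (hT : 5 ≤ T) (a c : ℤ) (hG : Gd a c) (h : ¬ Exc4 T j a c) :
    ∏ p ∈ (disc (Af a c) (Bf a c)).natAbs.primeFactors with T < p, wp (Af a c) (Bf a c) p =
      ArithmeticFunction.moebius (ro T a) * ArithmeticFunction.moebius (ro T c) * ArithmeticFunction.moebius (ro T (nn a c)) *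
      (jacobiSym c (ro T a) * jacobiSym (-1) (ro T (nn a c))) := by
  unfold Exc4 at h
  push Not at h
  obtain ⟨ha0, hc0, hn0, hbig, hsmall⟩ := h
  have hac : ∀ p : ℕ, p.Prime → T < p → (p : ℤ) ∣ a → ¬ (p : ℤ) ∣ c := fun p hp hTp =>
    (hbig p hp hTp).1
  have hnc : ∀ p : ℕ, p.Prime → T < p → (p : ℤ) ∣ nn a c → ¬ (p : ℤ) ∣ c := by
    intro p hp hTp hn hc
    have hpp : Prime (p : ℤ) := Nat.prime_iff_prime_int.1 hp
    have h1 : (p : ℤ) ∣ a ^ 2 := by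
      have h2 : a ^ 2 = nn a c + 4 * c := by unfold nn; ring
      rw [h2]
      exact dvd_add hn (hc.mul_left 4)
    exact hac p hp hTp (hpp.dvd_of_dvd_pow h1) hc
  have hna : ∀ p : ℕ, p.Prime → T < p → (p : ℤ) ∣ nn a c → ¬ (p : ℤ) ∣ a := by
    intro p hp hTp hn ha
    have hpp : Prime (p : ℤ) := Nat.prime_iff_prime_int.1 hp
    refine hac p hp hTp ha ?_
    have h1 : (p : ℤ) ∣ 4 * c := by
      have h2 : 4 * c = a * a - nn a c := by unfold nn; ring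
      rw [h2]
      exact dvd_sub (ha.mul_left a) hn
    rcases hpp.dvd_or_dvd h1 with h4 | h4
    · exfalso
      have h5 : p ∣ 4 := by exact_mod_cast h4
      have h6 := Nat.le_of_dvd (by norm_num) h5
      omega
    · exact h4
  have hsqa : Squarefree (ro T a) := sm_sqf T _ ha0 fun p hp hTp => (hbig p hp hTp).2.1
  have hsqc : Squarefree (ro T c) := sm_sqf T _ hc0 fun p hp hTp => (hbig p hp hTp).2.2.1
  have hsqn : Squarefree (ro T (nn a c)) := sm_sqf T _ hn0 fun p hp hTp => (hbig p hp hTp).2.2.2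
  have hd0 : disc (Af a c) (Bf a c) ≠ 0 := by
    rw [disc_eq a c hG]
    exact neg_ne_zero.2 (mul_ne_zero (mul_ne_zero (pow_ne_zero 4 hc0) (pow_ne_zero 2 ha0)) hn0)
  have hset : (disc (Af a c) (Bf a c)).natAbs.primeFactors.filter (fun p => T < p) =
      ((ro T a).primeFactors ∪ (ro T c).primeFactors) ∪ (ro T (nn a c)).primeFactors := by
    ext p
    simp only [mem_filter, mem_union, Nat.mem_primeFactors]
    constructor
    · rintro ⟨⟨hp, hd, _⟩, hTp⟩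
      have hpp : Prime (p : ℤ) := Nat.prime_iff_prime_int.1 hp
      rw [← Int.natCast_dvd, disc_eq a c hG, dvd_neg] at hd
      rcases hpp.dvd_or_dvd hd with h1 | h1
      · rcases hpp.dvd_or_dvd h1 with h2 | h2
        · exact Or.inl (Or.inr ⟨hp, (prod_big_mem T _ hc0 p hp).2 ⟨hTp, hpp.dvd_of_dvd_pow h2⟩,
            hsqc.ne_zero⟩)
        · exact Or.inl (Or.inl ⟨hp, (prod_big_mem T _ ha0 p hp).2 ⟨hTp, hpp.dvd_of_dvd_pow h2⟩,
            hsqa.ne_zero⟩)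
      · exact Or.inr ⟨hp, (prod_big_mem T _ hn0 p hp).2 ⟨hTp, h1⟩, hsqn.ne_zero⟩
    · have key : ∀ n : ℤ, n ≠ 0 → n ∣ c ^ 4 * a ^ 2 * nn a c → p.Prime → p ∣ ro T n →
          (p.Prime ∧ p ∣ (disc (Af a c) (Bf a c)).natAbs ∧
            (disc (Af a c) (Bf a c)).natAbs ≠ 0) ∧ T < p := by
        intro n hn hnd hp hd
        obtain ⟨hTp, h1⟩ := (prod_big_mem T n hn p hp).1 hd
        refine ⟨⟨hp, ?_, Int.natAbs_ne_zero.2 hd0⟩, hTp⟩
        rw [← Int.natCast_dvd, disc_eq a c hG, dvd_neg]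
        exact h1.trans hnd
      rintro ((⟨hp, hd, _⟩ | ⟨hp, hd, _⟩) | ⟨hp, hd, _⟩)
      · exact key _ ha0 (((dvd_pow_self a two_ne_zero).mul_left _).mul_right _) hp hd
      · exact key _ hc0 (((dvd_pow_self c four_ne_zero).mul_right _).mul_right _) hp hd
      · exact key _ hn0 (dvd_mul_left _ _) hp hd
  have hdis1 : Disjoint (ro T a).primeFactors (ro T c).primeFactors := by
    rw [disjoint_left]
    intro p h1 h2
    rw [Nat.mem_primeFactors] at h1 h2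
    obtain ⟨hTp, h3⟩ := (prod_big_mem T _ ha0 p h1.1).1 h1.2.1
    exact hac p h1.1 hTp h3 ((prod_big_mem T _ hc0 p h1.1).1 h2.2.1).2
  have hdis2 : Disjoint ((ro T a).primeFactors ∪ (ro T c).primeFactors)
      (ro T (nn a c)).primeFactors := by
    rw [disjoint_left]
    intro p h1 h2
    rw [Nat.mem_primeFactors] at h2
    obtain ⟨hTp, h3⟩ := (prod_big_mem T _ hn0 p h2.1).1 h2.2.1
    rw [mem_union, Nat.mem_primeFactors, Nat.mem_primeFactors] at h1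
    rcases h1 with h1 | h1
    · exact hna p h2.1 hTp h3 ((prod_big_mem T _ ha0 p h2.1).1 h1.2.1).2
    · exact hnc p h2.1 hTp h3 ((prod_big_mem T _ hc0 p h2.1).1 h1.2.1).2
  have e1 : ∏ p ∈ (ro T a).primeFactors, wp (Af a c) (Bf a c) p =
      ∏ p ∈ (ro T a).primeFactors, (-jacobiSym c p) := by
    refine prod_congr rfl (fun p hp => ?_)
    rw [Nat.mem_primeFactors] at hp
    obtain ⟨hTp, h3⟩ := (prod_big_mem T _ ha0 p hp.1).1 hp.2.1
    exact wp_a a c hG p hp.1 (by omega) h3 (hac p hp.1 hTp h3)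
  have e2 : ∏ p ∈ (ro T c).primeFactors, wp (Af a c) (Bf a c) p =
      ∏ p ∈ (ro T c).primeFactors, (-jacobiSym 1 p) := by
    refine prod_congr rfl (fun p hp => ?_)
    rw [Nat.mem_primeFactors] at hp
    obtain ⟨hTp, h3⟩ := (prod_big_mem T _ hc0 p hp.1).1 hp.2.1
    rw [jacobiSym.one_left]
    exact wp_c a c hG p hp.1 (by omega) h3 (fun hu => hac p hp.1 hTp hu h3)
  have e3 : ∏ p ∈ (ro T (nn a c)).primeFactors, wp (Af a c) (Bf a c) p =
      ∏ p ∈ (ro T (nn a c)).primeFactors, (-jacobiSym (-1) p) := by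
    refine prod_congr rfl (fun p hp => ?_)
    rw [Nat.mem_primeFactors] at hp
    obtain ⟨hTp, h3⟩ := (prod_big_mem T _ hn0 p hp.1).1 hp.2.1
    exact wp_n a c hG p hp.1 (by omega) h3 (hna p hp.1 hTp h3)
  rw [hset, prod_union hdis2, prod_union hdis1, e1, e2, e3, prod_big_aux _ _ hsqa,
    prod_big_aux _ _ hsqc, prod_big_aux _ _ hsqn, jacobiSym.one_left]
  ring
-- END prod_big

-- BEGIN jac_congr
private theorem jac_congr_split (T : ℕ) (n : ℤ) (hn : n ≠ 0) :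
    n = (n.sign * (sm T n : ℕ)) * (ro T n : ℕ) := by
  obtain ⟨h0, h1, -⟩ := sm_basic T n hn
  have e : (sm T n : ℤ) * (n / sm T n) = n := Int.mul_ediv_cancel' h1
  have e2 : sm T n * ro T n = n.natAbs := by
    have := congrArg Int.natAbs e
    rwa [Int.natAbs_mul, Int.natAbs_natCast] at this
  have e3 : ((sm T n : ℕ) : ℤ) * ((ro T n : ℕ) : ℤ) = (n.natAbs : ℤ) := by exact_mod_cast e2
  rw [mul_assoc, e3]
  exact (Int.sign_mul_natAbs n).symm

private theorem jac_congr_pp_add (T a b : ℕ) : PP T (a + b) = PP T a * PP T b := by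
  unfold PP
  rw [← Finset.prod_mul_distrib]
  exact Finset.prod_congr rfl (fun p _ => pow_add p a b)

private theorem jac_congr_pow_dvd (T k p : ℕ) (hp : p.Prime) (hpT : p ≤ T) : p ^ k ∣ PP T k := by
  unfold PP
  exact Finset.dvd_prod_of_mem (fun p => p ^ k) (mem_filter.mpr ⟨mem_range.mpr (by omega), hp⟩)

private theorem jac_congr_form (T j : ℕ) (hT : 5 ≤ T) (a c : ℤ) (h : ¬ Exc4 T j a c) :
    jacobiSym c (ro T a) * jacobiSym (-1) (ro T (nn a c)) * jj T a c =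
      jacobiSym (c.sign * (sm T c : ℕ)) (ro T a) * jacobiSym (-1) (ro T (nn a c)) := by
  obtain ⟨c1, -⟩ := cop T j hT a c h
  have hc : c ≠ 0 := fun h0 => h (Or.inr (Or.inl h0))
  have e1 : jacobiSym c (ro T a) =
      jacobiSym (c.sign * (sm T c : ℕ)) (ro T a) * jacobiSym ((ro T c : ℕ) : ℤ) (ro T a) := by
    conv_lhs => rw [jac_congr_split T c hc]
    rw [jacobiSym.mul_left]
  have hj : jacobiSym ((ro T c : ℕ) : ℤ) (ro T a) * jacobiSym ((ro T c : ℕ) : ℤ) (ro T a) = 1 := by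
    rw [← pow_two]
    apply jacobiSym.sq_one
    rw [Int.gcd_natCast_natCast]
    exact c1.symm
  unfold jj
  rw [e1]
  calc _ = (jacobiSym ((ro T c : ℕ) : ℤ) (ro T a) * jacobiSym ((ro T c : ℕ) : ℤ) (ro T a)) *
        (jacobiSym (c.sign * (sm T c : ℕ)) (ro T a) * jacobiSym (-1) (ro T (nn a c))) := by ring
    _ = _ := by rw [hj, one_mul]

/-- L6. `c = sgn c · sm T c · c'`, so `J(c|a') J(c'|a') = J(sgn c · sm T c|a')` (`J(c'|a')² = 1`, `cop`); `sm T c` is the same (`sm_congr`) and divides `PP T j` (`sm_div`); `rough_congr` with `i = j + 2` for `a` and `n`; `jac_mod`. -/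
theorem jac_congr (T j : ℕ) (hT : 5 ≤ T) (a c a' c' : ℤ) (h : ¬ Exc4 T j a c) (h' : ¬ Exc4 T j a' c')
    (h1 : ((PP T (2 * j + 4) : ℕ) : ℤ) ∣ a - a') (h2 : ((PP T (2 * j + 4) : ℕ) : ℤ) ∣ c - c')
    (s1 : a.sign = a'.sign) (s2 : c.sign = c'.sign) (s3 : (nn a c).sign = (nn a' c').sign) :
    jacobiSym c (ro T a) * jacobiSym (-1) (ro T (nn a c)) * jj T a c =
    jacobiSym c' (ro T a') * jacobiSym (-1) (ro T (nn a' c')) * jj T a' c' := by
  rw [jac_congr_form T j hT a c h, jac_congr_form T j hT a' c' h']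
  obtain ⟨-, -, -, -, o1, o2, o3, -⟩ := cop T j hT a c h
  obtain ⟨-, -, -, -, o1', o2', o3', -⟩ := cop T j hT a' c' h'
  unfold Exc4 at h h'
  push Not at h h'
  obtain ⟨ha0, hc0, hn0, -, hsm⟩ := h
  obtain ⟨ha0', hc0', hn0', -, -⟩ := h'
  have hn : ((PP T (2 * j + 4) : ℕ) : ℤ) ∣ nn a c - nn a' c' := by
    have e : nn a c - nn a' c' = (a + a') * (a - a') - 4 * (c - c') := by unfold nn; ring
    rw [e]
    exact dvd_sub (Dvd.dvd.mul_left h1 _) (Dvd.dvd.mul_left h2 _)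
  have hM : ∀ p : ℕ, p.Prime → p ≤ T → (p : ℤ) ^ j ∣ ((PP T (2 * j + 4) : ℕ) : ℤ) := by
    intro p hp hpT
    have a1 : p ^ (2 * j + 4) ∣ PP T (2 * j + 4) := jac_congr_pow_dvd T _ p hp hpT
    have a2 : p ^ j ∣ PP T (2 * j + 4) := dvd_trans (pow_dvd_pow p (by omega)) a1
    exact_mod_cast a2
  have e3 : 2 * j + 4 = j + (j + 4) := by omega
  have smc : sm T c = sm T c' :=
    sm_congr T j _ hM _ _ h2 (fun p hp hpT => (hsm p hp hpT).2.1)
  have ca : ro T a ≡ ro T a' [MOD PP T (j + 4)] :=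
    rough_congr T j (j + 4) _ _ ha0 ha0' s1 (by rw [← e3]; exact h1) (fun p hp hpT => (hsm p hp hpT).1)
  have cn : ro T (nn a c) ≡ ro T (nn a' c') [MOD PP T (j + 4)] :=
    rough_congr T j (j + 4) _ _ hn0 hn0' s3 (by rw [← e3]; exact hn) (fun p hp hpT => (hsm p hp hpT).2.2)
  have dc : sm T c ∣ PP T j := sm_div T j _ hc0 (fun p hp hpT => (hsm p hp hpT).2.1)
  have pp1 : PP T (j + 4) = PP T 4 * PP T j := by
    rw [add_comm, jac_congr_pp_add]
  have h4 : 4 ∣ PP T 4 := by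
    have a1 : 2 ^ 4 ∣ PP T 4 := jac_congr_pow_dvd T 4 2 Nat.prime_two (by omega)
    exact dvd_trans (by norm_num) a1
  have sgc : c.sign.natAbs = 1 := Int.natAbs_sign_of_ne_zero hc0
  rw [← smc, ← s2]
  have d1 : 4 * ((c.sign * (sm T c : ℕ) : ℤ)).natAbs ∣ PP T (j + 4) := by
    rw [Int.natAbs_mul, sgc, Int.natAbs_natCast, one_mul, pp1]
    exact mul_dvd_mul h4 dc
  have d2 : 4 * (-1 : ℤ).natAbs ∣ PP T (j + 4) := by
    rw [pp1]
    exact dvd_mul_of_dvd_left h4 _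
  have j1 : jacobiSym (c.sign * (sm T c : ℕ)) (ro T a) =
      jacobiSym (c.sign * (sm T c : ℕ)) (ro T a') :=
    jac_mod _ _ _ o1 o1' (Nat.ModEq.of_dvd d1 ca)
  have j2 : jacobiSym (-1) (ro T (nn a c)) = jacobiSym (-1) (ro T (nn a' c')) :=
    jac_mod _ _ _ o3 o3' (Nat.ModEq.of_dvd d2 cn)
  rw [j1, j2]
-- END jac_congr

-- BEGIN disc_pow
private theorem disc_pow_val {p j : ℕ} {x : ℤ} (h : ¬ (p : ℤ) ^ j ∣ x) :
    ∃ m : ℕ, emultiplicity (p : ℤ) x = m ∧ m < j := by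
  have h1 := emultiplicity_lt_iff_not_dvd.2 h
  have h2 : emultiplicity (p : ℤ) x ≠ ⊤ := (h1.trans_le le_top).ne
  obtain ⟨m, hm⟩ := ENat.ne_top_iff_exists.1 h2
  refine ⟨m, hm.symm, ?_⟩
  rw [← hm] at h1
  exact_mod_cast h1

/-- L7. `v_p(c⁴ a² n) ≤ 7 (j - 1)`. -/
theorem disc_pow (T j : ℕ) (hj : 1 ≤ j) (a c : ℤ) (hG : Gd a c) (h : ¬ Exc4 T j a c) (p : ℕ) (hp : p.Prime) (hpT : p ≤ T) :
    ¬ (p : ℤ) ^ (7 * j) ∣ disc (Af a c) (Bf a c) := by
  have hp' : Prime (p : ℤ) := Nat.prime_iff_prime_int.1 hp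
  have ha : ¬ (p : ℤ) ^ j ∣ a := fun h1 =>
    h (Or.inr (Or.inr (Or.inr (Or.inr ⟨p, hp, hpT, Or.inl h1⟩))))
  have hc : ¬ (p : ℤ) ^ j ∣ c := fun h1 =>
    h (Or.inr (Or.inr (Or.inr (Or.inr ⟨p, hp, hpT, Or.inr (Or.inl h1)⟩))))
  have hn : ¬ (p : ℤ) ^ j ∣ nn a c := fun h1 =>
    h (Or.inr (Or.inr (Or.inr (Or.inr ⟨p, hp, hpT, Or.inr (Or.inr h1)⟩))))
  obtain ⟨m1, h1, h1'⟩ := disc_pow_val ha
  obtain ⟨m2, h2, h2'⟩ := disc_pow_val hc
  obtain ⟨m3, h3, h3'⟩ := disc_pow_val hn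
  rw [disc_eq a c hG, dvd_neg, ← emultiplicity_lt_iff_not_dvd, emultiplicity_mul hp',
    emultiplicity_mul hp', emultiplicity_pow hp', emultiplicity_pow hp', h1, h2, h3]
  have h4 : 4 * m2 + 2 * m1 + m3 < 7 * j := by omega
  exact_mod_cast h4
-- END disc_pow

-- BEGIN min_iff
/-- L8. `Rnt.min_iff` for `A = Af a c`, `r = rr a c` (`Bf_eq`); if `p² ∣ r` then `p⁴ ∣ A = c² - 3r²` iff `p² ∣ c`. -/
theorem min_iff (a c : ℤ) : Minimal (Af a c) (Bf a c) ↔ ∀ p : ℕ, p.Prime → ¬ ((p : ℤ) ^ 2 ∣ c ∧ (p : ℤ) ^ 2 ∣ rr a c) := by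
  rw [Bf_eq, Rnt.min_iff]
  refine forall_congr' fun p => forall_congr' fun _ => not_congr (and_congr_left fun hr => ?_)
  have h1 : (p : ℤ) ^ 4 ∣ 3 * rr a c ^ 2 := by
    have h2 : ((p : ℤ) ^ 2) ^ 2 ∣ rr a c ^ 2 := pow_dvd_pow_of_dvd hr 2
    rw [← pow_mul] at h2
    exact h2.mul_left 3
  unfold Af
  rw [dvd_sub_left h1]
  have h3 : (p : ℤ) ^ 4 = ((p : ℤ) ^ 2) ^ 2 := by rw [← pow_mul]
  rw [h3]
  exact Int.pow_dvd_pow_iff two_ne_zero
-- END min_iff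

-- BEGIN min_congr
private theorem min_congr_pp (T p : ℕ) (hp : p.Prime) (hpT : p ≤ T) : (p : ℤ) ^ 2 ∣ ((PP T 2 : ℕ) : ℤ) := by
  have h : p ^ 2 ∣ PP T 2 := by
    unfold PP
    exact Finset.dvd_prod_of_mem (fun q => q ^ 2)
      (Finset.mem_filter.2 ⟨Finset.mem_range.2 (by omega), hp⟩)
  exact_mod_cast Int.natCast_dvd_natCast.2 h

private theorem min_congr_aux (T j : ℕ) (a c a' c' : ℤ) (hG : Gd a c) (hG' : Gd a' c') (h' : ¬ Exc4 T j a' c')
    (h1 : ((3 * PP T 2 : ℕ) : ℤ) ∣ a - a') (h2 : ((3 * PP T 2 : ℕ) : ℤ) ∣ c - c')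
    (hm : ∀ p : ℕ, p.Prime → ¬ ((p : ℤ) ^ 2 ∣ c ∧ (p : ℤ) ^ 2 ∣ rr a c)) :
    ∀ p : ℕ, p.Prime → ¬ ((p : ℤ) ^ 2 ∣ c' ∧ (p : ℤ) ^ 2 ∣ rr a' c') := by
  rintro p hp ⟨hc, hr⟩
  have hr3 : 3 * (rr a c - rr a' c') = (a - a') * (a + a') - 2 * (c - c') := by
    rw [mul_sub, three_rr _ _ hG, three_rr _ _ hG']
    ring
  have hPr : ((PP T 2 : ℕ) : ℤ) ∣ rr a c - rr a' c' := by
    have h3 : ((3 * PP T 2 : ℕ) : ℤ) ∣ 3 * (rr a c - rr a' c') := by
      rw [hr3]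
      exact dvd_sub (h1.mul_right _) (h2.mul_left _)
    push_cast at h3
    exact (mul_dvd_mul_iff_left (by norm_num : (3 : ℤ) ≠ 0)).1 h3
  have hPc : ((PP T 2 : ℕ) : ℤ) ∣ c - c' := dvd_trans (by push_cast; exact dvd_mul_left _ _) h2
  rcases le_or_gt p T with hpT | hpT
  · have hd := min_congr_pp T p hp hpT
    exact hm p hp ⟨(dvd_iff_dvd_of_dvd_sub (hd.trans hPc)).2 hc, (dvd_iff_dvd_of_dvd_sub (hd.trans hPr)).2 hr⟩
  · have hp1 : (p : ℤ) ∣ (p : ℤ) ^ 2 := dvd_pow_self _ (by norm_num)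
    refine h' (Or.inr (Or.inr (Or.inr (Or.inl ⟨p, hp, hpT, Or.inl ⟨?_, ?_⟩⟩))))
    · have h4 : (p : ℤ) ∣ a' ^ 2 := by
        have e : a' ^ 2 = 3 * rr a' c' + 2 * c' := by
          rw [three_rr _ _ hG']
          ring
        rw [e]
        exact dvd_add ((hp1.trans hr).mul_left _) ((hp1.trans hc).mul_left _)
      exact (Nat.prime_iff_prime_int.1 hp).dvd_of_dvd_pow h4
    · exact hp1.trans hc

/-- L9. `min_iff`; `rr a c = rr a' c'` mod `PP T 2` (`three_rr`); primes `> T`: `p² ∣ c`, `p² ∣ r` give `p ∣ a² = 3r + 2c`, excluded for non exceptional pairs. -/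
theorem min_congr (T j : ℕ) (a c a' c' : ℤ) (hG : Gd a c) (hG' : Gd a' c') (h : ¬ Exc4 T j a c) (h' : ¬ Exc4 T j a' c')
    (h1 : ((3 * PP T 2 : ℕ) : ℤ) ∣ a - a') (h2 : ((3 * PP T 2 : ℕ) : ℤ) ∣ c - c') :
    Minimal (Af a c) (Bf a c) ↔ Minimal (Af a' c') (Bf a' c') := by
  rw [min_iff, min_iff]
  refine ⟨min_congr_aux T j a c a' c' hG hG' h' h1 h2, min_congr_aux T j a' c' a c hG' hG h ?_ ?_⟩
  · rwa [dvd_sub_comm]
  · rwa [dvd_sub_comm]
-- END min_congr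

-- BEGIN ident
private theorem ident_rn (w2 : ℤ_[2] × ℤ_[2] → ℤ) (w3 : ℤ_[3] × ℤ_[3] → ℤ) (T j : ℕ) (hT : 5 ≤ T) (a c : ℤ) (hG : Gd a c)
    (h : ¬ Exc4 T j a c) : rootNumber w2 w3 (Af a c) (Bf a c) =
      -(w2 ((Af a c : ℤ_[2]), (Bf a c : ℤ_[2])) * w3 ((Af a c : ℤ_[3]), (Bf a c : ℤ_[3])) *
        ((∏ p ∈ (range (T + 1)).filter (fun p => p.Prime ∧ 5 ≤ p), wp (Af a c) (Bf a c) p) *
        (ArithmeticFunction.moebius (ro T a) * ArithmeticFunction.moebius (ro T c) * ArithmeticFunction.moebius (ro T (nn a c)) *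
      (jacobiSym c (ro T a) * jacobiSym (-1) (ro T (nn a c)))))) := by
  have hD : disc (Af a c) (Bf a c) ≠ 0 := by
    unfold Exc4 at h
    push Not at h
    obtain ⟨ha, hc, hn, _, _⟩ := h
    rw [disc_eq a c hG]
    exact neg_ne_zero.2 (mul_ne_zero (mul_ne_zero (pow_ne_zero 4 hc) (pow_ne_zero 2 ha)) hn)
  unfold rootNumber
  rw [← prod_big T j hT a c hG h,
    ← Finset.prod_filter_mul_prod_filter_not ((disc (Af a c) (Bf a c)).natAbs.primeFactors.filter fun p => 5 ≤ p)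
      (fun p => p ≤ T)]
  have e1 : ((disc (Af a c) (Bf a c)).natAbs.primeFactors.filter fun p => 5 ≤ p).filter (fun p => ¬ p ≤ T) =
      (disc (Af a c) (Bf a c)).natAbs.primeFactors.filter fun p => T < p := by
    ext p
    simp only [Finset.mem_filter, not_le]
    constructor
    · rintro ⟨⟨h1, h2⟩, h3⟩
      exact ⟨h1, h3⟩
    · rintro ⟨h1, h3⟩
      exact ⟨⟨h1, by omega⟩, h3⟩
  have e2 : ∏ p ∈ ((disc (Af a c) (Bf a c)).natAbs.primeFactors.filter fun p => 5 ≤ p).filter (fun p => p ≤ T),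
      wp (Af a c) (Bf a c) p =
      ∏ p ∈ (range (T + 1)).filter (fun p => p.Prime ∧ 5 ≤ p), wp (Af a c) (Bf a c) p := by
    refine Finset.prod_subset ?_ ?_
    · intro p hp
      obtain ⟨hp1, hp2⟩ := Finset.mem_filter.1 hp
      obtain ⟨hp3, hp4⟩ := Finset.mem_filter.1 hp1
      exact Finset.mem_filter.2 ⟨Finset.mem_range.2 (by omega), Nat.prime_of_mem_primeFactors hp3, hp4⟩
    · intro p hp hp'
      obtain ⟨hp1, hp2, hp3⟩ := Finset.mem_filter.1 hp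
      have hnd : ¬ (p : ℤ) ∣ disc (Af a c) (Bf a c) := by
        intro hd
        refine hp' (Finset.mem_filter.2 ⟨Finset.mem_filter.2 ⟨?_, hp3⟩, by have := Finset.mem_range.1 hp1; omega⟩)
        exact Nat.mem_primeFactors.2 ⟨hp2, Int.natCast_dvd.1 hd, Int.natAbs_ne_zero.2 hD⟩
      unfold wp
      rw [if_pos hnd]
  rw [e1, e2]

/-- L10. MAIN IDENTITY, copy of `Rn2.ident`. `M = 3 * PP T (7 * j + 4 + K)` with `K` from `lc_unif` for `w2`, `w3` and exponent `7j` (`M ∣ a - a'`, `M ∣ c - c'` give `PP T (7 * j + 4 + K) ∣ rr - rr'`, `Af - Af'`, `Bf - Bf'` and `Gd a c ↔ Gd a' c'`). -/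
theorem ident (w2 : ℤ_[2] × ℤ_[2] → ℤ) (w3 : ℤ_[3] × ℤ_[3] → ℤ) (h2 : LocalSign 2 w2) (h3 : LocalSign 3 w3)
    (T j : ℕ) (hT : 5 ≤ T) (hj : 1 ≤ j) : ∃ M : ℕ, 0 < M ∧ 3 * PP T (7 * j + 4) ∣ M ∧ ∀ a c a' c' : ℤ, Gd a c → Gd a' c' → ¬ Exc4 T j a c → ¬ Exc4 T j a' c' →
      (M : ℤ) ∣ a - a' → (M : ℤ) ∣ c - c' → a.sign = a'.sign → c.sign = c'.sign → (nn a c).sign = (nn a' c').sign →
      (Minimal (Af a c) (Bf a c) ↔ Minimal (Af a' c') (Bf a' c')) ∧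
        (rootNumber w2 w3 (Af a c) (Bf a c) : ℝ) * (mob (ro T a) * mob (ro T c) * mob (ro T (nn a c)) * (jj T a c : ℝ)) =
          rootNumber w2 w3 (Af a' c') (Bf a' c') * (mob (ro T a') * mob (ro T c') * mob (ro T (nn a' c')) * (jj T a' c' : ℝ)) ∧
        (mob (ro T a) * mob (ro T c) * mob (ro T (nn a c)) * (jj T a c : ℝ)) ^ 2 = 1 := by
  obtain ⟨K2, hK2⟩ := lc_unif 2 w2 h2 (7 * j)
  obtain ⟨K3, hK3⟩ := lc_unif 3 w3 h3 (7 * j)
  have hPP : ∀ m n, m ≤ n → PP T m ∣ PP T n := fun m n hmn =>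
    Finset.prod_dvd_prod_of_dvd _ _ fun p _ => pow_dvd_pow p hmn
  have hpM : ∀ p : ℕ, p.Prime → p ≤ T → ∀ n, p ^ n ∣ PP T n := fun p hp hpT n =>
    Finset.dvd_prod_of_mem (fun p => p ^ n) (Finset.mem_filter.2 ⟨Finset.mem_range.2 (by omega), hp⟩)
  refine ⟨3 * PP T (7 * j + 4 + (K2 + K3)), ?_, Nat.mul_dvd_mul_left 3 (hPP _ _ (by omega)), ?_⟩
  · refine Nat.mul_pos (by norm_num) ?_
    exact Finset.prod_pos fun p hp => pow_pos (Finset.mem_filter.1 hp).2.pos _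
  intro a c a' c' hG hG' h h' ha3 hc3 s1 s2 s3
  obtain ⟨M, hM⟩ : ∃ M, M = PP T (7 * j + 4 + (K2 + K3)) := ⟨_, rfl⟩
  rw [← hM] at ha3 hc3
  push_cast at ha3 hc3
  have ha : (M : ℤ) ∣ a - a' := (dvd_mul_left (M : ℤ) 3).trans ha3
  have hc : (M : ℤ) ∣ c - c' := (dvd_mul_left (M : ℤ) 3).trans hc3
  have hdM : ∀ n, n ≤ 7 * j + 4 + (K2 + K3) → ((PP T n : ℕ) : ℤ) ∣ (M : ℤ) := fun n hn => by
    rw [hM]
    exact Int.natCast_dvd_natCast.2 (hPP _ _ hn)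
  have hdM3 : ((3 * PP T 2 : ℕ) : ℤ) ∣ 3 * (M : ℤ) := by
    push_cast
    exact mul_dvd_mul_left 3 (hdM 2 (by omega))
  have hpd : ∀ p : ℕ, p.Prime → p ≤ T → ∀ n, n ≤ 7 * j + 4 + (K2 + K3) → (p : ℤ) ^ n ∣ (M : ℤ) := fun p hp hpT n hn => by
    refine dvd_trans ?_ (hdM n hn)
    exact_mod_cast hpM p hp hpT n
  have hr : (M : ℤ) ∣ rr a c - rr a' c' := by
    have e : 3 * (rr a c - rr a' c') = (a - a') * (a + a') + (c - c') * (-2) := by
      have g1 := three_rr a c hG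
      have g2 := three_rr a' c' hG'
      linear_combination g1 - g2
    have h4 : 3 * (M : ℤ) ∣ 3 * (rr a c - rr a' c') := by
      rw [e]
      exact dvd_add (ha3.mul_right _) (hc3.mul_right _)
    exact (mul_dvd_mul_iff_left (by norm_num : (3 : ℤ) ≠ 0)).1 h4
  have hA : (M : ℤ) ∣ Af a c - Af a' c' := by
    have e : Af a c - Af a' c' = (c - c') * (c + c') + (rr a c - rr a' c') * (-3 * (rr a c + rr a' c')) := by
      unfold Af
      ring
    rw [e]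
    exact dvd_add (hc.mul_right _) (hr.mul_right _)
  have hB : (M : ℤ) ∣ Bf a c - Bf a' c' := by
    have e : Bf a c - Bf a' c' = (rr a c - rr a' c') * (2 * (rr a c ^ 2 + rr a c * rr a' c' + rr a' c' ^ 2) - c ^ 2) +
        (c - c') * (-(rr a' c' * (c + c'))) := by
      unfold Bf
      ring
    rw [e]
    exact dvd_add (hr.mul_right _) (hc.mul_right _)
  have hmin := min_congr T j a c a' c' hG hG' h h' (hdM3.trans ha3) (hdM3.trans hc3)
  have hJ := jac_congr T j hT a c a' c' h h' ((hdM _ (by omega)).trans ha) ((hdM _ (by omega)).trans hc) s1 s2 s3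
  have e2 : w2 ((Af a c : ℤ_[2]), (Bf a c : ℤ_[2])) = w2 ((Af a' c' : ℤ_[2]), (Bf a' c' : ℤ_[2])) :=
    hK2 (Af a c) (Bf a c) (Af a' c') (Bf a' c') ((hpd 2 Nat.prime_two (by omega) K2 (by omega)).trans hA)
      ((hpd 2 Nat.prime_two (by omega) K2 (by omega)).trans hB) (disc_pow T j hj a c hG h 2 Nat.prime_two (by omega))
  have e3 : w3 ((Af a c : ℤ_[3]), (Bf a c : ℤ_[3])) = w3 ((Af a' c' : ℤ_[3]), (Bf a' c' : ℤ_[3])) :=
    hK3 (Af a c) (Bf a c) (Af a' c') (Bf a' c') ((hpd 3 Nat.prime_three (by omega) K3 (by omega)).trans hA)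
      ((hpd 3 Nat.prime_three (by omega) K3 (by omega)).trans hB) (disc_pow T j hj a c hG h 3 Nat.prime_three (by omega))
  have e4 : ∏ p ∈ (range (T + 1)).filter (fun p => p.Prime ∧ 5 ≤ p), wp (Af a c) (Bf a c) p =
      ∏ p ∈ (range (T + 1)).filter (fun p => p.Prime ∧ 5 ≤ p), wp (Af a' c') (Bf a' c') p := by
    refine Finset.prod_congr rfl fun p hp => ?_
    obtain ⟨hp1, hp2, hp3⟩ := Finset.mem_filter.1 hp
    have hpT : p ≤ T := by
      have := Finset.mem_range.1 hp1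
      omega
    exact wp_congr (Af a c) (Bf a c) (Af a' c') (Bf a' c') p (7 * j) hp2 hp3 ((hpd p hp2 hpT _ (by omega)).trans hA)
      ((hpd p hp2 hpT _ (by omega)).trans hB) (disc_pow T j hj a c hG h p hp2 hpT)
  have hsq : ∀ a c : ℤ, ¬ Exc4 T j a c → mob (ro T a) ^ 2 = 1 ∧ mob (ro T c) ^ 2 = 1 ∧
      mob (ro T (nn a c)) ^ 2 = 1 ∧ ((jj T a c : ℤ) : ℝ) ^ 2 = 1 := by
    intro a c h
    obtain ⟨c1, -⟩ := cop T j hT a c h
    unfold Exc4 at h
    push Not at h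
    obtain ⟨hu, hv, hs, h4, _⟩ := h
    have key : ∀ n : ℤ, n ≠ 0 → (∀ p : ℕ, p.Prime → T < p → ¬ (p : ℤ) ^ 2 ∣ n) → mob (ro T n) ^ 2 = 1 := by
      intro n hn hn'
      have h5 := ArithmeticFunction.moebius_sq_eq_one_of_squarefree (sm_sqf T n hn hn')
      unfold mob ro
      rw [Int.natAbs_natCast]
      exact_mod_cast h5
    refine ⟨key _ hu fun p hp hpT => (h4 p hp hpT).2.1, key _ hv fun p hp hpT => (h4 p hp hpT).2.2.1,
      key _ hs fun p hp hpT => (h4 p hp hpT).2.2.2, ?_⟩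
    have h6 : (jj T a c) ^ 2 = 1 := by
      unfold jj
      apply jacobiSym.sq_one
      rw [Int.gcd_natCast_natCast]
      exact c1.symm
    exact_mod_cast h6
  refine ⟨hmin, ?_, ?_⟩
  · rw [ident_rn w2 w3 T j hT a c hG h, ident_rn w2 w3 T j hT a' c' hG' h', e2, e3, e4]
    obtain ⟨q1, q2, q3, q4⟩ := hsq a c h
    obtain ⟨r1, r2, r3, r4⟩ := hsq a' c' h'
    have hJr : ((jacobiSym c (ro T a) : ℤ) : ℝ) * ((jacobiSym (-1) (ro T (nn a c)) : ℤ) : ℝ) * ((jj T a c : ℤ) : ℝ) =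
        ((jacobiSym c' (ro T a') : ℤ) : ℝ) * ((jacobiSym (-1) (ro T (nn a' c')) : ℤ) : ℝ) *
        ((jj T a' c' : ℤ) : ℝ) := by exact_mod_cast hJ
    have m : ∀ n : ℤ, ((ArithmeticFunction.moebius (ro T n) : ℤ) : ℝ) = mob (ro T n) := fun n => rfl
    push_cast
    rw [m, m, m, m, m, m]
    generalize mob (ro T a) = x1 at *
    generalize mob (ro T c) = x2 at *
    generalize mob (ro T (nn a c)) = x3 at *
    generalize mob (ro T a') = y1 at *
    generalize mob (ro T c') = y2 at *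
    generalize mob (ro T (nn a' c')) = y3 at *
    generalize ((jj T a c : ℤ) : ℝ) = x4 at *
    generalize ((jj T a' c' : ℤ) : ℝ) = y4 at *
    have f1 : ∀ W P J1 J2 : ℝ, -(W * (P * (x1 * x2 * x3 * (J1 * J2)))) * (x1 * x2 * x3 * x4) = -(W * P * (J1 * J2 * x4)) := by
      intro W P J1 J2
      calc -(W * (P * (x1 * x2 * x3 * (J1 * J2)))) * (x1 * x2 * x3 * x4) = -(W * P * (J1 * J2 * x4)) * (x1 ^ 2 * x2 ^ 2 * x3 ^ 2) := by ring
        _ = -(W * P * (J1 * J2 * x4)) := by rw [q1, q2, q3]; ring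
    have f2 : ∀ W P J1 J2 : ℝ, -(W * (P * (y1 * y2 * y3 * (J1 * J2)))) * (y1 * y2 * y3 * y4) = -(W * P * (J1 * J2 * y4)) := by
      intro W P J1 J2
      calc -(W * (P * (y1 * y2 * y3 * (J1 * J2)))) * (y1 * y2 * y3 * y4) = -(W * P * (J1 * J2 * y4)) * (y1 ^ 2 * y2 ^ 2 * y3 ^ 2) := by ring
        _ = -(W * P * (J1 * J2 * y4)) := by rw [r1, r2, r3]; ring
    rw [f1, f2, hJr]
  · obtain ⟨q1, q2, q3, q4⟩ := hsq a c h
    rw [mul_pow, mul_pow, mul_pow, q1, q2, q3, q4]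
    norm_num
-- END ident

end Rn4
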